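import Pool.Agent.P.MP_b67b84_gt.Planar

namespace Pool.Agent.P.MP_b67b84_gt

open Filter Topology Complex

lemma ift {X : Type*} [NormedAddCommGroup X] [NormedSpace ℝ X] [FiniteDimensional ℝ X]
    (F : ℝ × X → X) (x0 v : X) (hF : ContDiffAt ℝ 1 F (0, x0)) (h0 : F (0, x0) = 0)
    (hinj : ∀ w, HasDerivAt (fun t : ℝ => F (0, x0 + t • w)) 0 0 → w = 0)
    (hv : HasDerivAt (fun t : ℝ => F (t, x0 + t • v)) 0 0) :
    ∃ γ : ℝ → X, γ 0 = x0 ∧ HasDerivAt γ v 0 ∧ ∀ᶠ t in 𝓝 (0 : ℝ), F (t, γ t) = 0 := by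
  have : CompleteSpace X := FiniteDimensional.complete ℝ X
  have hs := hF.hasStrictFDerivAt one_ne_zero
  set F' := fderiv ℝ F (0, x0) with hF'
  have hdir : ∀ (τ : ℝ) (w : X),
      HasDerivAt (fun t : ℝ => F (t * τ, x0 + t • w)) (F' (τ, w)) 0 := by
    intro τ w
    have hc : HasDerivAt (fun t : ℝ => ((t * τ, x0 + t • w) : ℝ × X)) (τ, w) 0 := by
      refine HasDerivAt.prodMk ?_ ?_
      · simpa using (hasDerivAt_id (0 : ℝ)).mul_const τ
      · simpa using ((hasDerivAt_id (0 : ℝ)).smul_const w).const_add x0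
    have hs' : HasFDerivAt F F' ((0 : ℝ) * τ, x0 + (0 : ℝ) • w) := by
      simpa using hs.hasFDerivAt
    exact hs'.comp_hasDerivAt (0 : ℝ) hc
  have hinj' : Function.Injective (F' ∘L ContinuousLinearMap.inr ℝ ℝ X) := by
    rw [injective_iff_map_eq_zero]
    intro w hw
    apply hinj
    have := hdir 0 w
    simp only [mul_zero] at this
    have hw' : F' (0, w) = 0 := hw
    rwa [hw'] at this
  have hinv : (F' ∘L ContinuousLinearMap.inr ℝ ℝ X).IsInvertible :=
    ⟨(LinearEquiv.ofInjectiveEndo (F' ∘L ContinuousLinearMap.inr ℝ ℝ X).toLinearMap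
      hinj').toContinuousLinearEquiv, by ext; simp⟩
  have hv' : F' (1, v) = 0 := by
    have := hdir 1 v
    simp only [mul_one] at this
    exact this.unique hv
  refine ⟨hs.implicitFunctionOfProdDomain hinv, ?_, ?_, ?_⟩
  · exact (hs.eventually_apply_eq_iff_implicitFunctionOfProdDomain hinv).self_of_nhds.1 rfl
  · have := (hs.hasStrictFDerivAt_implicitFunctionOfProdDomain hinv).hasFDerivAt.hasDerivAt
    have e : (-(F' ∘L ContinuousLinearMap.inr ℝ ℝ X).inverse ∘L
        (F' ∘L ContinuousLinearMap.inl ℝ ℝ X)) 1 = v := by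
      have e1 : (F' ∘L ContinuousLinearMap.inl ℝ ℝ X) 1 =
          (F' ∘L ContinuousLinearMap.inr ℝ ℝ X) (-v) := by
        have : F' (1, v) = F' (1, 0) + F' (0, v) := by rw [← map_add]; simp
        rw [map_neg]
        exact eq_neg_of_add_eq_zero_left (this.symm.trans hv')
      rw [neg_apply, ContinuousLinearMap.comp_apply, e1,
        hinv.inverse_apply_self, neg_neg]
    rwa [e] at this
  · have := hs.eventually_apply_implicitFunctionOfProdDomain hinv
    rwa [h0] at this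

/-- the determinant of two plane vectors -/
def cross (z w : ℂ) : ℝ := z.re * w.im - z.im * w.re

lemma hasDerivAt_unit {d : ℝ → ℂ} {d0 e : ℂ} {n : ℝ} (hd : HasDerivAt d e 0) (h0 : d 0 = d0)
    (hn : 0 < n) (hn2 : n ^ 2 = d0.re ^ 2 + d0.im ^ 2) :
    HasDerivAt (fun t => unit (d t))
      ⟨-d0.im * cross d0 e / n ^ 3, d0.re * cross d0 e / n ^ 3⟩ 0 := by
  subst h0
  have hnorm : ‖d 0‖ = n := by
    rw [← sq_eq_sq₀ (norm_nonneg _) hn.le, hn2, Complex.sq_norm, normSq_apply]; ring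
  have h1 := hd.norm_sq
  have h2 := h1.sqrt (by rw [hnorm]; positivity)
  simp only [Real.sqrt_sq (norm_nonneg _)] at h2
  have h3 := (h2.inv (by rw [hnorm]; positivity)).smul hd
  refine h3.congr_deriv ?_
  simp only [Pi.inv_apply, hnorm, Complex.inner]
  have hn' : n ≠ 0 := hn.ne'
  apply Complex.ext
  · simp only [cross, add_re, real_smul, mul_re, ofReal_re, ofReal_im, conj_re, conj_im,
      zero_mul, sub_zero]
    field_simp
    rw [hn2]; ring
  · simp only [cross, add_im, real_smul, mul_im, mul_re, ofReal_re, ofReal_im, conj_re, conj_im,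
      zero_mul, add_zero]
    field_simp
    rw [hn2]; ring

lemma contDiffAt_unit {E : Type*} [NormedAddCommGroup E] [NormedSpace ℝ E] {f : E → ℂ} {x : E}
    (hf : ContDiffAt ℝ 1 f x) (h0 : f x ≠ 0) : ContDiffAt ℝ 1 (fun y => unit (f y)) x :=
  ((hf.norm ℝ h0).inv (norm_ne_zero_iff.2 h0)).smul hf

lemma hasDerivAt_unit' {d : ℝ → ℂ} (d0 e : ℂ) (n : ℝ) (hd : ∀ t : ℝ, d t = d0 + t • e)
    (hn : 0 < n) (hn2 : n ^ 2 = d0.re ^ 2 + d0.im ^ 2) :
    HasDerivAt (fun t => unit (d t))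
      ⟨-d0.im * cross d0 e / n ^ 3, d0.re * cross d0 e / n ^ 3⟩ 0 := by
  refine hasDerivAt_unit ?_ (by simp [hd]) hn hn2
  rw [show d = fun t : ℝ => d0 + t • e from funext hd]
  simpa using ((hasDerivAt_id (0 : ℝ)).smul_const e).const_add d0

lemma unit_eq {z : ℂ} (x y n : ℝ) (hz : z = ⟨x, y⟩) (hn : 0 < n) (hn2 : n ^ 2 = x ^ 2 + y ^ 2) :
    unit z = ⟨x / n, y / n⟩ := by
  have hnorm : ‖z‖ = n := by
    rw [← sq_eq_sq₀ (norm_nonneg _) hn.le, hn2, Complex.sq_norm, normSq_apply, hz]; ring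
  unfold unit
  rw [hnorm, hz]
  apply Complex.ext <;> simp only [smul_re, smul_im, smul_eq_mul, div_eq_inv_mul]

/-- numerical data of the symmetric configuration -/
structure Par (r a p h : ℝ) : Prop where
  r2 : r ^ 2 = 3
  r_lo : 1732 / 1000 < r
  r_hi : r < 17321 / 10000
  p_lo : 145 / 1000 < p
  p_hi : p < 146 / 1000
  h_lo : 1447 / 1000 < h
  h_hi : h < 145 / 100
  a_lo : 378 / 100 < a
  a_hi : a < 379 / 100
  h2 : h ^ 2 = 99 * p ^ 2
  e1 : a + r * h = 2 * p + 6
  e2 : r * a + h = 8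

lemma exists_par : ∃ r a p h, Par r a p h := by
  obtain ⟨r, hr, r2⟩ : ∃ r : ℝ, 0 < r ∧ r ^ 2 = 3 :=
    ⟨√3, by positivity, Real.sq_sqrt (by norm_num)⟩
  obtain ⟨q, hq, q2⟩ : ∃ q : ℝ, 0 < q ∧ q ^ 2 = 11 :=
    ⟨√11, by positivity, Real.sq_sqrt (by norm_num)⟩
  have r1 : 173205 / 100000 < r := by nlinarith
  have r3 : r < 173206 / 100000 := by nlinarith
  have q1 : 331662 / 100000 < q := by nlinarith
  have q3 : q < 331663 / 100000 := by nlinarith
  have hd : 0 < 3 * q - r := by linarith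
  obtain ⟨p, hp⟩ : ∃ p : ℝ, p * (3 * q - r) = 3 * r - 4 :=
    ⟨(3 * r - 4) / (3 * q - r), by field_simp⟩
  have p1 : 1455 / 10000 < p := by nlinarith
  have p3 : p < 1456 / 10000 := by nlinarith
  have h1 : 1447 / 1000 < 3 * q * p := by nlinarith
  have h3 : 3 * q * p < 145 / 100 := by nlinarith
  refine ⟨r, r * (8 - 3 * q * p) / 3, p, 3 * q * p, r2, by linarith, by linarith, by linarith,
    by linarith, h1, h3, by nlinarith, by nlinarith, ?_, ?_, ?_⟩
  · linear_combination 9 * p ^ 2 * q2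
  · linear_combination (2 * r / 3) * hp + (2 + 2 * p / 3) * r2
  · linear_combination (8 - 3 * q * p) / 3 * r2

/-- rotation by sixty degrees -/
noncomputable def om (r : ℝ) : ℂ := ⟨1 / 2, r / 2⟩
/-- rotation by minus sixty degrees -/
noncomputable def omb (r : ℝ) : ℂ := ⟨1 / 2, -r / 2⟩
/-- upper apex -/
noncomputable def Ep (r a : ℝ) (b : ℂ) : ℂ := omb r * b + om r * a
/-- lower apex -/
noncomputable def Em (r a : ℝ) (b : ℂ) : ℂ := omb r * a + om r * (-b)
/-- total force at a chain vertex -/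
noncomputable def frc (r a : ℝ) (b u z u' : ℂ) : ℂ :=
  unit (-u - z) + unit (-u' - z) + unit (a - z) + unit (b - z) + unit (-b - z) +
    unit (Ep r a b - z) + unit (Em r a b - z)

lemma Ep_eq {r a p h : ℝ} (P : Par r a p h) (t : ℝ) :
    Ep r a ⟨t, h⟩ = ⟨p + 3 + t / 2, 4 - r * t / 2⟩ := by
  apply Complex.ext <;> simp [Ep, om, omb]
  · linarith [P.e1]
  · linarith [P.e2]

lemma Em_eq {r a p h : ℝ} (P : Par r a p h) (t : ℝ) :
    Em r a ⟨t, h⟩ = ⟨p + 3 - t / 2, -4 - r * t / 2⟩ := by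
  apply Complex.ext <;> simp [Em, om, omb]
  · linarith [P.e1]
  · linarith [P.e2]

lemma frc_base {r a p h : ℝ} (P : Par r a p h) {X X' : ℝ} (hX : 0 < X) (hX' : 0 < X') :
    frc r a ⟨0, h⟩ X p X' = 0 := by
  have hp : 0 < p := by linarith [P.p_lo]
  have hap : 0 < a - p := by linarith [P.p_hi, P.a_lo]
  unfold frc
  rw [unit_eq (-(X + p)) 0 (X + p) (by apply Complex.ext <;> simp; ring) (by linarith) (by ring),
    unit_eq (-(X' + p)) 0 (X' + p) (by apply Complex.ext <;> simp; ring) (by linarith) (by ring),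
    unit_eq (a - p) 0 (a - p) (by apply Complex.ext <;> simp) hap (by ring),
    unit_eq (-p) h (10 * p) (by apply Complex.ext <;> simp) (by linarith)
      (by linear_combination -P.h2),
    unit_eq (-p) (-h) (10 * p) (by apply Complex.ext <;> simp) (by linarith)
      (by linear_combination -P.h2),
    unit_eq 3 4 5 (by rw [Ep_eq P]; apply Complex.ext <;> simp) (by norm_num) (by norm_num),
    unit_eq 3 (-4) 5 (by rw [Em_eq P]; apply Complex.ext <;> simp) (by norm_num) (by norm_num)]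
  have h1 : X + p ≠ 0 := by positivity
  have h2 : X' + p ≠ 0 := by positivity
  apply Complex.ext
  · simp only [add_re, zero_re]
    field_simp
    ring
  · simp only [add_im, zero_im]
    field_simp
    ring

/-- horizontal stiffness -/
noncomputable def cx (p h : ℝ) : ℝ := 2 * h ^ 2 / (10 * p) ^ 3 + 32 / 125
/-- vertical stiffness -/
noncomputable def cy (a p : ℝ) : ℝ := 1 / (a - p) + 2 * p ^ 2 / (10 * p) ^ 3 + 18 / 125
/-- first order forcing -/
noncomputable def ff (r p h : ℝ) : ℝ := 2 * p * h / (10 * p) ^ 3 - 3 * (3 * r + 4) / 125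

lemma frc_deriv {r a p h : ℝ} (P : Par r a p h) {X X' : ℝ} (hX : 0 < X) (hX' : 0 < X')
    (τ : ℝ) (eu ez eu' : ℂ) :
    HasDerivAt (fun t : ℝ => frc r a ⟨t * τ, h⟩ (X + t • eu) (p + t • ez) (X' + t • eu'))
      ⟨-cx p h * ez.re, -(eu.im + ez.im) / (X + p) - (eu'.im + ez.im) / (X' + p) -
        cy a p * ez.im + τ * ff r p h⟩ 0 := by
  have hp : 0 < p := by linarith [P.p_lo]
  have hap : 0 < a - p := by linarith [P.p_hi, P.a_lo]
  have d1 := hasDerivAt_unit' (d := fun t : ℝ => -((X : ℂ) + t • eu) - (p + t • ez))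
    ⟨-(X + p), 0⟩ (-eu - ez) (X + p) (fun t => by apply Complex.ext <;> simp <;> ring)
    (by linarith) (by ring)
  have d2 := hasDerivAt_unit' (d := fun t : ℝ => -((X' : ℂ) + t • eu') - (p + t • ez))
    ⟨-(X' + p), 0⟩ (-eu' - ez) (X' + p) (fun t => by apply Complex.ext <;> simp <;> ring)
    (by linarith) (by ring)
  have d3 := hasDerivAt_unit' (d := fun t : ℝ => (a : ℂ) - (p + t • ez))
    ⟨a - p, 0⟩ (-ez) (a - p) (fun t => by apply Complex.ext <;> simp; ring) hap (by ring)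
  have d4 := hasDerivAt_unit' (d := fun t : ℝ => (⟨t * τ, h⟩ : ℂ) - (p + t • ez))
    ⟨-p, h⟩ (τ - ez) (10 * p) (fun t => by apply Complex.ext <;> simp <;> ring) (by linarith)
    (by linear_combination -P.h2)
  have d5 := hasDerivAt_unit' (d := fun t : ℝ => -(⟨t * τ, h⟩ : ℂ) - (p + t • ez))
    ⟨-p, -h⟩ (-τ - ez) (10 * p) (fun t => by apply Complex.ext <;> simp <;> ring) (by linarith)
    (by linear_combination -P.h2)
  have d6 := hasDerivAt_unit' (d := fun t : ℝ => Ep r a ⟨t * τ, h⟩ - (p + t • ez))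
    ⟨3, 4⟩ (⟨τ / 2, -r * τ / 2⟩ - ez) 5
    (fun t => by rw [Ep_eq P]; apply Complex.ext <;> simp <;> ring) (by norm_num) (by norm_num)
  have d7 := hasDerivAt_unit' (d := fun t : ℝ => Em r a ⟨t * τ, h⟩ - (p + t • ez))
    ⟨3, -4⟩ (⟨-τ / 2, -r * τ / 2⟩ - ez) 5
    (fun t => by rw [Em_eq P]; apply Complex.ext <;> simp <;> ring) (by norm_num) (by norm_num)
  refine ((((((d1.add d2).add d3).add d4).add d5).add d6).add d7).congr_deriv ?_
  have h1 : X + p ≠ 0 := by positivity
  have h2 : X' + p ≠ 0 := by positivity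
  apply Complex.ext
  · simp [cross, cx]
    field_simp
    ring
  · simp [cross, cy, ff]
    field_simp
    ring

lemma frc_contDiff {E : Type*} [NormedAddCommGroup E] [NormedSpace ℝ E] {r a p h : ℝ}
    (P : Par r a p h) {X X' : ℝ} (hX : 0 < X) (hX' : 0 < X') {x : E} {τ : E → ℝ} {u z u' : E → ℂ}
    (hτ : ContDiffAt ℝ 1 τ x) (hu : ContDiffAt ℝ 1 u x) (hz : ContDiffAt ℝ 1 z x)
    (hu' : ContDiffAt ℝ 1 u' x) (eτ : τ x = 0) (eu : u x = X) (ez : z x = p) (eu' : u' x = X') :
    ContDiffAt ℝ 1 (fun y => frc r a ⟨τ y, h⟩ (u y) (z y) (u' y)) x := by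
  have hp : 0 < p := by linarith [P.p_lo]
  have hap : 0 < a - p := by linarith [P.p_hi, P.a_lo]
  have hb : ContDiffAt ℝ 1 (fun y => (⟨τ y, h⟩ : ℂ)) x := by
    have : (fun y => (⟨τ y, h⟩ : ℂ)) = fun y => τ y • (1 : ℂ) + h * I := by
      funext y; apply Complex.ext <;> simp
    rw [this]
    exact (hτ.smul contDiffAt_const).add contDiffAt_const
  unfold frc
  refine ((((((contDiffAt_unit (hu.neg.sub hz) ?_).add (contDiffAt_unit (hu'.neg.sub hz) ?_)).add
    (contDiffAt_unit (contDiffAt_const.sub hz) ?_)).add (contDiffAt_unit (hb.sub hz) ?_)).add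
    (contDiffAt_unit (hb.neg.sub hz) ?_)).add (contDiffAt_unit (ContDiffAt.sub ?_ hz) ?_)).add
    (contDiffAt_unit (ContDiffAt.sub ?_ hz) ?_)
  · intro hc; have := congrArg re hc; simp [eu, ez] at this; linarith
  · intro hc; have := congrArg re hc; simp [eu', ez] at this; linarith
  · intro hc; have := congrArg re hc; simp [ez] at this; linarith
  · intro hc; have := congrArg re hc; simp [eτ, ez] at this; linarith
  · intro hc; have := congrArg re hc; simp [eτ, ez] at this; linarith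
  · exact (contDiffAt_const.mul hb).add contDiffAt_const
  · intro hc; have := congrArg re hc; simp [eτ, ez, Ep_eq P] at this
  · exact contDiffAt_const.add (contDiffAt_const.mul hb.neg)
  · intro hc; have := congrArg re hc; simp [eτ, ez, Em_eq P] at this

/-- extension of a finite chain by a constant -/
def ext {N : ℕ} (c : ℂ) (x : Fin N → ℂ) (n : ℕ) : ℂ :=
  if h : 1 ≤ n ∧ n ≤ N then x ⟨n - 1, by omega⟩ else c

lemma ext_line {N : ℕ} (c : ℂ) (x w : Fin N → ℂ) (t : ℝ) (n : ℕ) :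
    ext c (x + t • w) n = ext c x n + t • ext 0 w n := by
  unfold ext; split_ifs <;> simp

lemma ext_const {N : ℕ} (a p : ℝ) (n : ℕ) :
    ext (N := N) a (fun _ => (p : ℂ)) n = ((if 1 ≤ n ∧ n ≤ N then p else a : ℝ) : ℂ) := by
  unfold ext; split_ifs <;> simp

lemma ext_contDiff {N : ℕ} (c : ℂ) (n : ℕ) (y : ℝ × (Fin N → ℂ)) :
    ContDiffAt ℝ 1 (fun y : ℝ × (Fin N → ℂ) => ext c y.2 n) y := by
  unfold ext; split_ifs
  · fun_prop
  · fun_prop

lemma max_principle {N : ℕ} (y X : ℕ → ℝ) {p c : ℝ} (hp : 0 < p) (hc : 0 < c)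
    (hX : ∀ n, 0 < X n) (h0 : ∀ n, ¬ (1 ≤ n ∧ n ≤ N) → y n = 0)
    (hrec : ∀ j < N, -(y j + y (j + 1)) / (X j + p) - (y (j + 2) + y (j + 1)) / (X (j + 2) + p) -
      c * y (j + 1) = 0) : ∀ n, y n = 0 := by
  obtain ⟨m, -, hm⟩ := Finset.exists_max_image (Finset.range (N + 2)) (fun n => |y n|)
    ⟨0, by simp⟩
  have hall : ∀ n, |y n| ≤ |y m| := by
    intro n
    by_cases hn : n < N + 2
    · exact hm n (Finset.mem_range.2 hn)
    · rw [h0 n (by omega), abs_zero]; exact abs_nonneg _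
  have hm0 : y m = 0 := by
    by_cases hm' : 1 ≤ m ∧ m ≤ N
    · obtain ⟨j, rfl⟩ : ∃ j, m = j + 1 := ⟨m - 1, by omega⟩
      have key : ∀ n, 0 ≤ y (j + 1) * (y n + y (j + 1)) := by
        intro n
        have h1 := sq_le_sq.2 (hall n)
        nlinarith [sq_nonneg (y n + y (j + 1))]
      have e := hrec j (by omega)
      have k1 := div_nonneg (key j) (add_pos (hX j) hp).le
      have k2 := div_nonneg (key (j + 2)) (add_pos (hX (j + 2)) hp).le
      have e2 : c * y (j + 1) ^ 2 = -(y (j + 1) * (y j + y (j + 1)) / (X j + p)) -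
          y (j + 1) * (y (j + 2) + y (j + 1)) / (X (j + 2) + p) := by
        linear_combination -y (j + 1) * e
      have : y (j + 1) ^ 2 ≤ 0 := by
        by_contra hc'
        push Not at hc'
        have := mul_pos hc hc'
        linarith
      exact pow_eq_zero_iff (two_ne_zero) |>.1 (le_antisymm this (sq_nonneg _))
    · exact h0 m hm'
  intro n
  have := hall n
  rw [hm0, abs_zero] at this
  exact abs_nonpos_iff.1 this

lemma cx_pos {r a p h : ℝ} (P : Par r a p h) : 0 < cx p h := by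
  have hp : 0 < p := by linarith [P.p_lo]
  unfold cx; positivity

lemma cy_pos {r a p h : ℝ} (P : Par r a p h) : 0 < cy a p := by
  have hp : 0 < p := by linarith [P.p_lo]
  have hap : 0 < a - p := by linarith [P.p_hi, P.a_lo]
  unfold cy; positivity

lemma exists_curve {r a p h : ℝ} (P : Par r a p h) (N : ℕ) (η : ℕ → ℝ)
    (H0 : η 0 * (a + p) + η 1 * (a - p) = 0) (HN : η (N + 1) * (a + p) + η N * (a - p) = 0)
    (Hrec : ∀ j < N, η j + η (j + 2) + (2 + 2 * p * cy a p) * η (j + 1) = 2 * p * ff r p h) :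
    ∃ ζ : ℝ → ℕ → ℂ, (∀ δ, ζ δ 0 = a ∧ ζ δ (N + 1) = a) ∧
      (∀ j, 1 ≤ j → j ≤ N → ζ 0 j = p ∧ HasDerivAt (fun δ => ζ δ j) ⟨0, η j⟩ 0) ∧
      ∀ᶠ δ in 𝓝 (0 : ℝ), ∀ j < N, frc r a ⟨δ, h⟩ (ζ δ j) (ζ δ (j + 1)) (ζ δ (j + 2)) = 0 := by
  have hp : 0 < p := by linarith [P.p_lo]
  have ha : 0 < a := by linarith [P.a_lo]
  set X : ℕ → ℝ := fun n => if 1 ≤ n ∧ n ≤ N then p else a with hXdef
  have hX : ∀ n, 0 < X n := fun n => by simp only [hXdef]; split_ifs <;> assumption
  have hXj : ∀ j : Fin N, X (j + 1) = p := fun j => if_pos ⟨by omega, by omega⟩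
  let F : ℝ × (Fin N → ℂ) → (Fin N → ℂ) := fun y j =>
    frc r a ⟨y.1, h⟩ (ext a y.2 j) (ext a y.2 (j + 1)) (ext a y.2 (j + 2))
  let x0 : Fin N → ℂ := fun _ => p
  let v : Fin N → ℂ := fun j => ⟨0, η (j + 1)⟩
  have hx0 : ∀ n, ext a x0 n = X n := fun n => ext_const a p n
  have hdir : ∀ (τ : ℝ) (w : Fin N → ℂ) (j : Fin N),
      HasDerivAt (fun t : ℝ => F (t * τ, x0 + t • w) j)
        ⟨-cx p h * (ext 0 w (j + 1)).re, -((ext 0 w j).im + (ext 0 w (j + 1)).im) / (X j + p) -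
          ((ext 0 w (j + 2)).im + (ext 0 w (j + 1)).im) / (X (j + 2) + p) -
          cy a p * (ext 0 w (j + 1)).im + τ * ff r p h⟩ 0 := by
    intro τ w j
    have := frc_deriv P (hX j) (hX (j + 2)) τ (ext 0 w j) (ext 0 w (j + 1)) (ext 0 w (j + 2))
    simp only [F, ext_line, hx0, hXj]
    exact this
  refine (ift F x0 v ?_ ?_ ?_ ?_).elim ?_
  rotate_right
  · rintro γ ⟨hγ0, hγ, hev⟩
    refine ⟨fun δ => ext a (γ δ), fun δ => ⟨by simp [ext], by simp [ext]⟩, ?_, ?_⟩
    · intro j h1 h2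
      refine ⟨by simp [ext, h1, h2, hγ0, x0], ?_⟩
      have := hasDerivAt_pi.1 hγ ⟨j - 1, by omega⟩
      simp only [v, Nat.sub_add_cancel h1] at this
      simpa only [ext, h1, h2, and_self, dif_pos] using this
    · filter_upwards [hev] with δ hδ j hj
      exact congrFun hδ ⟨j, hj⟩
  · refine contDiffAt_pi.2 fun j => ?_
    exact frc_contDiff P (hX j) (hX (j + 2)) contDiffAt_fst (ext_contDiff _ _ _)
      (ext_contDiff _ _ _) (ext_contDiff _ _ _) rfl (hx0 _) (by rw [hx0, hXj]) (hx0 _)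
  · funext j
    simp only [F, hx0, hXj]
    exact frc_base P (hX _) (hX _)
  · intro w hw
    have key : ∀ j : Fin N, _ := fun j => (hdir 0 w j).unique
      (by simpa only [mul_zero] using hasDerivAt_pi.1 hw j)
    have him := max_principle (N := N) (fun n => (ext 0 w n).im) X hp (cy_pos P) hX
      (fun n hn => by simp [ext, hn]) (fun j hj => by
        have := congrArg im (key ⟨j, hj⟩)
        simpa using this)
    funext j
    have e : ext 0 w (j + 1) = w j := by
      simp [ext]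
    have hre := congrArg re (key j)
    simp only [e, Pi.zero_apply, zero_re, mul_eq_zero, neg_eq_zero, (cx_pos P).ne',
      false_or] at hre
    have := him (j + 1)
    simp only [e] at this
    exact Complex.ext hre this
  · refine hasDerivAt_pi.2 fun j => ?_
    have := hdir 1 v j
    simp only [mul_one] at this
    refine this.congr_deriv ?_
    have e1 : ext 0 v (j + 1) = ⟨0, η (j + 1)⟩ := by
      simp [ext, v]
    have e2 : ((ext 0 v j).im + η (j + 1)) / (X j + p) = (η j + η (j + 1)) / (2 * p) := by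
      by_cases hj : 1 ≤ (j : ℕ)
      · have : (j : ℕ) ≤ N := by omega
        simp [ext, hXdef, hj, this, v, two_mul]
      · have : (j : ℕ) = 0 := by omega
        simp only [ext, hXdef, this]
        simp
        field_simp
        linear_combination -H0
    have e3 : ((ext 0 v (j + 2)).im + η (j + 1)) / (X (j + 2) + p) =
        (η (j + 2) + η (j + 1)) / (2 * p) := by
      by_cases hj : (j : ℕ) + 2 ≤ N
      · simp [ext, hXdef, hj, v, two_mul]
      · have : N = (j : ℕ) + 1 := by omega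
        simp only [ext, hXdef, hj]
        simp
        field_simp
        rw [this] at HN
        linear_combination -HN
    apply Complex.ext
    · simp [e1]
    · simp only [e1, neg_div, e2, e3, Pi.zero_apply, zero_im]
      field_simp
      linear_combination -Hrec j j.2

lemma ff_neg {r a p h : ℝ} (P : Par r a p h) : ff r p h < 0 := by
  have hp : 0 < p := by linarith [P.p_lo]
  have h1 : 2 * p * h / (10 * p) ^ 3 < 1 / 5 := by
    rw [div_lt_iff₀ (by positivity)]
    have h2 : 2 / 100 < p ^ 2 := by nlinarith [P.p_lo]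
    have h3 : h < 100 * p ^ 2 := by linarith [P.h_hi]
    nlinarith [mul_lt_mul_of_pos_left h3 hp]
  unfold ff
  linarith [P.r_lo]

lemma exists_eta {r a p h : ℝ} (P : Par r a p h) (M : ℕ) : ∃ η : ℕ → ℝ,
    η 0 * (a + p) + η 1 * (a - p) = 0 ∧ η (2 * M + 1) * (a + p) + η (2 * M) * (a - p) = 0 ∧
    (∀ j, η j + η (j + 2) + (2 + 2 * p * cy a p) * η (j + 1) = 2 * p * ff r p h) ∧
    ∀ j k, (-1 : ℝ) ^ j = (-1) ^ k → η j = η k → j = k := by
  have hp : 0 < p := by linarith [P.p_lo]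
  have hap : 0 < a - p := by linarith [P.p_hi, P.a_lo]
  have hc := cy_pos P
  have hf := ff_neg P
  set μ := 2 + 2 * p * cy a p with hμ
  have hμ2 : 2 < μ := by have := mul_pos hp hc; linarith
  obtain ⟨l, hl1, hl⟩ : ∃ l : ℝ, 1 < l ∧ l ^ 2 + 1 = μ * l := by
    have h0 : 0 ≤ μ ^ 2 - 4 := by nlinarith
    refine ⟨(μ + √(μ ^ 2 - 4)) / 2, by linarith [Real.sqrt_nonneg (μ ^ 2 - 4)], ?_⟩
    linear_combination (1 / 4) * Real.sq_sqrt h0
  have hl0 : 0 < l := by linarith
  obtain ⟨n, hn0, hn1, hln, hn⟩ : ∃ n : ℝ, 0 < n ∧ n < 1 ∧ l * n = 1 ∧ n ^ 2 + 1 = μ * n := by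
    refine ⟨l⁻¹, inv_pos.2 hl0, inv_lt_one_of_one_lt₀ hl1, mul_inv_cancel₀ hl0.ne', ?_⟩
    field_simp
    linear_combination hl
  set s : ℕ → ℝ := fun j => l ^ (2 * M + 1) * n ^ j - l ^ j with hs
  have hanti : StrictAnti s := by
    refine strictAnti_nat_of_succ_lt fun j => ?_
    have h1 : n ^ (j + 1) < n ^ j := pow_lt_pow_right_of_lt_one₀ hn0 hn1 (by omega)
    have h2 : l ^ j < l ^ (j + 1) := pow_lt_pow_right₀ hl1 (by omega)
    have h3 := mul_lt_mul_of_pos_left h1 (pow_pos hl0 (2 * M + 1))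
    simp only [hs]
    linarith
  have hsrec : ∀ j, s j + s (j + 2) = μ * s (j + 1) := by
    intro j
    simp only [hs]
    linear_combination (l ^ (2 * M + 1) * n ^ j) * hn - l ^ j * hl
  have s0 : s 0 = l ^ (2 * M + 1) - 1 := by simp [hs]
  have s1 : s 1 = l ^ (2 * M) - l := by
    simp only [hs]
    linear_combination l ^ (2 * M) * hln
  have hpow : l ^ (2 * M) * n ^ (2 * M) = 1 := by rw [← mul_pow, hln, one_pow]
  have sN : s (2 * M) = -s 1 := by
    rw [s1]; simp only [hs]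
    linear_combination l * hpow
  have sN1 : s (2 * M + 1) = -s 0 := by
    rw [s0]; simp only [hs]
    linear_combination l * n * hpow + hln
  have hs0 : 0 < s 0 := by
    rw [s0]; linarith [one_lt_pow₀ hl1 (by omega : 2 * M + 1 ≠ 0)]
  have hs01 : s 1 < s 0 := hanti (by omega)
  have hK : 0 < s 0 * (a + p) - s 1 * (a - p) := by nlinarith
  obtain ⟨e, he⟩ : ∃ e : ℝ, e * (2 + μ) = 2 * p * ff r p h :=
    ⟨2 * p * ff r p h / (2 + μ), by field_simp⟩
  have he0 : e ≠ 0 := by
    rintro rfl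
    have := mul_pos hp (neg_pos.2 hf)
    linarith
  obtain ⟨B, hB⟩ : ∃ B : ℝ, B * (s 0 * (a + p) - s 1 * (a - p)) = -2 * a * e :=
    ⟨-2 * a * e / (s 0 * (a + p) - s 1 * (a - p)), by field_simp⟩
  have hB0 : B ≠ 0 := by
    rintro rfl
    apply he0
    have : a * e = 0 := by linarith
    rcases mul_eq_zero.1 this with h | h
    · linarith
    · exact h
  refine ⟨fun j => e + (-1) ^ j * B * s j, ?_, ?_, ?_, ?_⟩
  · simp only [pow_zero, pow_one]
    linear_combination hB
  · simp only [sN, sN1, pow_succ, pow_mul, neg_mul, one_mul, neg_neg, mul_neg, mul_one, pow_zero,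
      one_pow]
    linear_combination hB
  · intro j
    simp only [pow_succ]
    linear_combination he + (-1) ^ j * B * hsrec j
  · intro j k hjk h
    simp only [hjk, add_right_inj] at h
    exact hanti.injective (mul_left_cancel₀ (mul_ne_zero (pow_ne_zero _ (by norm_num)) hB0) h)

end Pool.Agent.P.MP_b67b84_gt
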