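import Mathlib

namespace Pool.Agent.P.MP_b67b84_gt

open Classical in
/-- `IsGeodesicNet U B G`: the simple graph `G` on points of the Euclidean plane, with vertex set
`U ∪ B` and with every edge drawn as the straight segment between its two endpoints, is a geodesic
net with unbalanced vertices `U` and balanced vertices `B`. -/
structure IsGeodesicNet (U B : Finset (EuclideanSpace ℝ (Fin 2)))
    (G : SimpleGraph (EuclideanSpace ℝ (Fin 2))) : Prop where
  /-- the vertex set is the disjoint union of `U` and `B` -/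
  disjoint : Disjoint U B
  /-- edges join vertices -/
  adj_mem : ∀ v w, G.Adj v w → v ∈ U ∪ B ∧ w ∈ U ∪ B
  /-- the graph is connected -/
  connected : ∀ v ∈ U ∪ B, ∀ w ∈ U ∪ B, G.Reachable v w
  /-- a vertex on an edge is an endpoint of it -/
  vertex_on_edge : ∀ a b, G.Adj a b → ∀ v ∈ U ∪ B, v ∈ segment ℝ a b → v = a ∨ v = b
  /-- two distinct edges meet at most in a common endpoint -/
  edges_meet : ∀ a b c d, G.Adj a b → G.Adj c d → s(a, b) ≠ s(c, d) →
    ∀ x ∈ segment ℝ a b ∩ segment ℝ c d, (x = a ∨ x = b) ∧ (x = c ∨ x = d)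
  /-- balanced vertices have degree at least three -/
  degree : ∀ v ∈ B, 3 ≤ ((U ∪ B).filter (G.Adj v)).card
  /-- the unit vectors along the edges at a balanced vertex sum to zero -/
  balanced : ∀ v ∈ B, ∑ w ∈ (U ∪ B).filter (G.Adj v), ‖w - v‖⁻¹ • (w - v) = 0
  /-- no edge joins two unbalanced vertices -/
  no_unbalanced_edge : ∀ u ∈ U, ∀ u' ∈ U, ¬ G.Adj u u'

end Pool.Agent.P.MP_b67b84_gt
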