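import Pool.Agent.P.MP_b67b84_gt.Analysis

namespace Pool.Agent.P.MP_b67b84_gt

open Filter Topology Complex

lemma noncol {a b c d : ℂ}
    (h : cross (b - a) (c - a) ≠ 0 ∨ cross (b - a) (d - a) ≠ 0 ∨ cross (b - a) (d - c) ≠ 0) :
    (segment ℝ a b ∩ segment ℝ c d).Subsingleton := by
  rintro x ⟨hx, hx'⟩ y ⟨hy, hy'⟩
  by_contra hne
  obtain ⟨s, -, -, hs⟩ := seg_param hx
  obtain ⟨t, -, -, ht⟩ := seg_param hx'
  obtain ⟨s', -, -, hs'⟩ := seg_param hy
  obtain ⟨t', -, -, ht'⟩ := seg_param hy'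
  have htt : t - t' ≠ 0 := by
    intro h0
    apply hne
    rw [ht, ht', sub_eq_zero.1 h0]
  have e1 := congrArg re (hs.symm.trans ht)
  have e2 := congrArg im (hs.symm.trans ht)
  have e3 := congrArg re (hs'.symm.trans ht')
  have e4 := congrArg im (hs'.symm.trans ht')
  simp only [add_re, add_im, smul_re, smul_im, sub_re, sub_im, smul_eq_mul] at e1 e2 e3 e4
  have k3 : cross (b - a) (d - c) = 0 := by
    apply mul_left_cancel₀ htt
    simp only [cross, sub_re, sub_im]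
    linear_combination (b.im - a.im) * (e1 - e3) - (b.re - a.re) * (e2 - e4)
  have k1 : cross (b - a) (c - a) = 0 := by
    simp only [cross, sub_re, sub_im] at k3 ⊢
    linear_combination (b.im - a.im) * e1 - (b.re - a.re) * e2 - t * k3
  have k2 : cross (b - a) (d - a) = 0 := by
    simp only [cross, sub_re, sub_im] at k1 k3 ⊢
    linear_combination k1 + k3
  rcases h with h | h | h
  · exact h k1
  · exact h k2
  · exact h k3

lemma sep_disj {a b c d : ℂ} (s : ℝ) (ha : 0 < s * a.re) (hb : 0 < s * b.re) (hc : s * c.re < 0)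
    (hd : s * d.re < 0) : (segment ℝ a b ∩ segment ℝ c d).Subsingleton := by
  rintro x ⟨hx, hx'⟩
  exfalso
  obtain ⟨u, u', h0, h0', h1, hs⟩ := hx
  obtain ⟨t, t', h2, h2', h3, ht⟩ := hx'
  have e1 := congrArg re (hs.trans ht.symm)
  simp only [add_re, smul_re, smul_eq_mul] at e1
  have e2 : u * (s * a.re) + u' * (s * b.re) = t * (s * c.re) + t' * (s * d.re) := by
    linear_combination s * e1
  have k1 : 0 < u * (s * a.re) + u' * (s * b.re) := by
    rcases h0.lt_or_eq with h | h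
    · nlinarith [mul_pos h ha, mul_nonneg h0' hb.le]
    · subst h
      have : u' = 1 := by linarith
      subst this; linarith
  nlinarith [mul_nonneg h2 (neg_pos.2 hc).le, mul_nonneg h2' (neg_pos.2 hd).le]

lemma sep_share {v x y : ℂ} (s : ℝ) (hx : s * v.re < s * x.re) (hy : s * y.re < s * v.re) :
    (segment ℝ v x ∩ segment ℝ v y).Subsingleton := by
  refine Set.subsingleton_singleton (a := v) |>.anti ?_
  rintro z ⟨hz, hz'⟩
  obtain ⟨u, h0, -, hs⟩ := seg_param hz
  obtain ⟨t, h1, -, ht⟩ := seg_param hz'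
  have e1 := congrArg re (hs.symm.trans ht)
  simp only [add_re, smul_re, sub_re, smul_eq_mul] at e1
  have e2 : u * (s * x.re - s * v.re) = t * (s * y.re - s * v.re) := by
    linear_combination s * e1
  have : u = 0 := by
    by_contra hu
    have hu' : 0 < u := lt_of_le_of_ne h0 (Ne.symm hu)
    nlinarith [mul_pos hu' (sub_pos.2 hx), mul_nonneg h1 (sub_pos.2 hy).le]
  rw [hs, this]; simp

lemma hasDerivAt_cross {u v : ℝ → ℂ} {u' v' : ℂ} (hu : HasDerivAt u u' 0)
    (hv : HasDerivAt v v' 0) :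
    HasDerivAt (fun t => cross (u t) (v t)) (cross u' (v 0) + cross (u 0) v') 0 := by
  have r1 := reCLM.hasFDerivAt.comp_hasDerivAt (0 : ℝ) hu
  have r2 := imCLM.hasFDerivAt.comp_hasDerivAt (0 : ℝ) hu
  have r3 := reCLM.hasFDerivAt.comp_hasDerivAt (0 : ℝ) hv
  have r4 := imCLM.hasFDerivAt.comp_hasDerivAt (0 : ℝ) hv
  refine ((r1.mul r4).sub (r2.mul r3)).congr_deriv ?_
  simp only [cross, Function.comp, reCLM_apply, imCLM_apply]
  ring

lemma ev_cross {u v : ℝ → ℂ} {u' v' : ℂ} (hu : HasDerivAt u u' 0) (hv : HasDerivAt v v' 0)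
    (h : cross (u 0) (v 0) ≠ 0 ∨ cross u' (v 0) + cross (u 0) v' ≠ 0) :
    ∀ᶠ t in 𝓝[≠] (0 : ℝ), cross (u t) (v t) ≠ 0 := by
  have hd := hasDerivAt_cross hu hv
  rcases h with h | h
  · exact nhdsWithin_le_nhds (hd.continuousAt.eventually_ne h)
  · exact hd.eventually_ne h

lemma ev_axis {P1 P2 P3 P4 : ℝ → ℂ} {e1 e2 e3 e4 : ℂ} {x1 x2 x3 x4 m c m' c' : ℝ}
    (h1 : HasDerivAt P1 e1 0) (h2 : HasDerivAt P2 e2 0) (h3 : HasDerivAt P3 e3 0)
    (h4 : HasDerivAt P4 e4 0) (v1 : P1 0 = x1) (v2 : P2 0 = x2) (v3 : P3 0 = x3) (v4 : P4 0 = x4)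
    (l1 : e1.im = m * x1 + c) (l2 : e2.im = m * x2 + c) (l3 : e3.im = m' * x3 + c')
    (l4 : e4.im = m' * x4 + c') (n12 : x1 ≠ x2) (n34 : x3 ≠ x4) (hne : ¬ (m = m' ∧ c = c')) :
    ∀ᶠ t in 𝓝[≠] (0 : ℝ),
      (segment ℝ (P1 t) (P2 t) ∩ segment ℝ (P3 t) (P4 t)).Subsingleton := by
  have n12' : x2 - x1 ≠ 0 := sub_ne_zero.2 n12.symm
  have n34' : x3 - x4 ≠ 0 := sub_ne_zero.2 n34
  by_cases k3 : (m' - m) * x3 + (c' - c) = 0
  · have k4 : (m' - m) * x4 + (c' - c) ≠ 0 := by
      intro k4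
      have : m' - m = 0 := by
        apply mul_left_cancel₀ n34'
        linear_combination k3 - k4
      apply hne
      constructor
      · linarith
      · rw [this] at k3; linarith
    have := ev_cross (h2.sub h1) (h4.sub h1) (Or.inr (by
      intro hc
      apply mul_ne_zero n12' k4
      simp only [cross, Pi.sub_apply, v1, v2, v4, sub_re, sub_im, ofReal_re, ofReal_im, l1, l2,
        l4] at hc
      linear_combination hc))
    filter_upwards [this] with t ht
    exact noncol (Or.inr (Or.inl ht))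
  · have := ev_cross (h2.sub h1) (h3.sub h1) (Or.inr (by
      intro hc
      apply mul_ne_zero n12' k3
      simp only [cross, Pi.sub_apply, v1, v2, v3, sub_re, sub_im, ofReal_re, ofReal_im, l1, l2,
        l3] at hc
      linear_combination hc))
    filter_upwards [this] with t ht
    exact noncol (Or.inl ht)

lemma leaf {r : ℝ} (hr : r ^ 2 = 3) (A A' v : ℂ) (hd : omb r * A + om r * A' - v ≠ 0)
    (h1 : 0 < r * ((A - A') / (omb r * A + om r * A' - v)).im +
      3 * ((A - A') / (omb r * A + om r * A' - v)).re)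
    (h2 : 0 < r * ((A - A') / (omb r * A + om r * A' - v)).im -
      3 * ((A - A') / (omb r * A + om r * A' - v)).re)
    (h3 : 2 * r * ((A - A') / (omb r * A + om r * A' - v)).im < 3) :
    ∃ w : ℂ, (∃ t : ℝ, 0 < t ∧ w - v = t • (1 * (omb r * A + om r * A' - v))) ∧
      (∃ t : ℝ, 0 < t ∧ w - A = t • (-om r * (omb r * A + om r * A' - v))) ∧
      (∃ t : ℝ, 0 < t ∧ w - A' = t • (-omb r * (omb r * A + om r * A' - v))) := by
  set d := omb r * A + om r * A' - v with hdef
  set q := (A - A') / d with hq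
  have hqd : A - A' = q * d := by rw [hq]; field_simp
  set t1 := (r * q.im + 3 * q.re) / 3 with ht1
  set t2 := (r * q.im - 3 * q.re) / 3 with ht2
  have o1 : om r + omb r = 1 := by apply Complex.ext <;> simp [om, omb] <;> ring
  have o2 : om r * omb r = 1 := by
    apply Complex.ext <;> simp [om, omb]
    · linear_combination (1 / 4) * hr
    · ring
  have o3 : q = t1 * om r - t2 * omb r := by
    apply Complex.ext <;> simp [om, omb, ht1, ht2]
    · ring
    · linear_combination (-q.im / 3) * hr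
  refine ⟨A - t1 * om r * d, ⟨1 - t1 - t2, by rw [ht1, ht2]; linarith, ?_⟩,
    ⟨t1, by rw [ht1]; linarith, ?_⟩, ⟨t2, by rw [ht2]; linarith, ?_⟩⟩
  · rw [real_smul]
    push_cast
    have hv : v = omb r * A + om r * A' - d := by rw [hdef]; ring
    rw [o3] at hqd
    linear_combination -hv + om r * hqd - (A - t1 * om r * d) * o1 - (t1 + t2) * d * o2
  · rw [real_smul]; ring
  · rw [real_smul]
    rw [o3] at hqd
    linear_combination hqd

/-- rotation factors of the eight oblique edges -/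
noncomputable def MM (r : ℝ) : Fin 8 → ℂ := ![1, 1, 1, 1, -omb r, -om r, -om r, -omb r]
/-- centres of the eight oblique edges -/
noncomputable def CC (r a : ℝ) (b : ℂ) : Fin 8 → ℂ :=
  ![b, -b, Ep r a b, Em r a b, Ep r a b, Ep r a b, Em r a b, Em r a b]
/-- sources of the eight oblique edges -/
def AA (a : ℝ) (b z : ℂ) : Fin 8 → ℂ := ![z, z, z, z, a, b, a, -b]
/-- targets of the eight oblique edges -/
def BB (b wp wm : ℂ) : Fin 8 → ℂ := ![b, -b, wp, wm, wp, wp, wm, wm]
/-- directions of the eight oblique edges -/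
noncomputable def DD (r a : ℝ) (b z : ℂ) (k : Fin 8) : ℂ := MM r k * (CC r a b k - z)

lemma DD_base {r a p h : ℝ} (P : Par r a p h) : DD r a ⟨0, h⟩ p =
    ![⟨-p, h⟩, ⟨-p, -h⟩, ⟨3, 4⟩, ⟨3, -4⟩, ⟨-3 / 2 - 2 * r, -2 + 3 * r / 2⟩,
      ⟨-3 / 2 + 2 * r, -2 - 3 * r / 2⟩, ⟨-3 / 2 - 2 * r, 2 - 3 * r / 2⟩,
      ⟨-3 / 2 + 2 * r, 2 + 3 * r / 2⟩] := by
  funext k
  fin_cases k <;> apply Complex.ext <;> simp [DD, MM, CC, Ep_eq P, Em_eq P, om, omb] <;> ring

lemma base_cross {r a p h : ℝ} (P : Par r a p h) (k k' : Fin 8) (hk : k ≠ k') :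
    cross (DD r a ⟨0, h⟩ p k) (DD r a ⟨0, h⟩ p k') ≠ 0 := by
  have b1 : 1 / 4 < p * r := by nlinarith [P.p_lo, P.r_lo]
  have b2 : p * r < 253 / 1000 := by nlinarith [P.p_hi, P.r_hi, P.p_lo, P.r_lo]
  have b3 : 5 / 2 < h * r := by nlinarith [P.h_lo, P.r_lo]
  have b4 : h * r < 252 / 100 := by nlinarith [P.h_hi, P.r_hi, P.h_lo, P.r_lo]
  have b5 : 1 / 5 < p * h := by nlinarith [P.h_lo, P.p_lo]
  have := P.r2
  have := P.r_lo
  have := P.r_hi
  have := P.p_lo
  have := P.p_hi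
  have := P.h_lo
  have := P.h_hi
  rw [DD_base P]
  intro hc
  fin_cases k <;> fin_cases k' <;> first | exact hk rfl | (simp only [cross] at hc; simp at hc; linarith)

lemma base_anchor {r a p h : ℝ} (P : Par r a p h) (k : Fin 8) :
    cross (DD r a ⟨0, h⟩ p k) (AA a ⟨0, h⟩ p k) ≠ 0 := by
  have b3 : 5 / 2 < h * r := by nlinarith [P.h_lo, P.r_lo]
  have b4 : h * r < 252 / 100 := by nlinarith [P.h_hi, P.r_hi, P.h_lo, P.r_lo]
  have b5 : 1 / 5 < p * h := by nlinarith [P.h_lo, P.p_lo]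
  have := P.e2
  have := P.a_lo
  have := P.a_hi
  have := P.p_lo
  have := P.h_lo
  have := P.h_hi
  rw [DD_base P]
  intro hc
  fin_cases k <;> simp only [cross, AA] at hc <;> simp [-mul_eq_zero] at hc <;> linarith

lemma base_im {r a p h : ℝ} (P : Par r a p h) (k : Fin 8) : (DD r a ⟨0, h⟩ p k).im ≠ 0 := by
  have := P.r_lo
  have := P.r_hi
  have := P.h_lo
  rw [DD_base P]
  intro hc
  fin_cases k <;> simp at hc <;> linarith

lemma base_re {r a p h : ℝ} (P : Par r a p h) (k : Fin 8) : (CC r a ⟨0, h⟩ k - p).re ≠ 0 := by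
  have := P.p_lo
  intro hc
  fin_cases k <;> simp [CC, Ep_eq P, Em_eq P] at hc <;> linarith

lemma cross_MM {r : ℝ} (hr : r ^ 2 = 3) (k : Fin 8) (z w : ℂ) :
    cross (MM r k * z) (MM r k * w) = cross z w := by
  fin_cases k <;> simp [MM, cross, om, omb] <;>
    linear_combination (1 / 4) * (z.re * w.im - z.im * w.re) * hr

end Pool.Agent.P.MP_b67b84_gt
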