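import Pool.Agent.P.MP_b67b84_gt.Geo

namespace Pool.Agent.P.MP_b67b84_gt

open Filter Topology Complex

/-- alternating sign -/
def sg (n : ℕ) : ℝ := (-1) ^ n

lemma sg_succ (n : ℕ) : sg (n + 1) = -sg n := by simp [sg, pow_succ]

lemma sg_cases (n : ℕ) : sg n = 1 ∨ sg n = -1 := neg_one_pow_eq_or ℝ n

lemma sg_ne (n : ℕ) : sg n ≠ 0 := pow_ne_zero _ (by norm_num)

lemma sg_or (n m : ℕ) : sg n = sg m ∨ sg n = -sg m := by
  rcases sg_cases n with h | h <;> rcases sg_cases m with h' | h' <;> simp [h, h']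

/-- the segment number `i` of the zigzag -/
def pth (ζ : ℕ → ℂ) (i : ℕ) : Set ℂ := segment ℝ (sg i • ζ i) (sg (i + 1) • ζ (i + 1))
/-- the segment from the chain vertex `j` to its terminal on the axis -/
def axs (a : ℝ) (ζ : ℕ → ℂ) (j : ℕ) : Set ℂ := segment ℝ (sg j • ζ j) (sg j • (a : ℂ))

/-- the properties of a perturbed chain used to build the net -/
structure Good (r a : ℝ) (b : ℂ) (N : ℕ) (ζ : ℕ → ℂ) : Prop where
  r2 : r ^ 2 = 3
  z0 : ζ 0 = a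
  zN : ζ (N + 1) = a
  bal : ∀ j < N, frc r a b (ζ j) (ζ (j + 1)) (ζ (j + 2)) = 0
  lf : ∀ j < N, ∃ wp wm : ℂ, ∀ k, ∃ t : ℝ, 0 < t ∧
    BB b wp wm k - AA a b (ζ (j + 1)) k = t • DD r a b (ζ (j + 1)) k
  s3 : ∀ j < N, ∀ j' < N, ∀ k k', (j ≠ j' ∨ k ≠ k') →
    cross (DD r a b (ζ (j + 1)) k) (DD r a b (ζ (j' + 1)) k') ≠ 0 ∨
    cross (DD r a b (ζ (j + 1)) k)
      (sg (j' + 1) • AA a b (ζ (j' + 1)) k' - sg (j + 1) • AA a b (ζ (j + 1)) k) ≠ 0
  s4a : ∀ j < N, ∀ k, ∀ i ≤ N, cross (DD r a b (ζ (j + 1)) k) (ζ i + ζ (i + 1)) ≠ 0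
  s4b : ∀ j < N, ∀ k, ∀ i < N, cross (DD r a b (ζ (j + 1)) k) (a - ζ (i + 1)) ≠ 0
  s5a : ∀ i ≤ N, ∀ i' ≤ N, i ≠ i' → (pth ζ i ∩ pth ζ i').Subsingleton
  s5b : ∀ i ≤ N, ∀ j < N, j + 1 ≠ i → j ≠ i → (pth ζ i ∩ axs a ζ (j + 1)).Subsingleton
  s5c : ∀ j < N, ∀ j' < N, j ≠ j' → sg (j + 1) = sg (j' + 1) →
    (axs a ζ (j + 1) ∩ axs a ζ (j' + 1)).Subsingleton
  bx : ∀ j < N, 0 < (ζ (j + 1)).re ∧ (ζ (j + 1)).re < a ∧ -b.im < (ζ (j + 1)).im ∧
    (ζ (j + 1)).im < b.im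
  bb : -a < b.re ∧ b.re < a ∧ 0 < b.im
  sgn : ∀ j < N, 0 < (DD r a b (ζ (j + 1)) 2).re ∧ 0 < (DD r a b (ζ (j + 1)) 2).im ∧
    0 < (DD r a b (ζ (j + 1)) 3).re ∧ (DD r a b (ζ (j + 1)) 3).im < 0 ∧
    (DD r a b (ζ (j + 1)) 4).re < 0 ∧ (DD r a b (ζ (j + 1)) 5).im < 0 ∧
    (DD r a b (ζ (j + 1)) 6).re < 0 ∧ 0 < (DD r a b (ζ (j + 1)) 7).im

lemma ev_le {α : Type*} {l : Filter α} {N : ℕ} {p : α → ℕ → Prop}
    (h : ∀ j ≤ N, ∀ᶠ x in l, p x j) : ∀ᶠ x in l, ∀ j ≤ N, p x j :=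
  (eventually_all_finite (Set.finite_Iic N)).2 h

lemma ev_lt {α : Type*} {l : Filter α} {N : ℕ} {p : α → ℕ → Prop}
    (h : ∀ j < N, ∀ᶠ x in l, p x j) : ∀ᶠ x in l, ∀ j < N, p x j :=
  (eventually_all_finite (Set.finite_Iio N)).2 h

lemma ev_imp {α : Type*} {l : Filter α} {q : Prop} {p : α → Prop}
    (h : q → ∀ᶠ x in l, p x) : ∀ᶠ x in l, q → p x := by
  by_cases hq : q
  · exact (h hq).mono fun _ hx _ => hx
  · exact Eventually.of_forall fun _ h' => absurd h' hq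

lemma ev_pos {f : ℝ → ℝ} (hf : ContinuousAt f 0) (h : 0 < f 0) :
    ∀ᶠ t in 𝓝[≠] (0 : ℝ), 0 < f t :=
  nhdsWithin_le_nhds (continuousAt_const.eventually_lt hf h)

lemma ev_lt' {f g : ℝ → ℝ} (hf : ContinuousAt f 0) (hg : ContinuousAt g 0) (h : f 0 < g 0) :
    ∀ᶠ t in 𝓝[≠] (0 : ℝ), f t < g t :=
  nhdsWithin_le_nhds (hf.eventually_lt hg h)

lemma hasDerivAt_b (h : ℝ) : HasDerivAt (fun t : ℝ => (⟨t, h⟩ : ℂ)) 1 0 := by
  have : (fun t : ℝ => (⟨t, h⟩ : ℂ)) = fun t : ℝ => t • (1 : ℂ) + h * I := by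
    funext y; apply Complex.ext <;> simp
  rw [this]
  simpa using ((hasDerivAt_id (0 : ℝ)).smul_const (1 : ℂ)).add_const (h * I)

lemma hasDerivAt_CC (r a h : ℝ) (k : Fin 8) :
    ∃ c', HasDerivAt (fun t : ℝ => CC r a ⟨t, h⟩ k) c' 0 := by
  have hb := hasDerivAt_b h
  have h1 : HasDerivAt (fun t : ℝ => Ep r a ⟨t, h⟩) _ 0 := (hb.const_mul (omb r)).add_const _
  have h2 : HasDerivAt (fun t : ℝ => Em r a ⟨t, h⟩) _ 0 := (hb.neg.const_mul (om r)).const_add _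
  fin_cases k
  exacts [⟨_, hb⟩, ⟨_, hb.neg⟩, ⟨_, h1⟩, ⟨_, h2⟩, ⟨_, h1⟩, ⟨_, h1⟩, ⟨_, h2⟩, ⟨_, h2⟩]

lemma hasDerivAt_DD (r a h : ℝ) (k : Fin 8) {z : ℝ → ℂ} {z' : ℂ} (hz : HasDerivAt z z' 0) :
    ∃ c', HasDerivAt (fun t : ℝ => DD r a ⟨t, h⟩ (z t) k) c' 0 := by
  obtain ⟨c', hc⟩ := hasDerivAt_CC r a h k
  exact ⟨_, (hc.sub hz).const_mul _⟩

lemma hasDerivAt_AA (a h : ℝ) (k : Fin 8) {z : ℝ → ℂ} {z' : ℂ} (hz : HasDerivAt z z' 0) :
    ∃ c', HasDerivAt (fun t : ℝ => AA a ⟨t, h⟩ (z t) k) c' 0 := by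
  have hb := hasDerivAt_b h
  have h1 : HasDerivAt (fun t : ℝ => (a : ℂ)) 0 0 := hasDerivAt_const _ _
  fin_cases k
  exacts [⟨_, hz⟩, ⟨_, hz⟩, ⟨_, hz⟩, ⟨_, hz⟩, ⟨_, h1⟩, ⟨_, hb⟩, ⟨_, h1⟩, ⟨_, hb.neg⟩]

lemma ev_leaf {r a p h : ℝ} (P : Par r a p h) {z : ℝ → ℂ} (hz : ContinuousAt z 0)
    (z0 : z 0 = p) : ∀ᶠ t in 𝓝[≠] (0 : ℝ), ∃ wp wm : ℂ, ∀ k, ∃ s : ℝ, 0 < s ∧
      BB ⟨t, h⟩ wp wm k - AA a ⟨t, h⟩ (z t) k = s • DD r a ⟨t, h⟩ (z t) k := by
  have hb := (hasDerivAt_b h).continuousAt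
  have b3 : 5 / 2 < h * r := by nlinarith [P.h_lo, P.r_lo]
  have b4 : h * r < 252 / 100 := by nlinarith [P.h_hi, P.r_hi, P.h_lo, P.r_lo]
  have := P.e2
  have := P.a_lo
  have := P.a_hi
  have := P.h_lo
  have := P.h_hi
  have d1 : Ep r a ⟨0, h⟩ - z 0 = ⟨3, 4⟩ := by
    rw [Ep_eq P, z0]; apply Complex.ext <;> simp
  have d2 : Em r a ⟨0, h⟩ - z 0 = ⟨3, -4⟩ := by
    rw [Em_eq P, z0]; apply Complex.ext <;> simp
  have n1 : Ep r a ⟨0, h⟩ - z 0 ≠ 0 := by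
    rw [d1]; intro hc; simpa using congrArg re hc
  have n2 : Em r a ⟨0, h⟩ - z 0 ≠ 0 := by
    rw [d2]; intro hc; simpa using congrArg re hc
  have c1 : ContinuousAt (fun t : ℝ => Ep r a ⟨t, h⟩ - z t) 0 :=
    ((continuousAt_const.mul hb).add continuousAt_const).sub hz
  have c2 : ContinuousAt (fun t : ℝ => Em r a ⟨t, h⟩ - z t) 0 :=
    (continuousAt_const.add (continuousAt_const.mul hb.neg)).sub hz
  have q1 : ContinuousAt (fun t : ℝ => ((⟨t, h⟩ : ℂ) - a) / (Ep r a ⟨t, h⟩ - z t)) 0 :=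
    (hb.sub continuousAt_const).div c1 n1
  have q2 : ContinuousAt (fun t : ℝ => ((a : ℂ) - -⟨t, h⟩) / (Em r a ⟨t, h⟩ - z t)) 0 :=
    (continuousAt_const.sub hb.neg).div c2 n2
  have v1 : ((⟨0, h⟩ : ℂ) - a) / (Ep r a ⟨0, h⟩ - z 0) =
      ⟨(-3 * a + 4 * h) / 25, (3 * h + 4 * a) / 25⟩ := by
    rw [div_eq_iff n1, d1]; apply Complex.ext <;> simp <;> ring
  have v2 : ((a : ℂ) - -⟨0, h⟩) / (Em r a ⟨0, h⟩ - z 0) =
      ⟨(3 * a - 4 * h) / 25, (3 * h + 4 * a) / 25⟩ := by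
    rw [div_eq_iff n2, d2]; apply Complex.ext <;> simp <;> ring
  have r1 := continuous_re.continuousAt.comp q1
  have i1 := continuous_im.continuousAt.comp q1
  have r2 := continuous_re.continuousAt.comp q2
  have i2 := continuous_im.continuousAt.comp q2
  filter_upwards [nhdsWithin_le_nhds (c1.eventually_ne n1), nhdsWithin_le_nhds (c2.eventually_ne n2),
    ev_pos ((i1.const_mul r).add (r1.const_mul 3))
      (by simp only [Function.comp, Pi.add_apply, v1]; linarith),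
    ev_pos ((i1.const_mul r).sub (r1.const_mul 3))
      (by simp only [Function.comp, Pi.sub_apply, v1]; linarith),
    ev_lt' (i1.const_mul (2 * r)) (continuousAt_const (y := 3))
      (by simp only [Function.comp, v1]; linarith),
    ev_pos ((i2.const_mul r).add (r2.const_mul 3))
      (by simp only [Function.comp, Pi.add_apply, v2]; linarith),
    ev_pos ((i2.const_mul r).sub (r2.const_mul 3))
      (by simp only [Function.comp, Pi.sub_apply, v2]; linarith),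
    ev_lt' (i2.const_mul (2 * r)) (continuousAt_const (y := 3))
      (by simp only [Function.comp, v2]; linarith)] with t m1 m2 a1 a2 a3 a4 a5 a6
  obtain ⟨wp, p1, p2, p3⟩ := leaf P.r2 ⟨t, h⟩ a (z t) m1 a1 a2 a3
  obtain ⟨wm, p4, p5, p6⟩ := leaf P.r2 a (-(⟨t, h⟩ : ℂ)) (z t) m2 a4 a5 a6
  refine ⟨wp, wm, fun k => ?_⟩
  fin_cases k
  · exact ⟨1, one_pos, by simp [AA, BB, DD, MM, CC]⟩
  · exact ⟨1, one_pos, by simp [AA, BB, DD, MM, CC]⟩
  exacts [p1, p4, p3, p2, p5, p6]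

lemma cross_real (z : ℂ) (x : ℝ) : cross z x = -(z.im * x) := by simp [cross]

lemma exists_good (M : ℕ) : ∃ r a b ζ, Good r a b (2 * M) ζ := by
  obtain ⟨r, a, p, h, P⟩ := exists_par
  obtain ⟨η, H0, HN, Hrec, Hd⟩ := exists_eta P M
  set N := 2 * M with hN
  obtain ⟨ζ, hend, hder, hbal⟩ := exists_curve P N η H0 HN (fun j _ => Hrec j)
  have hp : 0 < p := by linarith [P.p_lo]
  have hap : 0 < a - p := by linarith [P.p_hi, P.a_lo]
  have ha : 0 < a := by linarith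
  have hh : 0 < h := by linarith [P.h_lo]
  have z0 : ∀ j < N, ζ 0 (j + 1) = p := fun j hj => (hder (j + 1) (by omega) (by omega)).1
  have zd : ∀ j < N, HasDerivAt (fun δ => ζ δ (j + 1)) ⟨0, η (j + 1)⟩ 0 :=
    fun j hj => (hder (j + 1) (by omega) (by omega)).2
  have hall : ∀ n ≤ N + 1, ∃ x y : ℝ, 0 < x ∧ ζ 0 n = x ∧
      HasDerivAt (fun δ => ζ δ n) ⟨0, y⟩ 0 ∧
      (n ≤ N → y = (η n + η (n + 1)) / (2 * p) * x + (η n - η (n + 1)) / 2) ∧
      (∀ i, n = i + 1 → y = (η i + η (i + 1)) / (2 * p) * x - (η i - η (i + 1)) / 2) := by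
    intro n hn
    by_cases h0 : n = 0
    · subst h0
      refine ⟨a, 0, ha, (hend 0).1, ?_, fun _ => ?_, fun i hi => by omega⟩
      · simp only [fun δ => (hend δ).1]
        exact hasDerivAt_const _ _
      · field_simp
        linear_combination -H0
    by_cases h1 : n = N + 1
    · subst h1
      refine ⟨a, 0, ha, (hend 0).2, ?_, fun hi => by omega, fun i hi => ?_⟩
      · simp only [fun δ => (hend δ).2]
        exact hasDerivAt_const _ _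
      · obtain rfl : N = i := by omega
        field_simp
        linear_combination -HN
    · obtain ⟨e1, e2⟩ := hder n (by omega) (by omega)
      refine ⟨p, η n, hp, e1, e2, fun _ => ?_, fun i hi => ?_⟩
      · field_simp; ring
      · subst hi; field_simp; ring
  choose! X Y hX hX0 hY hY1 hY2 using hall
  have hpth : ∀ i ≤ N, ∃ e1 e2 : ℂ, ∃ x1 x2 : ℝ,
      HasDerivAt (fun δ => sg i • ζ δ i) e1 0 ∧
      HasDerivAt (fun δ => sg (i + 1) • ζ δ (i + 1)) e2 0 ∧ sg i • ζ 0 i = x1 ∧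
      sg (i + 1) • ζ 0 (i + 1) = x2 ∧
      e1.im = (η i + η (i + 1)) / (2 * p) * x1 + sg i * (η i - η (i + 1)) / 2 ∧
      e2.im = (η i + η (i + 1)) / (2 * p) * x2 + sg i * (η i - η (i + 1)) / 2 ∧ x1 ≠ x2 := by
    intro i hi
    refine ⟨_, _, sg i * X i, sg (i + 1) * X (i + 1), (hY i (by omega)).const_smul (sg i),
      (hY (i + 1) (by omega)).const_smul (sg (i + 1)), by simp [hX0 i (by omega)],
      by simp [hX0 (i + 1) (by omega)], ?_, ?_, ?_⟩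
    · simp only [smul_im, smul_eq_mul]
      linear_combination sg i * hY1 i (by omega) hi
    · simp only [smul_im, smul_eq_mul, sg_succ]
      linear_combination -sg i * hY2 (i + 1) (by omega) i rfl
    · have k1 := hX i (by omega)
      have k2 := hX (i + 1) (by omega)
      rw [sg_succ]
      rcases sg_cases i with h | h <;> rw [h] <;> linarith
  have haxs : ∀ j < N, ∃ e1 e2 : ℂ, ∃ x1 x2 : ℝ,
      HasDerivAt (fun δ => sg (j + 1) • ζ δ (j + 1)) e1 0 ∧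
      HasDerivAt (fun _ : ℝ => sg (j + 1) • (a : ℂ)) e2 0 ∧ sg (j + 1) • ζ 0 (j + 1) = x1 ∧
      sg (j + 1) • (a : ℂ) = x2 ∧
      e1.im = -η (j + 1) / (a - p) * x1 + sg (j + 1) * a * η (j + 1) / (a - p) ∧
      e2.im = -η (j + 1) / (a - p) * x2 + sg (j + 1) * a * η (j + 1) / (a - p) ∧ x1 ≠ x2 := by
    intro j hj
    refine ⟨_, _, sg (j + 1) * p, sg (j + 1) * a, (zd j hj).const_smul (sg (j + 1)),
      hasDerivAt_const _ _,
      by simp [z0 j hj], by simp, ?_, ?_, ?_⟩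
    · simp only [smul_im, smul_eq_mul]
      field_simp
      ring
    · simp only [zero_im]
      field_simp
      ring
    · intro hc
      have := mul_left_cancel₀ (sg_ne _) hc
      linarith
  have E1 : ∀ᶠ δ in 𝓝[≠] (0 : ℝ), ∀ j < N, ∃ wp wm : ℂ, ∀ k, ∃ t : ℝ, 0 < t ∧
      BB ⟨δ, h⟩ wp wm k - AA a ⟨δ, h⟩ (ζ δ (j + 1)) k = t • DD r a ⟨δ, h⟩ (ζ δ (j + 1)) k :=
    ev_lt fun j hj => ev_leaf P (zd j hj).continuousAt (z0 j hj)
  have E3 : ∀ᶠ δ in 𝓝[≠] (0 : ℝ), ∀ j < N, ∀ j' < N, ∀ k k', (j ≠ j' ∨ k ≠ k') →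
      cross (DD r a ⟨δ, h⟩ (ζ δ (j + 1)) k) (DD r a ⟨δ, h⟩ (ζ δ (j' + 1)) k') ≠ 0 ∨
      cross (DD r a ⟨δ, h⟩ (ζ δ (j + 1)) k) (sg (j' + 1) • AA a ⟨δ, h⟩ (ζ δ (j' + 1)) k' -
        sg (j + 1) • AA a ⟨δ, h⟩ (ζ δ (j + 1)) k) ≠ 0 := by
    refine ev_lt fun j hj => ev_lt fun j' hj' => eventually_all.2 fun k =>
      eventually_all.2 fun k' => ev_imp fun hne => ?_
    obtain ⟨d, hd⟩ := hasDerivAt_DD r a h k (zd j hj)
    obtain ⟨d', hd'⟩ := hasDerivAt_DD r a h k' (zd j' hj')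
    by_cases hk : k = k'
    · subst hk
      have hjj : j ≠ j' := by tauto
      rcases sg_or (j' + 1) (j + 1) with hs | hs
      · obtain ⟨c', hc⟩ := hasDerivAt_CC r a h k
        have := ev_cross (hc.sub (zd j hj)) (hc.sub (zd j' hj')) (Or.inr (by
          intro hc
          have hη : η (j + 1) - η (j' + 1) ≠ 0 := by
            intro he
            have := Hd (j + 1) (j' + 1) hs.symm (sub_eq_zero.1 he)
            omega
          apply mul_ne_zero (base_re P k) hη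
          simp only [cross, Pi.sub_apply, z0 j hj, z0 j' hj', sub_re, sub_im] at hc ⊢
          linear_combination hc))
        filter_upwards [this] with δ hδ
        left
        rw [DD, DD, cross_MM P.r2]
        exact hδ
      · obtain ⟨c, hc⟩ := hasDerivAt_AA a h k (zd j hj)
        obtain ⟨c', hc'⟩ := hasDerivAt_AA a h k (zd j' hj')
        have := ev_cross hd ((hc'.const_smul (sg (j' + 1))).sub (hc.const_smul (sg (j + 1))))
          (Or.inl (by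
            intro hc
            apply mul_ne_zero (sg_ne (j + 1)) (base_anchor P k)
            simp only [cross, Pi.sub_apply, Pi.smul_apply, z0 j hj, z0 j' hj', sub_re, sub_im,
              hs, smul_re, smul_im, smul_eq_mul] at hc ⊢
            linear_combination (-1 / 2) * hc))
        filter_upwards [this] with δ hδ
        exact Or.inr hδ
    · have := ev_cross hd hd' (Or.inl (by
        simp only [z0 j hj, z0 j' hj']; exact base_cross P k k' hk))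
      filter_upwards [this] with δ hδ
      exact Or.inl hδ
  have E4 : ∀ᶠ δ in 𝓝[≠] (0 : ℝ), ∀ j < N, ∀ k, ∀ i ≤ N,
      cross (DD r a ⟨δ, h⟩ (ζ δ (j + 1)) k) (ζ δ i + ζ δ (i + 1)) ≠ 0 := by
    refine ev_lt fun j hj => eventually_all.2 fun k => ev_le fun i hi => ?_
    obtain ⟨d, hd⟩ := hasDerivAt_DD r a h k (zd j hj)
    refine ev_cross hd ((hY i (by omega)).add (hY (i + 1) (by omega))) (Or.inl ?_)
    simp only [z0 j hj, hX0 i (by omega), hX0 (i + 1) (by omega), ← ofReal_add,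
      cross_real]
    exact neg_ne_zero.2 (mul_ne_zero (base_im P k)
      (add_pos (hX i (by omega)) (hX (i + 1) (by omega))).ne')
  have E5 : ∀ᶠ δ in 𝓝[≠] (0 : ℝ), ∀ j < N, ∀ k, ∀ i < N,
      cross (DD r a ⟨δ, h⟩ (ζ δ (j + 1)) k) (a - ζ δ (i + 1)) ≠ 0 := by
    refine ev_lt fun j hj => eventually_all.2 fun k => ev_lt fun i hi => ?_
    obtain ⟨d, hd⟩ := hasDerivAt_DD r a h k (zd j hj)
    refine ev_cross hd ((zd i hi).const_sub (a : ℂ)) (Or.inl ?_)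
    simp only [z0 j hj, z0 i hi, ← ofReal_sub, cross_real]
    exact neg_ne_zero.2 (mul_ne_zero (base_im P k) hap.ne')
  have E6 : ∀ᶠ δ in 𝓝[≠] (0 : ℝ), ∀ i ≤ N, ∀ i' ≤ N, i ≠ i' →
      (pth (ζ δ) i ∩ pth (ζ δ) i').Subsingleton := by
    refine ev_le fun i hi => ev_le fun i' hi' => ev_imp fun hne => ?_
    obtain ⟨e1, e2, x1, x2, a1, a2, a3, a4, a5, a6, a7⟩ := hpth i hi
    obtain ⟨e3, e4, x3, x4, b1, b2, b3, b4, b5, b6, b7⟩ := hpth i' hi'
    refine ev_axis a1 a2 b1 b2 a3 a4 b3 b4 a5 a6 b5 b6 a7 b7 ?_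
    rintro ⟨c1, c2⟩
    rw [div_left_inj' (by positivity)] at c1 c2
    rcases sg_or i' i with hs | hs
    · rw [hs] at c2
      have c3 := mul_left_cancel₀ (sg_ne i) c2
      exact hne (Hd i i' hs.symm (by linarith))
    · rw [hs, neg_mul_comm] at c2
      have c3 := mul_left_cancel₀ (sg_ne i) c2
      have k1 := Hd i (i' + 1) (by change sg i = sg (i' + 1); rw [sg_succ, hs, neg_neg])
        (by linarith)
      have k2 := Hd (i + 1) i' (by change sg (i + 1) = sg i'; rw [sg_succ, hs]) (by linarith)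
      omega
  have E7 : ∀ᶠ δ in 𝓝[≠] (0 : ℝ), ∀ i ≤ N, ∀ j < N, j + 1 ≠ i → j ≠ i →
      (pth (ζ δ) i ∩ axs a (ζ δ) (j + 1)).Subsingleton := by
    refine ev_le fun i hi => ev_lt fun j hj => ev_imp fun hne => ev_imp fun hne' => ?_
    obtain ⟨e1, e2, x1, x2, a1, a2, a3, a4, a5, a6, a7⟩ := hpth i hi
    obtain ⟨e3, e4, x3, x4, b1, b2, b3, b4, b5, b6, b7⟩ := haxs j hj
    refine ev_axis a1 a2 b1 b2 a3 a4 b3 b4 a5 a6 b5 b6 a7 b7 ?_
    rintro ⟨c1, c2⟩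
    have key : sg (j + 1) * (η i + η (i + 1)) + sg i * (η i - η (i + 1)) =
        2 * sg (j + 1) * η (j + 1) := by
      have : sg (j + 1) * (η i + η (i + 1)) + sg i * (η i - η (i + 1)) =
          2 * (sg (j + 1) * p * ((η i + η (i + 1)) / (2 * p)) + sg i * (η i - η (i + 1)) / 2) := by
        field_simp
      rw [this, c1, c2]
      field_simp
      ring
    rcases sg_or (j + 1) i with hs | hs
    · rw [hs] at key
      refine hne (Hd (j + 1) i hs (mul_left_cancel₀ (sg_ne i) ?_))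
      linear_combination (-1 / 2) * key
    · rw [hs] at key
      have := Hd (j + 1) (i + 1) (by change sg (j + 1) = sg (i + 1); rw [hs, sg_succ])
        (mul_left_cancel₀ (sg_ne i) (by linear_combination (1 / 2) * key))
      omega
  have E8 : ∀ᶠ δ in 𝓝[≠] (0 : ℝ), ∀ j < N, ∀ j' < N, j ≠ j' → sg (j + 1) = sg (j' + 1) →
      (axs a (ζ δ) (j + 1) ∩ axs a (ζ δ) (j' + 1)).Subsingleton := by
    refine ev_lt fun j hj => ev_lt fun j' hj' => ev_imp fun hne => ev_imp fun hs => ?_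
    obtain ⟨e1, e2, x1, x2, a1, a2, a3, a4, a5, a6, a7⟩ := haxs j hj
    obtain ⟨e3, e4, x3, x4, b1, b2, b3, b4, b5, b6, b7⟩ := haxs j' hj'
    refine ev_axis a1 a2 b1 b2 a3 a4 b3 b4 a5 a6 b5 b6 a7 b7 ?_
    rintro ⟨c1, -⟩
    rw [div_left_inj' hap.ne', neg_inj] at c1
    have := Hd (j + 1) (j' + 1) hs c1
    omega
  have E9 : ∀ᶠ δ in 𝓝[≠] (0 : ℝ), ∀ j < N, 0 < (ζ δ (j + 1)).re ∧ (ζ δ (j + 1)).re < a ∧
      -h < (ζ δ (j + 1)).im ∧ (ζ δ (j + 1)).im < h := by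
    refine ev_lt fun j hj => ?_
    have c1 := continuous_re.continuousAt.comp (zd j hj).continuousAt
    have c2 := continuous_im.continuousAt.comp (zd j hj).continuousAt
    filter_upwards [ev_pos c1 (by simp [z0 j hj, hp]),
      ev_lt' c1 (continuousAt_const (y := a)) (by simp [z0 j hj]; linarith),
      ev_lt' (continuousAt_const (y := -h)) c2 (by simp [z0 j hj, hh]),
      ev_lt' c2 (continuousAt_const (y := h)) (by simp [z0 j hj, hh])] with δ a1 a2 a3 a4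
    exact ⟨a1, a2, a3, a4⟩
  have E10 : ∀ᶠ δ in 𝓝[≠] (0 : ℝ), -a < δ ∧ δ < a := by
    filter_upwards [ev_lt' (continuousAt_const (y := -a)) continuousAt_id (by simpa using ha),
      ev_lt' continuousAt_id (continuousAt_const (y := a)) (by simpa using ha)] with δ a1 a2
    exact ⟨a1, a2⟩
  have E11 : ∀ᶠ δ in 𝓝[≠] (0 : ℝ), ∀ j < N,
      0 < (DD r a ⟨δ, h⟩ (ζ δ (j + 1)) 2).re ∧ 0 < (DD r a ⟨δ, h⟩ (ζ δ (j + 1)) 2).im ∧
      0 < (DD r a ⟨δ, h⟩ (ζ δ (j + 1)) 3).re ∧ (DD r a ⟨δ, h⟩ (ζ δ (j + 1)) 3).im < 0 ∧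
      (DD r a ⟨δ, h⟩ (ζ δ (j + 1)) 4).re < 0 ∧ (DD r a ⟨δ, h⟩ (ζ δ (j + 1)) 5).im < 0 ∧
      (DD r a ⟨δ, h⟩ (ζ δ (j + 1)) 6).re < 0 ∧ 0 < (DD r a ⟨δ, h⟩ (ζ δ (j + 1)) 7).im := by
    refine ev_lt fun j hj => ?_
    have c : ∀ k, ContinuousAt (fun t : ℝ => DD r a ⟨t, h⟩ (ζ t (j + 1)) k) 0 := fun k =>
      (hasDerivAt_DD r a h k (zd j hj)).choose_spec.continuousAt
    have c1 := fun k => continuous_re.continuousAt.comp (c k)
    have c2 := fun k => continuous_im.continuousAt.comp (c k)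
    have := P.r_lo
    filter_upwards [ev_pos (c1 2) (by simp [z0 j hj, DD_base P]),
      ev_pos (c2 2) (by simp [z0 j hj, DD_base P]),
      ev_pos (c1 3) (by simp [z0 j hj, DD_base P]),
      ev_lt' (c2 3) (continuousAt_const (y := 0)) (by simp [z0 j hj, DD_base P]),
      ev_lt' (c1 4) (continuousAt_const (y := 0)) (by simp [z0 j hj, DD_base P]; linarith),
      ev_lt' (c2 5) (continuousAt_const (y := 0)) (by simp [z0 j hj, DD_base P]; linarith),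
      ev_lt' (c1 6) (continuousAt_const (y := 0)) (by simp [z0 j hj, DD_base P]; linarith),
      ev_pos (c2 7) (by simp [z0 j hj, DD_base P]; linarith)] with δ a1 a2 a3 a4 a5 a6 a7 a8
    exact ⟨a1, a2, a3, a4, a5, a6, a7, a8⟩
  have hbal' := nhdsWithin_le_nhds (s := {0}ᶜ) hbal
  obtain ⟨δ, a0, a1, a3, a4, a5, a6, a7, a8, a9, a10, a11⟩ := (Eventually.and hbal' (E1.and
    (E3.and (E4.and (E5.and (E6.and (E7.and (E8.and (E9.and (E10.and E11)))))))))).exists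
  exact ⟨r, a, ⟨δ, h⟩, ζ δ, P.r2, (hend δ).1, (hend δ).2, a0, a1, a3, a4, a5, a6, a7, a8, a9,
    ⟨a10.1, a10.2, hh⟩, a11⟩

end Pool.Agent.P.MP_b67b84_gt
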