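import Pool.Agent.P.MP_b67b84_gt.Planar

/-! Finite systems of segments, balanced subsets, erasing straight vertices. -/

namespace Pool.Agent.P.MP_b67b84_gt.Irr

open Classical Finset

/-- the plane -/
abbrev V := EuclideanSpace ℝ (Fin 2)

/-- the unit force exerted by the edge `e` on the point `v` -/
noncomputable def F (e : Sym2 V) (v : V) : V :=
  Sym2.lift ⟨fun a b => (if a = v then unit (b - a) else 0) + (if b = v then unit (a - b) else 0),
    fun _ _ => add_comm _ _⟩ e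

/-- the segment drawn by an edge -/
def seg : Sym2 V → Set V := Sym2.lift ⟨fun a b => segment ℝ a b, fun a b => segment_symm ℝ a b⟩

@[simp] lemma seg_mk (a b : V) : seg s(a, b) = segment ℝ a b := rfl

lemma F_mk (a b v : V) :
    F s(a, b) v = (if a = v then unit (b - a) else 0) + (if b = v then unit (a - b) else 0) := rfl

lemma F_left (v w : V) : F s(v, w) v = unit (w - v) := by
  rw [F_mk, if_pos rfl]
  split_ifs with h
  · subst h; simp [unit_zero]
  · simp

lemma F_not_mem {e : Sym2 V} {v : V} (h : v ∉ e) : F e v = 0 := by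
  induction e using Sym2.ind with
  | h a b =>
    rw [Sym2.mem_iff, not_or] at h
    rw [F_mk, if_neg (Ne.symm h.1), if_neg (Ne.symm h.2), add_zero]

lemma mem_seg_of_mem {e : Sym2 V} {v : V} (h : v ∈ e) : v ∈ seg e := by
  induction e using Sym2.ind with
  | h a b =>
    rcases Sym2.mem_iff.1 h with rfl | rfl
    · exact left_mem_segment ℝ _ _
    · exact right_mem_segment ℝ _ _

/-- balanced away from `U` -/
def Bal (U : Finset V) (S : Finset (Sym2 V)) : Prop := ∀ v ∉ U, ∑ e ∈ S, F e v = 0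

/-- embedded system of nondegenerate segments -/
structure Emb (E : Finset (Sym2 V)) : Prop where
  nd : ∀ e ∈ E, ¬ e.IsDiag
  meet : ∀ e ∈ E, ∀ e' ∈ E, e ≠ e' → ∀ x ∈ seg e, x ∈ seg e' → x ∈ e

/-- no balanced subset except the trivial ones -/
def IsIrr (U : Finset V) (E : Finset (Sym2 V)) : Prop := ∀ S ⊆ E, Bal U S → S = ∅ ∨ S = E

/-- endpoints -/
noncomputable def verts (E : Finset (Sym2 V)) : Finset V := E.biUnion Sym2.toFinset

/-- neighbours -/
noncomputable def nbr (E : Finset (Sym2 V)) (v : V) : Finset V :=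
  (verts E).filter fun w => s(v, w) ∈ E

/-- endpoints outside `U` -/
noncomputable def inner (U : Finset V) (E : Finset (Sym2 V)) : Finset V := verts E \ U

/-- no inner vertex of degree two -/
def Red (U : Finset V) (E : Finset (Sym2 V)) : Prop := ∀ v ∉ U, (nbr E v).card ≠ 2

lemma mem_verts {E : Finset (Sym2 V)} {v : V} : v ∈ verts E ↔ ∃ e ∈ E, v ∈ e := by
  simp [verts]

lemma mem_nbr {E : Finset (Sym2 V)} {v w : V} : w ∈ nbr E v ↔ s(v, w) ∈ E := by
  rw [nbr, mem_filter, mem_verts]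
  exact ⟨fun h => h.2, fun h => ⟨⟨_, h, Sym2.mem_mk_right _ _⟩, h⟩⟩

lemma mem_verts' {E : Finset (Sym2 V)} {v : V} : v ∈ verts E ↔ ∃ w, s(v, w) ∈ E := by
  rw [mem_verts]
  constructor
  · rintro ⟨e, he, hv⟩
    obtain ⟨w, rfl⟩ := Sym2.mem_iff_exists.1 hv
    exact ⟨w, he⟩
  · rintro ⟨w, hw⟩
    exact ⟨_, hw, Sym2.mem_mk_left _ _⟩

lemma mem_inner {U : Finset V} {E : Finset (Sym2 V)} {v : V} :
    v ∈ inner U E ↔ v ∉ U ∧ ∃ w, s(v, w) ∈ E := by
  rw [inner, mem_sdiff, mem_verts', and_comm]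

lemma Emb.mono {E S : Finset (Sym2 V)} (h : Emb E) (hS : S ⊆ E) : Emb S :=
  ⟨fun e he => h.nd e (hS he), fun e he e' he' => h.meet e (hS he) e' (hS he')⟩

lemma Emb.ne {E : Finset (Sym2 V)} (h : Emb E) {a b : V} (hab : s(a, b) ∈ E) : a ≠ b :=
  fun hc => h.nd _ hab (Sym2.mk_isDiag_iff.2 hc)

lemma sum_F (E : Finset (Sym2 V)) (v : V) : ∑ e ∈ E, F e v = ∑ w ∈ nbr E v, unit (w - v) := by
  have h1 : E.filter (fun e => v ∈ e) = (nbr E v).image fun w => s(v, w) := by
    ext e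
    simp only [mem_filter, mem_image, mem_nbr]
    constructor
    · rintro ⟨he, hv⟩
      obtain ⟨w, rfl⟩ := Sym2.mem_iff_exists.1 hv
      exact ⟨w, he, rfl⟩
    · rintro ⟨w, hw, rfl⟩
      exact ⟨hw, Sym2.mem_mk_left _ _⟩
  rw [← sum_filter_of_ne (p := fun e => v ∈ e) (fun e _ h => by
    by_contra hc; exact h (F_not_mem hc)), h1,
    sum_image fun w _ w' _ h => Sym2.congr_right.1 h]
  exact sum_congr rfl fun w _ => F_left v w

lemma norm_unit {z : V} (hz : z ≠ 0) : ‖unit z‖ = 1 := by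
  rw [unit, norm_smul, norm_inv, norm_norm, inv_mul_cancel₀ (norm_ne_zero_iff.2 hz)]

lemma norm_unit_le (z : V) : ‖unit z‖ ≤ 1 := by
  by_cases hz : z = 0
  · simp [hz, unit_zero]
  · exact (norm_unit hz).le

lemma smul_unit (z : V) : ‖z‖ • unit z = z := by
  by_cases hz : z = 0
  · simp [hz]
  · rw [unit, smul_smul, mul_inv_cancel₀ (norm_ne_zero_iff.2 hz), one_smul]

lemma three_le {U : Finset V} {E : Finset (Sym2 V)} (hE : Emb E) (hB : Bal U E) (hR : Red U E)
    {v : V} (hv : v ∈ inner U E) : 3 ≤ (nbr E v).card := by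
  obtain ⟨hvU, w, hw⟩ := mem_inner.1 hv
  have h0 : (nbr E v).card ≠ 0 := card_ne_zero.2 ⟨w, mem_nbr.2 hw⟩
  have h1 : (nbr E v).card ≠ 1 := by
    intro h
    obtain ⟨x, hx⟩ := card_eq_one.1 h
    have hb := hB v hvU
    rw [sum_F, hx, sum_singleton] at hb
    have hx' : s(v, x) ∈ E := mem_nbr.1 (by rw [hx]; exact mem_singleton_self _)
    have := norm_unit (sub_ne_zero.2 (hE.ne hx').symm)
    rw [hb] at this
    simp at this
  have h2 := hR v hvU
  omega

lemma same_dir {E : Finset (Sym2 V)} (hE : Emb E) {v x y : V} (hx : s(v, x) ∈ E)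
    (hy : s(v, y) ∈ E) (h : unit (x - v) = unit (y - v)) : x = y := by
  wlog hle : ‖x - v‖ ≤ ‖y - v‖ generalizing x y
  · exact (this hy hx h.symm (le_of_not_ge hle)).symm
  by_contra hne
  have hy0 : 0 < ‖y - v‖ := norm_pos_iff.2 (sub_ne_zero.2 (hE.ne hy).symm)
  have hxs : x ∈ segment ℝ v y := by
    have : x = v + (‖x - v‖ / ‖y - v‖) • (y - v) := by
      conv_rhs => rw [← smul_unit (y - v), ← h]
      rw [norm_smul, norm_norm, h, norm_unit (norm_pos_iff.1 hy0), mul_one, smul_smul,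
        div_mul_cancel₀ _ hy0.ne', ← h, smul_unit]
      abel
    rw [this]
    exact mem_seg (by positivity) ((div_le_one hy0).2 hle)
  have := hE.meet _ hy _ hx (fun hc => hne (Sym2.congr_right.1 hc).symm) x hxs
    (right_mem_segment ℝ _ _)
  rcases Sym2.mem_iff.1 this with h' | h'
  · exact hE.ne hx h'.symm
  · exact hne h'

lemma Bal.sdiff {U : Finset V} {E S : Finset (Sym2 V)} (hE : Bal U E) (hS : Bal U S)
    (h : S ⊆ E) : Bal U (E \ S) := by
  intro v hv
  have := sum_sdiff (f := fun e => F e v) h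
  rw [hE v hv, hS v hv, add_zero] at this
  exact this

lemma bal_replace {U U' : Finset V} {E0 D : Finset (Sym2 V)} {e' : Sym2 V} (hd : Disjoint E0 D)
    (he : e' ∉ E0) (hU : U ⊆ U') (hF : ∀ z ∉ U', F e' z = ∑ d ∈ D, F d z)
    (h : Bal U (E0 ∪ D)) : Bal U' (insert e' E0) := by
  intro z hz
  rw [sum_insert he, hF z hz, add_comm, ← sum_union hd]
  exact h z fun hc => hz (hU hc)

lemma irr_replace {U U' : Finset V} {E0 D : Finset (Sym2 V)} {e' : Sym2 V} (hd : Disjoint E0 D)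
    (hD : D.Nonempty) (hF : ∀ z ∉ U', F e' z = ∑ d ∈ D, F d z)
    (h0 : ∀ z ∈ U', z ∉ U → ∀ e ∈ E0 ∪ D, F e z = 0)
    (h : IsIrr U (E0 ∪ D)) : IsIrr U' (insert e' E0) := by
  intro S hS hB
  by_cases he : e' ∈ S
  · have h1 : S.erase e' ⊆ E0 := fun e h => by
      rcases mem_insert.1 (hS (mem_of_mem_erase h)) with h' | h'
      · exact absurd h' (ne_of_mem_erase h)
      · exact h'
    have h2 : S.erase e' ∪ D ⊆ E0 ∪ D := union_subset_union_left h1
    rcases h _ h2 (fun z hz => by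
      by_cases hz' : z ∈ U'
      · exact sum_eq_zero fun e he => h0 z hz' hz e (h2 he)
      · rw [sum_union (hd.mono_left h1), ← hF z hz', sum_erase_add _ _ he]
        exact hB z hz') with h3 | h3
    · obtain ⟨d, hd'⟩ := hD
      have : d ∈ S.erase e' ∪ D := mem_union_right _ hd'
      rw [h3] at this
      exact absurd this (notMem_empty _)
    · right
      refine Subset.antisymm hS (insert_subset he fun e he0 => ?_)
      have : e ∈ S.erase e' ∪ D := by rw [h3]; exact mem_union_left _ he0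
      rcases mem_union.1 this with h4 | h4
      · exact mem_of_mem_erase h4
      · exact absurd h4 (disjoint_left.1 hd he0)
  · have h1 : S ⊆ E0 := fun e h => by
      rcases mem_insert.1 (hS h) with h' | h'
      · exact absurd (h' ▸ h) he
      · exact h'
    have h2 : S ⊆ E0 ∪ D := h1.trans subset_union_left
    rcases h _ h2 (fun z hz => by
      by_cases hz' : z ∈ U'
      · exact sum_eq_zero fun e he => h0 z hz' hz e (h2 he)
      · exact hB z hz') with h3 | h3
    · exact Or.inl h3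
    · obtain ⟨d, hd'⟩ := hD
      have : d ∈ S := by rw [h3]; exact mem_union_right _ hd'
      exact absurd hd' (disjoint_left.1 hd (h1 this))

/-- every segment of `E` lies in a segment of `E'` -/
def Cov (E E' : Finset (Sym2 V)) : Prop := ∀ e ∈ E, ∃ e' ∈ E', seg e ⊆ seg e'

/-- every direction of `P` at a point of `U` is a direction of `E` -/
def Dir (U : Finset V) (P E : Finset (Sym2 V)) : Prop :=
  ∀ u ∈ U, ∀ w, s(u, w) ∈ P → ∃ w', s(u, w') ∈ E ∧ unit (w' - u) = unit (w - u)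

lemma mem_segment_of_opp {v x y : V} (hx : x ≠ v) (hy : y ≠ v)
    (h : unit (x - v) + unit (y - v) = 0) : v ∈ segment ℝ x y := by
  have hx0 : 0 < ‖x - v‖ := norm_pos_iff.2 (sub_ne_zero.2 hx)
  have hy0 : 0 < ‖y - v‖ := norm_pos_iff.2 (sub_ne_zero.2 hy)
  have hs : 0 < ‖x - v‖ + ‖y - v‖ := by positivity
  refine ⟨‖y - v‖ / (‖x - v‖ + ‖y - v‖), ‖x - v‖ / (‖x - v‖ + ‖y - v‖), by positivity,
    by positivity, by field_simp; ring, ?_⟩
  have e1 : x = v + ‖x - v‖ • unit (x - v) := by rw [smul_unit]; abel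
  have e2 : y = v - ‖y - v‖ • unit (x - v) := by
    rw [eq_neg_of_add_eq_zero_left h, smul_neg, smul_unit]; abel
  generalize ‖x - v‖ = α at *
  generalize ‖y - v‖ = β at *
  generalize unit (x - v) = d at *
  rw [e1, e2]
  match_scalars <;> field_simp <;> ring

lemma erase_step {U : Finset V} {E : Finset (Sym2 V)} (hE : Emb E) (hB : Bal U E)
    (hI : IsIrr U E) {v : V} (hv : v ∉ U) (h2 : (nbr E v).card = 2) :
    ∃ E', E'.card < E.card ∧ Emb E' ∧ Bal U E' ∧ IsIrr U E' ∧ Cov E E' ∧ Dir U E' E := by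
  obtain ⟨x, y, hxy, hn⟩ := card_eq_two.1 h2
  have hx : s(v, x) ∈ E := mem_nbr.1 (by rw [hn]; simp)
  have hy : s(v, y) ∈ E := mem_nbr.1 (by rw [hn]; simp)
  have hxv : x ≠ v := (hE.ne hx).symm
  have hyv : y ≠ v := (hE.ne hy).symm
  have hopp : unit (x - v) + unit (y - v) = 0 := by
    have := hB v hv
    rwa [sum_F, hn, sum_pair hxy] at this
  have hseg := mem_segment_of_opp hxv hyv hopp
  have hseg' : v ∈ segment ℝ y x := by rwa [segment_symm]
  have ux : unit (v - x) = unit (y - x) := unit_of_mem_seg hseg hxv.symm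
  have uy : unit (v - y) = unit (x - y) := unit_of_mem_seg hseg' hyv.symm
  have hne : s(v, x) ≠ s(v, y) := fun hc => hxy (Sym2.congr_right.1 hc)
  set D : Finset (Sym2 V) := {s(v, x), s(v, y)} with hD
  have hDE : D ⊆ E := by
    intro e he
    rcases mem_insert.1 he with rfl | he
    · exact hx
    · rw [mem_singleton.1 he]; exact hy
  have hEq : E \ D ∪ D = E := sdiff_union_of_subset hDE
  have hv0 : ∀ e ∈ E \ D, v ∉ e := by
    intro e he hve
    obtain ⟨w, rfl⟩ := Sym2.mem_iff_exists.1 hve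
    have := mem_nbr.2 (mem_sdiff.1 he).1
    rw [hn] at this
    apply (mem_sdiff.1 he).2
    rcases mem_insert.1 this with rfl | h
    · simp [hD]
    · rw [mem_singleton.1 h]; simp [hD]
  have hmeet : ∀ e ∈ E \ D, ∀ z ∈ seg e, z ∈ segment ℝ x y → z ∈ e ∧ z ∈ s(x, y) := by
    intro e he z hz hz'
    obtain ⟨heE, heD⟩ := mem_sdiff.1 he
    rcases seg_split hseg hz' with h | h
    · have hh : e ≠ s(v, x) := fun hc => heD (by rw [hc]; simp [hD])
      have k1 := hE.meet e heE _ hx hh z hz h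
      have k2 := hE.meet _ hx e heE hh.symm z h hz
      rcases Sym2.mem_iff.1 k2 with rfl | rfl
      · exact absurd k1 (hv0 e he)
      · exact ⟨k1, Sym2.mem_mk_left _ _⟩
    · have hh : e ≠ s(v, y) := fun hc => heD (by rw [hc]; simp [hD])
      have k1 := hE.meet e heE _ hy hh z hz h
      have k2 := hE.meet _ hy e heE hh.symm z h hz
      rcases Sym2.mem_iff.1 k2 with rfl | rfl
      · exact absurd k1 (hv0 e he)
      · exact ⟨k1, Sym2.mem_mk_right _ _⟩
  have hnew : s(x, y) ∉ E \ D := fun hc => hv0 _ hc (hmeet _ hc v hseg hseg).1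
  have hF : ∀ z ∉ U, F s(x, y) z = ∑ d ∈ D, F d z := by
    intro z _
    rw [hD, sum_pair hne, F_mk, F_mk, F_mk, ux, uy]
    by_cases hz : v = z
    · subst hz
      simp [hxv, hyv, hopp]
    · simp [hz]
  refine ⟨insert s(x, y) (E \ D), ?_, ⟨?_, ?_⟩, ?_, ?_, ?_, ?_⟩
  · rw [card_insert_of_notMem hnew, card_sdiff_of_subset hDE, hD, card_pair hne]
    have := card_le_card hDE
    rw [hD, card_pair hne] at this
    omega
  · intro e he
    rcases mem_insert.1 he with rfl | he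
    · exact fun hc => hxy (Sym2.mk_isDiag_iff.1 hc)
    · exact hE.nd e (mem_sdiff.1 he).1
  · intro e he e' he' hne' z hz hz'
    rcases mem_insert.1 he with rfl | he <;> rcases mem_insert.1 he' with rfl | he'
    · exact absurd rfl hne'
    · exact (hmeet e' he' z hz' hz).2
    · exact (hmeet e he z hz hz').1
    · exact hE.meet e (mem_sdiff.1 he).1 e' (mem_sdiff.1 he').1 hne' z hz hz'
  · exact bal_replace sdiff_disjoint hnew Subset.rfl hF (by rwa [hEq])
  · exact irr_replace sdiff_disjoint ⟨_, mem_insert_self _ _⟩ hF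
      (fun z h1 h2 => absurd h1 h2) (by rwa [hEq])
  · intro e he
    by_cases heD : e ∈ D
    · refine ⟨_, mem_insert_self _ _, ?_⟩
      rcases mem_insert.1 heD with rfl | h
      · exact seg_sub hseg (left_mem_segment ℝ _ _)
      · rw [mem_singleton.1 h]; exact seg_sub hseg (right_mem_segment ℝ _ _)
    · exact ⟨e, mem_insert_of_mem (mem_sdiff.2 ⟨he, heD⟩), subset_rfl⟩
  · intro u _ w hw
    rcases mem_insert.1 hw with h | h
    · rcases Sym2.eq_iff.1 h with ⟨rfl, rfl⟩ | ⟨rfl, rfl⟩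
      · exact ⟨v, by rwa [Sym2.eq_swap], ux⟩
      · exact ⟨v, by rwa [Sym2.eq_swap], uy⟩
    · exact ⟨w, (mem_sdiff.1 h).1, rfl⟩

/-- embedded, balanced, irreducible and reduced -/
structure Nice (U : Finset V) (E : Finset (Sym2 V)) : Prop where
  emb : Emb E
  bal : Bal U E
  irr : IsIrr U E
  red : Red U E

lemma reduce {U : Finset V} (n : ℕ) : ∀ E : Finset (Sym2 V), E.card ≤ n → Emb E → Bal U E →
    IsIrr U E → ∃ P, Nice U P ∧ Cov E P ∧ Dir U P E := by
  induction n with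
  | zero =>
    intro E hc hE hB hI
    refine ⟨E, ⟨hE, hB, hI, fun v _ h => ?_⟩, fun e he => ⟨e, he, subset_rfl⟩,
      fun u _ w hw => ⟨w, hw, rfl⟩⟩
    obtain ⟨w, hw⟩ := card_pos.1 (by omega : 0 < (nbr E v).card)
    have := card_pos.2 ⟨_, mem_nbr.1 hw⟩
    omega
  | succ n ih =>
    intro E hc hE hB hI
    by_cases hR : Red U E
    · exact ⟨E, ⟨hE, hB, hI, hR⟩, fun e he => ⟨e, he, subset_rfl⟩, fun u _ w hw => ⟨w, hw, rfl⟩⟩
    simp only [Red, not_forall, not_not] at hR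
    obtain ⟨v, hv, h2⟩ := hR
    obtain ⟨E', h1, h3, h4, h5, h6, h7⟩ := erase_step hE hB hI hv h2
    obtain ⟨P, k1, k2, k3⟩ := ih E' (by omega) h3 h4 h5
    refine ⟨P, k1, fun e he => ?_, fun u hu w hw => ?_⟩
    · obtain ⟨e', a1, a2⟩ := h6 e he
      obtain ⟨e'', a3, a4⟩ := k2 e' a1
      exact ⟨e'', a3, a2.trans a4⟩
    · obtain ⟨w', a1, a2⟩ := k3 u hu w hw
      obtain ⟨w'', a3, a4⟩ := h7 u hu w' a1
      exact ⟨w'', a3, a4.trans a2⟩

lemma exists_min {U : Finset V} {E : Finset (Sym2 V)} (hB : Bal U E) (hne : E.Nonempty) :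
    ∃ S ⊆ E, S.Nonempty ∧ Bal U S ∧ IsIrr U S := by
  obtain ⟨S, hS, hmin⟩ := exists_min_image (E.powerset.filter fun S => S.Nonempty ∧ Bal U S)
    card ⟨E, mem_filter.2 ⟨mem_powerset_self _, hne, hB⟩⟩
  obtain ⟨h1, h2, h3⟩ := mem_filter.1 hS
  refine ⟨S, mem_powerset.1 h1, h2, h3, fun T hT hTB => ?_⟩
  rcases T.eq_empty_or_nonempty with h | h
  · exact Or.inl h
  · exact Or.inr (eq_of_subset_of_card_le hT (hmin T (mem_filter.2
      ⟨mem_powerset.2 (hT.trans (mem_powerset.1 h1)), h, hTB⟩)))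

lemma decomp {U : Finset V} (n : ℕ) : ∀ E : Finset (Sym2 V), E.card ≤ n → Emb E → Bal U E →
    ∃ D : Finset (Finset (Sym2 V)), (∀ P ∈ D, Nice U P ∧ P.Nonempty ∧ Dir U P E) ∧
      (∀ e ∈ E, ∃ P ∈ D, ∃ e' ∈ P, seg e ⊆ seg e') ∧
      ∀ P ∈ D, ∀ Q ∈ D, P ≠ Q → ∀ u ∈ U, ∀ w w', s(u, w) ∈ P → s(u, w') ∈ Q →
        unit (w - u) ≠ unit (w' - u) := by
  induction n with
  | zero =>
    intro E hc _ _
    obtain rfl : E = ∅ := card_eq_zero.1 (by omega)
    exact ⟨∅, by simp, by simp, by simp⟩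
  | succ n ih =>
    intro E hc hE hB
    rcases E.eq_empty_or_nonempty with rfl | hne
    · exact ⟨∅, by simp, by simp, by simp⟩
    obtain ⟨S, hS, hSne, hSB, hSI⟩ := exists_min hB hne
    obtain ⟨P, hP, hC, hD⟩ := reduce _ S le_rfl (hE.mono hS) hSB hSI
    obtain ⟨D, k1, k2, k3⟩ := ih (E \ S) (by
      have := card_pos.2 hSne
      have := card_le_card hS
      rw [card_sdiff_of_subset hS]; omega) (hE.mono sdiff_subset) (hB.sdiff hSB hS)
    have key : ∀ Q ∈ D, ∀ u ∈ U, ∀ w w', s(u, w) ∈ P → s(u, w') ∈ Q →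
        unit (w - u) ≠ unit (w' - u) := by
      intro Q hQ u hu w w' hw hw' he
      obtain ⟨x, a1, a2⟩ := hD u hu w hw
      obtain ⟨y, a3, a4⟩ := (k1 Q hQ).2.2 u hu w' hw'
      have := same_dir hE (hS a1) (mem_sdiff.1 a3).1 (by rw [a2, a4, he])
      subst this
      exact (mem_sdiff.1 a3).2 a1
    refine ⟨insert P D, ?_, ?_, ?_⟩
    · intro Q hQ
      rcases mem_insert.1 hQ with rfl | hQ
      · obtain ⟨e, he⟩ := hSne
        obtain ⟨e', he', -⟩ := hC e he
        refine ⟨hP, ⟨e', he'⟩, fun u hu w hw => ?_⟩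
        obtain ⟨x, a1, a2⟩ := hD u hu w hw
        exact ⟨x, hS a1, a2⟩
      · refine ⟨(k1 Q hQ).1, (k1 Q hQ).2.1, fun u hu w hw => ?_⟩
        obtain ⟨x, a1, a2⟩ := (k1 Q hQ).2.2 u hu w hw
        exact ⟨x, (mem_sdiff.1 a1).1, a2⟩
    · intro e he
      by_cases heS : e ∈ S
      · exact ⟨P, mem_insert_self _ _, hC e heS⟩
      · obtain ⟨Q, hQ, h⟩ := k2 e (mem_sdiff.2 ⟨he, heS⟩)
        exact ⟨Q, mem_insert_of_mem hQ, h⟩
    · intro Q hQ R hR hne' u hu w w' hw hw'
      rcases mem_insert.1 hQ with hQ' | hQ' <;> rcases mem_insert.1 hR with hR' | hR'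
      · exact absurd (hQ'.trans hR'.symm) hne'
      · exact key R hR' u hu w w' (hQ' ▸ hw) hw'
      · exact (key Q hQ' u hu w' w (hR' ▸ hw') hw).symm
      · exact k3 Q hQ' R hR' hne' u hu w w' hw hw'

end Pool.Agent.P.MP_b67b84_gt.Irr
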