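import Pool.Agent.P.MP_b67b84_gt.IrrA

/-! First variation, combinatorial types, and the counting bound. -/

namespace Pool.Agent.P.MP_b67b84_gt.Irr

open Classical Finset
open scoped RealInnerProductSpace

/-- pairing of the direction of an edge under `x` with its displacement under `y` -/
noncomputable def g {α : Type*} (x y : α → V) : Sym2 α → ℝ :=
  Sym2.lift ⟨fun a b => ⟪unit (x b - x a), y b - y a⟫, fun a b => by
    simp only
    rw [← neg_sub (x a), ← neg_sub (y a), unit_neg, inner_neg_neg]⟩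

lemma g_mk {α : Type*} (x y : α → V) (a b : α) :
    g x y s(a, b) = ⟪unit (x b - x a), y b - y a⟫ := rfl

lemma g_map {α β : Type*} (x y : β → V) (l : α → β) (e : Sym2 α) :
    g x y (e.map l) = g (x ∘ l) (y ∘ l) e := by
  induction e using Sym2.ind with
  | h a b => rfl

lemma inner_unit_self (z : V) : ⟪unit z, z⟫ = ‖z‖ := by
  rw [unit, real_inner_smul_left, real_inner_self_eq_norm_sq]
  by_cases hz : ‖z‖ = 0
  · simp [hz]
  · field_simp

lemma g_le {α : Type*} (x y : α → V) (e : Sym2 α) : g x y e ≤ g y y e := by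
  induction e using Sym2.ind with
  | h a b =>
    rw [g_mk, g_mk, inner_unit_self]
    exact (real_inner_le_norm _ _).trans
      (mul_le_of_le_one_left (norm_nonneg _) (norm_unit_le _))

lemma unit_eq_of_inner {a b : V} (ha : a ≠ 0) (hb : b ≠ 0) (h : ⟪unit a, b⟫ = ⟪unit b, b⟫) :
    unit a = unit b := by
  rw [inner_unit_self] at h
  refine (inner_eq_one_iff_of_norm_eq_one (𝕜 := ℝ) (norm_unit ha) (norm_unit hb)).1 ?_
  rw [show unit b = ‖b‖⁻¹ • b from rfl, real_inner_smul_right, h,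
    inv_mul_cancel₀ (norm_ne_zero_iff.2 hb)]

lemma first_var {U : Finset V} {E : Finset (Sym2 V)} (hB : Bal U E) (ψ : V → V)
    (hψ : ∀ u ∈ U, ψ u = 0) : ∑ e ∈ E, g id ψ e = 0 := by
  have h1 : ∀ e ∈ E, g id ψ e = -∑ v ∈ verts E, ⟪F e v, ψ v⟫ := by
    intro e he
    induction e using Sym2.ind with
    | h a b =>
      have ha : a ∈ verts E := mem_verts.2 ⟨_, he, Sym2.mem_mk_left _ _⟩
      have hb : b ∈ verts E := mem_verts.2 ⟨_, he, Sym2.mem_mk_right _ _⟩
      have h2 : ∀ v, ⟪F s(a, b) v, ψ v⟫ = (if a = v then ⟪unit (b - a), ψ v⟫ else 0) +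
          (if b = v then ⟪unit (a - b), ψ v⟫ else 0) := by
        intro v
        rw [F_mk, inner_add_left]
        congr 1 <;> split_ifs <;> simp
      simp only [h2, sum_add_distrib, sum_ite_eq, ha, hb, if_true, g_mk, id]
      rw [← neg_sub b a, unit_neg, inner_neg_left, inner_sub_right]
      ring
  rw [sum_congr rfl h1, sum_neg_distrib, sum_comm, neg_eq_zero]
  refine sum_eq_zero fun v _ => ?_
  rw [← sum_inner]
  by_cases hv : v ∈ U
  · rw [hψ v hv, inner_zero_right]
  · rw [hB v hv, inner_zero_left]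

lemma first_var' {U : Finset V} {E : Finset (Sym2 V)} (hB : Bal U E) (φ : V → V)
    (hφ : ∀ u ∈ U, φ u = u) : ∑ e ∈ E, g id φ e = ∑ e ∈ E, g id id e := by
  have := first_var hB (fun v => φ v - v) fun u hu => by simp [hφ u hu]
  rw [← sub_eq_zero, ← sum_sub_distrib, ← this]
  refine sum_congr rfl fun e _ => ?_
  induction e using Sym2.ind with
  | h a b =>
    simp only [g_mk, id, ← inner_sub_right]
    congr 1
    abel

lemma exists_term {U : Finset V} {E : Finset (Sym2 V)} (hE : Emb E) (hB : Bal U E)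
    (hne : E.Nonempty) : ∃ u ∈ U, ∃ w, s(u, w) ∈ E := by
  by_contra hc
  push Not at hc
  have := first_var hB (fun v => if v ∈ U then 0 else v) fun u hu => if_pos hu
  refine absurd this (sum_pos (fun e he => ?_) hne).ne'
  induction e using Sym2.ind with
  | h a b =>
    have ha : a ∉ U := fun h => hc a h b he
    have hb : b ∉ U := fun h => hc b h a (by rwa [Sym2.eq_swap])
    simp only [g_mk, id, if_neg ha, if_neg hb, inner_unit_self]
    exact norm_pos_iff.2 (sub_ne_zero.2 (hE.ne he).symm)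

lemma exists_label (U : Finset V) (P : Finset (Sym2 V)) {n : ℕ} (hn : (inner U P).card ≤ n) :
    ∃ (l : V → ℕ ⊕ V) (x : ℕ ⊕ V → V), (∀ v, x (l v) = v) ∧ (∀ u ∈ U, l u = .inr u) ∧
      (∀ u, x (.inr u) = u) ∧ ∀ v ∈ verts P, l v ∈ (range n).disjSum U := by
  let e := (inner U P).equivFin
  refine ⟨fun v => if h : v ∈ inner U P then .inl (e ⟨v, h⟩) else .inr v,
    Sum.elim (fun i => if h : i < (inner U P).card then (e.symm ⟨i, h⟩ : V) else 0) id,
    fun v => ?_, fun u hu => ?_, fun u => rfl, fun v hv => ?_⟩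
  · by_cases h : v ∈ inner U P
    · simp [h]
    · simp [h]
  · exact dif_neg fun h => (mem_sdiff.1 h).2 hu
  · by_cases h : v ∈ inner U P
    · simp only [h, dif_pos, inl_mem_disjSum, mem_range]
      exact (e ⟨v, h⟩).2.trans_le hn
    · simp only [h, dif_neg, not_false_eq_true, inr_mem_disjSum]
      by_contra hc
      exact h (mem_sdiff.2 ⟨hv, hc⟩)

lemma map_map_label {l : V → ℕ ⊕ V} {x : ℕ ⊕ V → V} (h : ∀ v, x (l v) = v) (e : Sym2 V) :
    (e.map l).map x = e := by
  induction e using Sym2.ind with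
  | h a b => simp [h]

lemma map_label_inj {l : V → ℕ ⊕ V} {x : ℕ ⊕ V → V} (h : ∀ v, x (l v) = v) :
    Function.Injective (Sym2.map l) :=
  Function.LeftInverse.injective (map_map_label h)

lemma same_type {U : Finset V} {P Q : Finset (Sym2 V)} (hP : Emb P) (hPB : Bal U P) (hQ : Emb Q)
    (hQB : Bal U Q) (hne : P.Nonempty) {l l' : V → ℕ ⊕ V} {x x' : ℕ ⊕ V → V}
    (h1 : ∀ v, x (l v) = v) (h2 : ∀ u ∈ U, l u = .inr u) (h3 : ∀ u, x (.inr u) = u)
    (k1 : ∀ v, x' (l' v) = v) (k2 : ∀ u ∈ U, l' u = .inr u) (k3 : ∀ u, x' (.inr u) = u)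
    (hT : P.image (Sym2.map l) = Q.image (Sym2.map l')) :
    ∃ u ∈ U, ∃ w w', s(u, w) ∈ P ∧ s(u, w') ∈ Q ∧ unit (w - u) = unit (w' - u) := by
  have hx : x ∘ l = id := funext h1
  have hx' : x' ∘ l' = id := funext k1
  have e1 : ∑ t ∈ P.image (Sym2.map l), g x x' t = ∑ t ∈ P.image (Sym2.map l), g x x t := by
    rw [sum_image fun _ _ _ _ h => map_label_inj h1 h, sum_image fun _ _ _ _ h => map_label_inj h1 h]
    simp only [g_map, hx]
    exact first_var' hPB _ fun u hu => by simp [h2 u hu, k3]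
  have e2 : ∑ t ∈ Q.image (Sym2.map l'), g x' x t = ∑ t ∈ Q.image (Sym2.map l'), g x' x' t := by
    rw [sum_image fun _ _ _ _ h => map_label_inj k1 h, sum_image fun _ _ _ _ h => map_label_inj k1 h]
    simp only [g_map, hx']
    exact first_var' hQB _ fun u hu => by simp [k2 u hu, h3]
  rw [← hT] at e2
  have e3 : ∑ t ∈ P.image (Sym2.map l), g x x' t = ∑ t ∈ P.image (Sym2.map l), g x' x' t := by
    have a1 := sum_le_sum (s := P.image (Sym2.map l)) fun t _ => g_le x x' t
    have a2 := sum_le_sum (s := P.image (Sym2.map l)) fun t _ => g_le x' x t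
    linarith
  have e4 := (sum_eq_sum_iff_of_le fun t _ => g_le x x' t).1 e3
  obtain ⟨u, hu, w, hw⟩ := exists_term hP hPB hne
  have ht : s(u, w).map l ∈ P.image (Sym2.map l) := mem_image_of_mem _ hw
  have e5 := e4 _ ht
  rw [hT] at ht
  obtain ⟨e', he', hee⟩ := mem_image.1 ht
  have e6 : e' = s(u, x' (l w)) := by
    rw [← map_map_label k1 e', hee]
    simp [h2 u hu, k3]
  rw [e6] at he'
  refine ⟨u, hu, w, x' (l w), hw, he', ?_⟩
  simp only [Sym2.map_mk, g_mk, h1, h2 u hu, h3, k3] at e5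
  exact unit_eq_of_inner (sub_ne_zero.2 (hP.ne hw).symm) (sub_ne_zero.2 (hQ.ne he').symm) e5

lemma unit_smul_pm {t : ℝ} (ht : t ≠ 0) (z : V) :
    unit (t • z) = unit z ∨ unit (t • z) = -unit z := by
  rcases ht.lt_or_gt with h | h
  · right
    rw [← neg_neg t, neg_smul, unit_neg, unit_smul (neg_pos.2 h)]
  · exact Or.inl (unit_smul h z)

lemma par {σ : Sym2 V} {v x y : V} (hv : v ∈ seg σ) (hx : x ∈ seg σ) (hy : y ∈ seg σ)
    (hxv : x ≠ v) (hyv : y ≠ v) : unit (x - v) = unit (y - v) ∨ unit (x - v) = -unit (y - v) := by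
  induction σ using Sym2.ind with
  | h a b =>
    obtain ⟨r, -, -, rfl⟩ := seg_param hv
    obtain ⟨s, -, -, rfl⟩ := seg_param hx
    obtain ⟨t, -, -, rfl⟩ := seg_param hy
    have e : ∀ s : ℝ, a + s • (b - a) - (a + r • (b - a)) = (s - r) • (b - a) := fun s => by module
    have hs : s - r ≠ 0 := fun h => hxv (by rw [sub_eq_zero.1 h])
    have ht : t - r ≠ 0 := fun h => hyv (by rw [sub_eq_zero.1 h])
    rw [e, e]
    rcases unit_smul_pm hs (b - a) with h | h <;> rcases unit_smul_pm ht (b - a) with h' | h' <;>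
      simp [h, h']

lemma cross_count {E Z : Finset (Sym2 V)} (hE : Emb E) (hC : Cov E Z) (X : Finset V)
    (hX : ∀ v ∈ X, 3 ≤ (nbr E v).card) : X.card ≤ Z.card ^ 2 := by
  rw [sq, ← card_product]
  refine card_le_card_of_forall_subsingleton
    (fun v (p : Sym2 V × Sym2 V) => seg p.1 ∩ seg p.2 = {v}) (fun v hv => ?_) ?_
  · obtain ⟨x, y, z, hx, hy, hz, hxy, hxz, hyz⟩ := two_lt_card_iff.1 (hX v hv)
    rw [mem_nbr] at hx hy hz
    obtain ⟨a, ha, ha'⟩ := hC _ hx
    obtain ⟨b, hb, hb'⟩ := hC _ hy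
    obtain ⟨c, hc, hc'⟩ := hC _ hz
    have key : ∀ {y : V} {b : Sym2 V}, s(v, y) ∈ E → seg s(v, y) ⊆ seg b → x ≠ y →
        seg a ∩ seg b ≠ {v} → unit (y - v) = -unit (x - v) := by
      intro y b hy hb' hxy hne
      have va : v ∈ seg a := ha' (left_mem_segment ℝ _ _)
      have vb : v ∈ seg b := hb' (left_mem_segment ℝ _ _)
      obtain ⟨w, hw, hwv⟩ : ∃ w ∈ seg a ∩ seg b, w ≠ v := by
        by_contra hcon
        push Not at hcon
        exact hne (Set.eq_singleton_iff_unique_mem.2 ⟨⟨va, vb⟩, hcon⟩)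
      have p1 := par va (ha' (right_mem_segment ℝ _ _)) hw.1 (hE.ne hx).symm hwv
      have p2 := par vb (hb' (right_mem_segment ℝ _ _)) hw.2 (hE.ne hy).symm hwv
      have p3 : unit (x - v) ≠ unit (y - v) := fun h => hxy (same_dir hE hx hy h)
      rcases p1 with p1 | p1 <;> rcases p2 with p2 | p2
      · exact absurd (p1.trans p2.symm) p3
      · rw [p1, p2]
      · rw [p1, p2, neg_neg]
      · exact absurd (p1.trans p2.symm) p3
    by_cases h1 : seg a ∩ seg b = {v}
    · exact ⟨(a, b), mem_product.2 ⟨ha, hb⟩, h1⟩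
    by_cases h2 : seg a ∩ seg c = {v}
    · exact ⟨(a, c), mem_product.2 ⟨ha, hc⟩, h2⟩
    exact absurd (same_dir hE hy hz ((key hy hb' hxy h1).trans (key hz hc' hxz h2).symm)) hyz
  · rintro p - v ⟨-, hv⟩ w ⟨-, hw⟩
    exact Set.singleton_injective (hv.symm.trans hw)

/-- If all nice systems for `U` have at most `n` inner vertices, then every embedded balanced system
has boundedly many vertices of degree at least three. -/
lemma bound {U : Finset V} {n : ℕ} (H : ∀ P, Nice U P → (inner U P).card ≤ n)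
    {E : Finset (Sym2 V)} (hE : Emb E) (hB : Bal U E) (X : Finset V)
    (hX : ∀ v ∈ X, 3 ≤ (nbr E v).card) :
    X.card ≤ (2 ^ (n + U.card + 1).choose 2 * (n + U.card + 1).choose 2) ^ 2 := by
  obtain ⟨D, k1, k2, k3⟩ := decomp _ E le_rfl hE hB
  have hl := fun P : D => exists_label U P.1 (H _ (k1 _ P.2).1)
  choose l x h1 h2 h3 h4 using hl
  set Λ := ((range n).disjSum U).sym2 with hΛ
  have hc : Λ.card = (n + U.card + 1).choose 2 := by
    rw [hΛ, card_sym2, card_disjSum, card_range]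
  have hsub : ∀ P : D, P.1.image (Sym2.map (l P)) ⊆ Λ := by
    intro P t ht
    obtain ⟨e, he, rfl⟩ := mem_image.1 ht
    induction e using Sym2.ind with
    | h a b =>
      rw [Sym2.map_mk, hΛ, mk_mem_sym2_iff]
      exact ⟨h4 P a (mem_verts.2 ⟨_, he, Sym2.mem_mk_left _ _⟩),
        h4 P b (mem_verts.2 ⟨_, he, Sym2.mem_mk_right _ _⟩)⟩
  have hD : D.card ≤ 2 ^ Λ.card := by
    rw [← card_powerset, ← card_attach (s := D)]
    refine card_le_card_of_injOn (fun P => P.1.image (Sym2.map (l P)))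
      (fun P _ => mem_coe.2 (mem_powerset.2 (hsub P))) fun P _ Q _ h => ?_
    by_contra hne
    obtain ⟨u, hu, w, w', a1, a2, a3⟩ := same_type (k1 _ P.2).1.emb (k1 _ P.2).1.bal
      (k1 _ Q.2).1.emb (k1 _ Q.2).1.bal (k1 _ P.2).2.1 (h1 P) (h2 P) (h3 P) (h1 Q) (h2 Q) (h3 Q) h
    exact k3 _ P.2 _ Q.2 (fun hc => hne (Subtype.ext hc)) u hu w w' a1 a2 a3
  have hZ : (D.biUnion id).card ≤ D.card * Λ.card := by
    refine card_biUnion_le_card_mul _ _ _ fun P hP => ?_
    have := card_le_card (hsub ⟨P, hP⟩)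
    rwa [card_image_of_injective _ (map_label_inj (h1 ⟨P, hP⟩))] at this
  refine (cross_count (Z := D.biUnion id) hE (fun e he => ?_) X hX).trans ?_
  · obtain ⟨P, hP, e', he', h⟩ := k2 e he
    exact ⟨e', mem_biUnion.2 ⟨P, hP, he'⟩, h⟩
  · rw [← hc]
    exact Nat.pow_le_pow_left (hZ.trans (Nat.mul_le_mul_right _ hD)) 2

end Pool.Agent.P.MP_b67b84_gt.Irr
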