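import Pool.Agent.P.MP_b67b84_gt.IrrB

/-! At least four edges at the terminals; splitting terminals; back to geodesic nets. -/

namespace Pool.Agent.P.MP_b67b84_gt.Irr

open Classical Finset
open scoped RealInnerProductSpace

/-- terminals adjacent to `v` -/
noncomputable def tn (U : Finset V) (E : Finset (Sym2 V)) (v : V) : Finset V :=
  (nbr E v).filter fun u => u ∈ U

lemma nbr_inner {U : Finset V} {E : Finset (Sym2 V)} {v x : V} (hx : x ∈ nbr E v) (hU : x ∉ U) :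
    x ∈ inner U E :=
  mem_inner.2 ⟨hU, v, by rw [Sym2.eq_swap]; exact mem_nbr.1 hx⟩

lemma far_term {U : Finset V} {E : Finset (Sym2 V)} (hE : Emb E) (hB : Bal U E) {v o : V}
    (hv : v ∈ inner U E) (hfar : ∀ x ∈ inner U E, ‖x - o‖ ≤ ‖v - o‖) : 1 ≤ (tn U E v).card := by
  by_contra hc
  have h0 : tn U E v = ∅ := card_eq_zero.1 (by omega)
  obtain ⟨hvU, w, hw⟩ := mem_inner.1 hv
  have hb := hB v hvU
  rw [sum_F] at hb
  have h1 : ∑ x ∈ nbr E v, ⟪v - o, unit (x - v)⟫ = 0 := by rw [← inner_sum, hb, inner_zero_right]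
  refine absurd h1 (sum_neg (fun x hx => ?_) ⟨w, mem_nbr.2 hw⟩).ne
  have hxU : x ∉ U := fun h => by
    have : x ∈ tn U E v := mem_filter.2 ⟨hx, h⟩
    rw [h0] at this
    exact notMem_empty _ this
  have h2 := hfar x (nbr_inner hx hxU)
  have h3 : 0 < ‖x - v‖ := norm_pos_iff.2 (sub_ne_zero.2 (hE.ne (mem_nbr.1 hx)).symm)
  have h4 : ‖x - o‖ ^ 2 = ‖v - o‖ ^ 2 + 2 * ⟪v - o, x - v⟫ + ‖x - v‖ ^ 2 := by
    rw [← norm_add_sq_real]; congr 2; abel
  have h5 : ‖x - o‖ ^ 2 ≤ ‖v - o‖ ^ 2 := pow_le_pow_left₀ (norm_nonneg _) h2 2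
  have h6 : ⟪v - o, x - v⟫ < 0 := by nlinarith [sq_pos_of_pos h3]
  rw [unit, real_inner_smul_right]
  exact mul_neg_of_pos_of_neg (inv_pos.2 h3) h6

lemma side_term {U : Finset V} {E : Finset (Sym2 V)} (hE : Emb E) (hB : Bal U E) {v nn x0 : V}
    (hx0 : x0 ∈ inner U E) (h0 : 0 < ⟪nn, x0 - v⟫) :
    ∃ l ∈ inner U E, 0 < ⟪nn, l - v⟫ ∧ 1 ≤ (tn U E l).card := by
  obtain ⟨w, -, hw⟩ := exists_max_image (inner U E) (fun x => ‖x - v‖) ⟨x0, hx0⟩
  set R : ℝ := (‖w - v‖ ^ 2 + 1) / ⟪nn, x0 - v⟫ with hR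
  have hR0 : 0 < R := by positivity
  have hR1 : R * ⟪nn, x0 - v⟫ = ‖w - v‖ ^ 2 + 1 := by rw [hR]; field_simp
  obtain ⟨l, hl, hmax⟩ := exists_max_image (inner U E) (fun x => ‖x - (v - R • nn)‖) ⟨x0, hx0⟩
  refine ⟨l, hl, ?_, far_term hE hB hl hmax⟩
  have e : ∀ x : V, ‖x - (v - R • nn)‖ ^ 2 =
      ‖R • nn‖ ^ 2 + 2 * (R * ⟪nn, x - v⟫) + ‖x - v‖ ^ 2 := by
    intro x
    rw [← real_inner_smul_left, ← norm_add_sq_real]; congr 2; abel
  have h1 : ‖x0 - (v - R • nn)‖ ^ 2 ≤ ‖l - (v - R • nn)‖ ^ 2 :=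
    pow_le_pow_left₀ (norm_nonneg _) (hmax x0 hx0) 2
  have h2 : ‖l - v‖ ^ 2 ≤ ‖w - v‖ ^ 2 := pow_le_pow_left₀ (norm_nonneg _) (hw l hl) 2
  rw [e, e, hR1] at h1
  have h3 : 0 < R * ⟪nn, l - v⟫ := by nlinarith [sq_nonneg ‖x0 - v‖, sq_nonneg ‖w - v‖]
  exact (mul_pos_iff_of_pos_left hR0).1 h3

lemma cone_term {U : Finset V} {E : Finset (Sym2 V)} (hE : Emb E) (hB : Bal U E) (hR : Red U E)
    {v : V} (hv : v ∈ inner U E)
    (hc : ∀ x ∈ inner U E, ∀ y ∈ inner U E, 0 ≤ ⟪x - v, y - v⟫) : 2 ≤ (tn U E v).card := by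
  by_contra hlt
  have h3 := three_le hE hB hR hv
  set I := (nbr E v).filter fun u => u ∉ U with hI
  have hcard : (tn U E v).card + I.card = (nbr E v).card := card_filter_add_card_filter_not _
  have hb := hB v (mem_inner.1 hv).1
  rw [sum_F, ← sum_filter_add_sum_filter_not _ (fun u => u ∈ U)] at hb
  have h1 : ‖∑ x ∈ I, unit (x - v)‖ ≤ 1 := by
    rw [eq_neg_of_add_eq_zero_right hb, norm_neg]
    refine (norm_sum_le _ _).trans ((sum_le_card_nsmul _ _ 1 fun x _ => norm_unit_le _).trans ?_)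
    have : (tn U E v).card ≤ 1 := by omega
    rw [nsmul_eq_mul, mul_one]
    exact_mod_cast this
  have hpos : ∀ x ∈ I, ∀ y ∈ I, 0 ≤ ⟪unit (x - v), unit (y - v)⟫ := by
    intro x hx y hy
    rw [unit, unit, real_inner_smul_left, real_inner_smul_right]
    have := hc x (nbr_inner (mem_filter.1 hx).1 (mem_filter.1 hx).2) y
      (nbr_inner (mem_filter.1 hy).1 (mem_filter.1 hy).2)
    positivity
  have h2 : (I.card : ℝ) ≤ ‖∑ x ∈ I, unit (x - v)‖ ^ 2 := by
    rw [← real_inner_self_eq_norm_sq, sum_inner]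
    have := card_nsmul_le_sum I (fun x => ⟪unit (x - v), ∑ y ∈ I, unit (y - v)⟫) 1 fun x hx => by
      rw [inner_sum]
      refine le_trans ?_ (single_le_sum (hpos x hx) hx)
      rw [real_inner_self_eq_norm_sq,
        norm_unit (sub_ne_zero.2 (hE.ne (mem_nbr.1 (mem_filter.1 hx).1)).symm), one_pow]
    simpa using this
  have h4 : (2 : ℝ) ≤ I.card := by exact_mod_cast (by omega : 2 ≤ I.card)
  nlinarith [norm_nonneg (∑ x ∈ I, unit (x - v))]

lemma tn_sum {U : Finset V} {E : Finset (Sym2 V)} (Y : Finset V) :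
    ∑ v ∈ Y, (tn U E v).card ≤ ∑ u ∈ U, (nbr E u).card := by
  rw [← card_sigma, ← card_sigma]
  refine card_le_card_of_injOn (fun p => ⟨p.2, p.1⟩) ?_ ?_
  · rintro ⟨v, u⟩ h
    obtain ⟨-, h2⟩ := mem_sigma.1 (mem_coe.1 h)
    obtain ⟨h3, h4⟩ := mem_filter.1 h2
    exact mem_coe.2 (mem_sigma.2 ⟨h4, mem_nbr.2 (by rw [Sym2.eq_swap]; exact mem_nbr.1 h3)⟩)
  · rintro ⟨v, u⟩ - ⟨v', u'⟩ - h
    simp only [Sigma.mk.injEq, heq_eq_eq] at h
    rw [h.1, h.2]

lemma inner_two (a b : V) : ⟪a, b⟫ = a 0 * b 0 + a 1 * b 1 := by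
  simp [PiLp.inner_apply, Fin.sum_univ_two, mul_comm]

lemma four_term {U : Finset V} {E : Finset (Sym2 V)} (hE : Emb E) (hB : Bal U E) (hR : Red U E)
    (h2 : 2 ≤ (inner U E).card) : 4 ≤ ∑ u ∈ U, (nbr E u).card := by
  obtain ⟨a, ha, b, hb, hab⟩ := one_lt_card.1 h2
  obtain ⟨⟨v, w⟩, hvw, hmax⟩ := exists_max_image (inner U E ×ˢ inner U E)
    (fun p => ‖p.1 - p.2‖) ⟨(a, b), mem_product.2 ⟨ha, hb⟩⟩
  obtain ⟨hv, hw⟩ := mem_product.1 hvw
  simp only at hv hw hmax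
  have hm : ∀ x ∈ inner U E, ∀ y ∈ inner U E, ‖x - y‖ ≤ ‖v - w‖ := fun x hx y hy =>
    hmax (x, y) (mem_product.2 ⟨hx, hy⟩)
  have hpos : 0 < ‖v - w‖ := (norm_pos_iff.2 (sub_ne_zero.2 hab)).trans_le (hm a ha b hb)
  have hne : v ≠ w := sub_ne_zero.1 (norm_pos_iff.1 hpos)
  set nn : V := !₂[-(w - v) 1, (w - v) 0] with hnn
  have n0 : nn 0 = -(w 1 - v 1) := by simp [hnn]
  have n1 : nn 1 = w 0 - v 0 := by simp [hnn]
  have hwv : ⟪nn, w - v⟫ = 0 := by
    rw [inner_two, n0, n1]; simp only [PiLp.sub_apply]; ring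
  have cone : (∀ x ∈ inner U E, ∀ y ∈ inner U E, 0 ≤ ⟪nn, x - v⟫ * ⟪nn, y - v⟫) →
      4 ≤ ∑ u ∈ U, (nbr E u).card := by
    intro h
    have key : ∀ p q : V, ‖p - q‖ = ‖v - w‖ → p ∈ inner U E → q ∈ inner U E →
        (∀ x y : V, ⟪x - p, y - p⟫ * ‖p - q‖ ^ 2 =
          ⟪q - p, x - p⟫ * ⟪q - p, y - p⟫ + ⟪nn, x - v⟫ * ⟪nn, y - v⟫) → 2 ≤ (tn U E p).card := by
      intro p q hpq hp hq hid
      refine cone_term hE hB hR hp fun x hx y hy => ?_
      have k : ∀ x ∈ inner U E, 0 ≤ ⟪q - p, x - p⟫ := by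
        intro x hx
        have h4 : ‖x - q‖ ^ 2 = ‖q - p‖ ^ 2 - 2 * ⟪q - p, x - p⟫ + ‖x - p‖ ^ 2 := by
          rw [← norm_sub_sq_real, ← norm_neg]; congr 2; abel
        have h5 : ‖x - q‖ ^ 2 ≤ ‖q - p‖ ^ 2 := by
          rw [norm_sub_rev q p, hpq]
          exact pow_le_pow_left₀ (norm_nonneg _) (hm x hx q hq) 2
        nlinarith [sq_nonneg ‖x - p‖]
      have := add_nonneg (mul_nonneg (k x hx) (k y hy)) (h x hx y hy)
      rw [← hid, hpq] at this
      exact nonneg_of_mul_nonneg_left this (by positivity)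
    have k1 := key v w rfl hv hw fun x y => by
      rw [← real_inner_self_eq_norm_sq]
      simp only [inner_two, n0, n1, PiLp.sub_apply]; ring
    have k2 := key w v (norm_sub_rev _ _) hw hv fun x y => by
      rw [← real_inner_self_eq_norm_sq]
      simp only [inner_two, n0, n1, PiLp.sub_apply]; ring
    have := tn_sum (U := U) (E := E) {v, w}
    rw [sum_pair hne] at this
    omega
  by_cases c1 : ∀ x ∈ inner U E, ⟪nn, x - v⟫ ≤ 0
  · exact cone fun x hx y hy => mul_nonneg_of_nonpos_of_nonpos (c1 x hx) (c1 y hy)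
  by_cases c2 : ∀ x ∈ inner U E, ⟪-nn, x - v⟫ ≤ 0
  · refine cone fun x hx y hy => ?_
    have := mul_nonneg_of_nonpos_of_nonpos (c2 x hx) (c2 y hy)
    rwa [inner_neg_left, inner_neg_left, neg_mul_neg] at this
  push Not at c1 c2
  obtain ⟨x1, hx1, c1⟩ := c1
  obtain ⟨x2, hx2, c2⟩ := c2
  obtain ⟨l, hl, l1, l2⟩ := side_term hE hB hx1 c1
  obtain ⟨r, hr, r1, r2⟩ := side_term hE hB hx2 c2
  rw [inner_neg_left] at r1
  have t1 := far_term hE hB hv fun x hx => hm x hx w hw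
  have t2 := far_term (o := v) hE hB hw fun x hx => by
    rw [norm_sub_rev w v]; exact hm x hx v hv
  have d1 : v ≠ l := by rintro rfl; simp at l1
  have d2 : v ≠ r := by rintro rfl; simp at r1
  have d3 : w ≠ l := by rintro rfl; linarith
  have d4 : w ≠ r := by rintro rfl; linarith
  have d5 : l ≠ r := by rintro rfl; linarith
  have := tn_sum (U := U) (E := E) {v, w, l, r}
  rw [sum_insert (by simp [hne, d1, d2]), sum_insert (by simp [d3, d4]), sum_pair d5] at this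
  omega

lemma no_UU {U : Finset V} {E : Finset (Sym2 V)} (hI : IsIrr U E) (hne : (inner U E).Nonempty)
    {u u' : V} (hu : u ∈ U) (hu' : u' ∈ U) : s(u, u') ∉ E := by
  intro h
  rcases hI {s(u, u')} (singleton_subset_iff.2 h) (fun v hv => by
    rw [sum_singleton]
    refine F_not_mem fun hc => ?_
    rcases Sym2.mem_iff.1 hc with rfl | rfl
    · exact hv hu
    · exact hv hu') with h1 | h1
  · exact singleton_ne_empty _ h1
  · obtain ⟨v, hv⟩ := hne
    obtain ⟨hvU, w, hw⟩ := mem_inner.1 hv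
    rw [← h1, mem_singleton] at hw
    rcases Sym2.eq_iff.1 hw with ⟨rfl, -⟩ | ⟨rfl, -⟩
    · exact hvU hu
    · exact hvU hu'

lemma split_step {U : Finset V} {E : Finset (Sym2 V)} (h : Nice U E)
    (hT : ∀ u ∈ U, (nbr E u).Nonempty) (h2 : 2 ≤ (inner U E).card) (h4 : U.card < 4) :
    ∃ U' E', U'.card = U.card + 1 ∧ Nice U' E' ∧ (∀ u ∈ U', (nbr E' u).Nonempty) ∧
      inner U E ⊆ inner U' E' := by
  have hE := h.emb
  obtain ⟨u, hu, hu2⟩ : ∃ u ∈ U, 1 < (nbr E u).card := by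
    by_contra hc
    push Not at hc
    have h5 := four_term hE h.bal h.red h2
    have h6 := sum_le_card_nsmul U (fun u => (nbr E u).card) 1 hc
    simp only [smul_eq_mul, mul_one] at h6
    omega
  obtain ⟨v, hv, v', hv', hvv⟩ := one_lt_card.1 hu2
  rw [mem_nbr] at hv hv'
  have huv : u ≠ v := hE.ne hv
  have hvU : v ∉ U := fun hc => no_UU h.irr (card_pos.1 (by omega)) hu hc hv
  set m : V := midpoint ℝ u v with hm
  have hms : m ∈ segment ℝ u v := midpoint_mem_segment u v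
  have hmu : m ≠ u := fun hc => huv ((midpoint_eq_left_iff ℝ).1 hc)
  have hmv : m ≠ v := fun hc => huv ((midpoint_eq_right_iff ℝ).1 hc)
  have hme : ∀ e ∈ E, m ∉ e := by
    intro e he hc
    have : m ∈ s(u, v) := by
      by_cases h1 : s(u, v) = e
      · rwa [h1]
      · exact hE.meet _ hv e he h1 m hms (mem_seg_of_mem hc)
    rcases Sym2.mem_iff.1 this with h1 | h1
    · exact hmu h1
    · exact hmv h1
  have hmU : m ∉ U := fun hc => by
    obtain ⟨w, hw⟩ := hT m hc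
    exact hme _ (mem_nbr.1 hw) (Sym2.mem_mk_left _ _)
  have hEq : E.erase s(u, v) ∪ {s(u, v)} = E := by
    rw [union_comm, ← insert_eq, insert_erase hv]
  have hd : Disjoint (E.erase s(u, v)) {s(u, v)} := disjoint_singleton_right.2 (notMem_erase _ _)
  have hnew : s(m, v) ∉ E.erase s(u, v) := fun hc =>
    hme _ (mem_of_mem_erase hc) (Sym2.mem_mk_left _ _)
  have hsub : segment ℝ m v ⊆ segment ℝ u v := seg_sub hms (right_mem_segment ℝ _ _)
  have hF : ∀ z ∉ insert m U, F s(m, v) z = ∑ d ∈ {s(u, v)}, F d z := by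
    intro z hz
    rw [mem_insert, not_or] at hz
    have : u ≠ z := fun hc => hz.2 (hc ▸ hu)
    rw [sum_singleton, F_mk, F_mk, if_neg (Ne.symm hz.1), if_neg this,
      unit_of_mem_seg (v := v) (e := u) (by rwa [segment_symm]) hmv]
  have hmeet : ∀ e ∈ E.erase s(u, v), ∀ z ∈ seg e, z ∈ segment ℝ m v → z ∈ e ∧ z ∈ s(m, v) := by
    intro e he z hz hz'
    obtain ⟨h5, h6⟩ := mem_erase.1 he
    refine ⟨hE.meet e h6 _ hv h5 z hz (hsub hz'), ?_⟩
    rcases Sym2.mem_iff.1 (hE.meet _ hv e h6 h5.symm z (hsub hz') hz) with h7 | h7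
    · subst h7
      exact absurd (seg_both hms (right_mem_segment ℝ _ _) hz') hmu.symm
    · rw [h7]; exact Sym2.mem_mk_right _ _
  have hn1 : ∀ z, z ≠ m → z ≠ u → z ≠ v → nbr (insert s(m, v) (E.erase s(u, v))) z = nbr E z := by
    intro z h5 h6 h7
    ext w
    simp [mem_nbr, h5, h6, h7]
  have hn2 : nbr (insert s(m, v) (E.erase s(u, v))) v = insert m ((nbr E v).erase u) := by
    ext w
    simp [mem_nbr, hmv.symm, huv.symm]
  have hn3 : (nbr (insert s(m, v) (E.erase s(u, v))) v).card = (nbr E v).card := by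
    have a1 : u ∈ nbr E v := mem_nbr.2 (by rwa [Sym2.eq_swap])
    rw [hn2, card_insert_of_notMem fun hc =>
      hme _ (mem_nbr.1 (mem_of_mem_erase hc)) (Sym2.mem_mk_right _ _), card_erase_add_one a1]
  refine ⟨insert m U, insert s(m, v) (E.erase s(u, v)), card_insert_of_notMem hmU,
    ⟨⟨?_, ?_⟩, ?_, ?_, ?_⟩, ?_, ?_⟩
  · intro e he
    rcases mem_insert.1 he with rfl | he
    · exact fun hc => hmv (Sym2.mk_isDiag_iff.1 hc)
    · exact hE.nd e (mem_of_mem_erase he)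
  · intro e he e' he' hne' z hz hz'
    rcases mem_insert.1 he with rfl | he <;> rcases mem_insert.1 he' with rfl | he'
    · exact absurd rfl hne'
    · exact (hmeet e' he' z hz' hz).2
    · exact (hmeet e he z hz hz').1
    · exact hE.meet e (mem_of_mem_erase he) e' (mem_of_mem_erase he') hne' z hz hz'
  · exact bal_replace hd hnew (subset_insert _ _) hF (by rw [hEq]; exact h.bal)
  · refine irr_replace (U := U) hd (singleton_nonempty _) hF (fun z h5 h6 e he => ?_)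
      (by rw [hEq]; exact h.irr)
    rw [hEq] at he
    rcases mem_insert.1 h5 with rfl | h5
    · exact F_not_mem (hme e he)
    · exact absurd h5 h6
  · intro z hz
    rw [mem_insert, not_or] at hz
    by_cases h5 : z = v
    · rw [h5, hn3]; exact h.red v hvU
    · rw [hn1 z hz.1 (fun hc => hz.2 (hc ▸ hu)) h5]; exact h.red z hz.2
  · intro z hz
    rcases mem_insert.1 hz with rfl | hz
    · exact ⟨v, mem_nbr.2 (mem_insert_self _ _)⟩
    by_cases h5 : z = u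
    · refine ⟨v', mem_nbr.2 (mem_insert_of_mem (mem_erase.2 ⟨?_, h5 ▸ hv'⟩))⟩
      rw [h5]
      exact fun hc => hvv (Sym2.congr_right.1 hc).symm
    · rw [hn1 z (fun hc => hmU (hc ▸ hz)) h5 (fun hc => hvU (hc ▸ hz))]
      exact hT z hz
  · intro z hz
    obtain ⟨h5, w, hw⟩ := mem_inner.1 hz
    have h6 : z ≠ m := fun hc => hme _ hw (hc ▸ Sym2.mem_mk_left _ _)
    refine mem_inner.2 ⟨by simp [h5, h6], ?_⟩
    by_cases h7 : z = v
    · exact ⟨m, by rw [h7, Sym2.eq_swap]; exact mem_insert_self _ _⟩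
    · exact ⟨w, mem_nbr.1 (by rw [hn1 z h6 (fun hc => h5 (hc ▸ hu)) h7]; exact mem_nbr.2 hw)⟩

lemma split_all (k : ℕ) : ∀ {U : Finset V} {E : Finset (Sym2 V)}, Nice U E →
    (∀ u ∈ U, (nbr E u).Nonempty) → 2 ≤ (inner U E).card → U.card + k = 4 →
    ∃ U' E', U'.card = 4 ∧ Nice U' E' ∧ (∀ u ∈ U', (nbr E' u).Nonempty) ∧
      inner U E ⊆ inner U' E' := by
  induction k with
  | zero => exact fun h hT _ h4 => ⟨_, _, h4, h, hT, Subset.rfl⟩
  | succ k ih =>
    intro U E h hT h2 h4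
    obtain ⟨U', E', a1, a2, a3, a4⟩ := split_step h hT h2 (by omega)
    obtain ⟨U'', E'', b1, b2, b3, b4⟩ := ih a2 a3 (h2.trans (card_le_card a4)) (by omega)
    exact ⟨U'', E'', b1, b2, b3, a4.trans b4⟩

lemma touched {U : Finset V} {E : Finset (Sym2 V)} (h : Nice U E) :
    Nice (U.filter fun u => (nbr E u).Nonempty) E ∧
      inner U E ⊆ inner (U.filter fun u => (nbr E u).Nonempty) E := by
  have h0 : ∀ v ∉ U.filter fun u => (nbr E u).Nonempty, v ∈ U → nbr E v = ∅ := fun v hv hU =>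
    not_nonempty_iff_eq_empty.1 fun hc => hv (mem_filter.2 ⟨hU, hc⟩)
  refine ⟨⟨h.emb, fun v hv => ?_, fun S hS hB => h.irr S hS fun v hv => hB v fun hc =>
    hv (mem_filter.1 hc).1, fun v hv => ?_⟩, sdiff_subset_sdiff Subset.rfl (filter_subset _ _)⟩
  · by_cases hU : v ∈ U
    · rw [sum_F, h0 v hv hU, sum_empty]
    · exact h.bal v hU
  · by_cases hU : v ∈ U
    · rw [h0 v hv hU]; simp
    · exact h.red v hU

end Pool.Agent.P.MP_b67b84_gt.Irr
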