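import Pool.Agent.P.MP_b67b84_gt.IrrC

/-! From arbitrarily large geodesic nets to arbitrarily large irreducible ones. -/

namespace Pool.Agent.P.MP_b67b84_gt.Irr

open Classical Finset

lemma from_net {U B : Finset V} {G : SimpleGraph V} (h : IsGeodesicNet U B G) :
    ∃ E, Emb E ∧ Bal U E ∧ ∀ v ∈ B, 3 ≤ (nbr E v).card := by
  set E := (U ∪ B).sym2.filter fun e => e ∈ G.edgeSet with hE
  have hm : ∀ a b, s(a, b) ∈ E ↔ G.Adj a b := fun a b => by
    rw [hE, mem_filter, mk_mem_sym2_iff, SimpleGraph.mem_edgeSet]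
    exact ⟨fun k => k.2, fun k => ⟨h.adj_mem a b k, k⟩⟩
  have hn : ∀ v, nbr E v = (U ∪ B).filter (G.Adj v) := fun v => by
    ext w
    rw [mem_nbr, hm, mem_filter]
    exact ⟨fun k => ⟨(h.adj_mem v w k).2, k⟩, fun k => k.2⟩
  refine ⟨E, ⟨fun e he => ?_, fun e he e' he' hne x hx hx' => ?_⟩, fun v hv => ?_, fun v hv => ?_⟩
  · exact G.not_isDiag_of_mem_edgeSet (mem_filter.1 he).2
  · induction e using Sym2.ind with
    | h a b =>
      induction e' using Sym2.ind with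
      | h c d =>
        exact Sym2.mem_iff.2 (h.edges_meet a b c d ((hm _ _).1 he) ((hm _ _).1 he') hne x
          ⟨hx, hx'⟩).1
  · rw [sum_F, hn]
    by_cases hB : v ∈ B
    · exact h.balanced v hB
    · refine sum_eq_zero fun w hw => ?_
      rcases mem_union.1 (h.adj_mem v w (mem_filter.1 hw).2).1 with k | k
      · exact absurd k hv
      · exact absurd k hB
  · rw [hn]; exact h.degree v hv

lemma to_net {U : Finset V} {E : Finset (Sym2 V)} (h : Nice U E)
    (hT : ∀ u ∈ U, (nbr E u).Nonempty) (hne : (inner U E).Nonempty) :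
    ∃ G : SimpleGraph V, IsGeodesicNet U (inner U E) G ∧ ∀ G' ≤ G,
      (∀ v ∈ inner U E, ∑ w ∈ (U ∪ inner U E).filter (G'.Adj v), ‖w - v‖⁻¹ • (w - v) = 0) →
        G' = ⊥ ∨ G' = G := by
  have hE := h.emb
  obtain ⟨G, hm⟩ : ∃ G : SimpleGraph V, ∀ a b, G.Adj a b ↔ s(a, b) ∈ E :=
    ⟨SimpleGraph.fromEdgeSet (E : Set (Sym2 V)), fun a b => by
      rw [SimpleGraph.fromEdgeSet_adj, mem_coe]
      exact ⟨fun k => k.1, fun k => ⟨k, hE.ne k⟩⟩⟩
  have hW : ∀ v, v ∈ U ∪ inner U E ↔ ∃ w, s(v, w) ∈ E := fun v => by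
    rw [mem_union, mem_inner]
    constructor
    · rintro (k | k)
      · obtain ⟨w, hw⟩ := hT v k
        exact ⟨w, mem_nbr.1 hw⟩
      · exact k.2
    · intro k
      by_cases hU : v ∈ U
      · exact Or.inl hU
      · exact Or.inr ⟨hU, k⟩
  have hsub : ∀ G' ≤ G, ∀ v, nbr (E.filter fun e => e ∈ G'.edgeSet) v =
      (U ∪ inner U E).filter (G'.Adj v) := by
    intro G' hG' v
    ext w
    rw [mem_nbr, mem_filter, mem_filter, SimpleGraph.mem_edgeSet]
    exact ⟨fun k => ⟨(hW w).2 ⟨v, by rw [Sym2.eq_swap]; exact k.1⟩, k.2⟩,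
      fun k => ⟨(hm _ _).1 (hG' k.2), k.2⟩⟩
  have hirr : ∀ G' ≤ G,
      (∀ v ∈ inner U E, ∑ w ∈ (U ∪ inner U E).filter (G'.Adj v), ‖w - v‖⁻¹ • (w - v) = 0) →
        G' = ⊥ ∨ G' = G := by
    intro G' hG' hb
    rcases h.irr (E.filter fun e => e ∈ G'.edgeSet) (filter_subset _ _) (fun v hv => by
      rw [sum_F, hsub G' hG']
      by_cases hB : v ∈ inner U E
      · exact hb v hB
      · exact sum_eq_zero fun w hw => absurd
          (mem_inner.2 ⟨hv, w, (hm _ _).1 (hG' (mem_filter.1 hw).2)⟩) hB) with k | k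
    · left
      refine le_bot_iff.1 fun a b hab => ?_
      have : s(a, b) ∈ E.filter fun e => e ∈ G'.edgeSet :=
        mem_filter.2 ⟨(hm _ _).1 (hG' hab), hab⟩
      rw [k] at this
      exact absurd this (notMem_empty _)
    · right
      refine le_antisymm hG' fun a b hab => ?_
      have := (hm _ _).1 hab
      rw [← k] at this
      exact (mem_filter.1 this).2
  have hn : ∀ v, nbr E v = (U ∪ inner U E).filter (G.Adj v) := fun v => by
    rw [← hsub G le_rfl, filter_true_of_mem]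
    intro e he
    induction e using Sym2.ind with
    | h a b => exact (hm _ _).2 he
  have hbal : ∀ v ∈ inner U E,
      ∑ w ∈ (U ∪ inner U E).filter (G.Adj v), ‖w - v‖⁻¹ • (w - v) = 0 := fun v hv => by
    have := h.bal v (mem_inner.1 hv).1
    rwa [sum_F, hn] at this
  refine ⟨G, ⟨disjoint_sdiff, fun v w k => ⟨(hW v).2 ⟨w, (hm _ _).1 k⟩,
    (hW w).2 ⟨v, (hm _ _).1 k.symm⟩⟩, ?_, ?_, ?_, ?_, hbal, ?_⟩, hirr⟩
  · intro o ho w hw
    obtain ⟨G', hadj⟩ : ∃ G' : SimpleGraph V, ∀ a b, G'.Adj a b ↔ G.Adj a b ∧ G.Reachable o a :=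
      ⟨{ Adj := fun a b => G.Adj a b ∧ G.Reachable o a
         symm := ⟨fun a b k => ⟨k.1.symm, k.2.trans k.1.reachable⟩⟩
         loopless := ⟨fun a k => G.irrefl k.1⟩ }, fun a b => Iff.rfl⟩
    rcases hirr G' (fun a b k => ((hadj a b).1 k).1) (fun v hv => by
      by_cases k : G.Reachable o v
      · rw [← hbal v hv]
        exact sum_congr (filter_congr fun w _ => by simp [hadj, k]) fun _ _ => rfl
      · exact sum_eq_zero fun w hw => absurd ((hadj _ _).1 (mem_filter.1 hw).2).2 k) with k | k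
    · obtain ⟨x, hx⟩ := (hW o).1 ho
      have : G'.Adj o x := (hadj _ _).2 ⟨(hm _ _).2 hx, SimpleGraph.Reachable.refl _⟩
      rw [k] at this
      exact absurd this (by simp)
    · obtain ⟨x, hx⟩ := (hW w).1 hw
      have : G'.Adj w x := by rw [k]; exact (hm _ _).2 hx
      exact ((hadj _ _).1 this).2
  · intro a b hab v hv hs
    obtain ⟨w, hw⟩ := (hW v).1 hv
    by_cases k : s(a, b) = s(v, w)
    · exact Sym2.mem_iff.1 (k ▸ Sym2.mem_mk_left v w)
    · exact Sym2.mem_iff.1 (hE.meet _ ((hm _ _).1 hab) _ hw k v hs (left_mem_segment ℝ _ _))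
  · intro a b c d hab hcd hne' x hx
    exact ⟨Sym2.mem_iff.1 (hE.meet _ ((hm _ _).1 hab) _ ((hm _ _).1 hcd) hne' x hx.1 hx.2),
      Sym2.mem_iff.1 (hE.meet _ ((hm _ _).1 hcd) _ ((hm _ _).1 hab) hne'.symm x hx.2 hx.1)⟩
  · intro v hv
    rw [← hn]
    exact three_le hE h.bal h.red hv
  · intro u hu u' hu' k
    exact no_UU h.irr hne hu hu' ((hm _ _).1 k)

/-- a subnet with the same unbalanced vertices is balanced at all of `B` -/
lemma subnet_eq {U B : Finset V} {G : SimpleGraph V} (h : IsGeodesicNet U B G) (hU : 1 < U.card)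
    (hI : ∀ G' ≤ G, (∀ v ∈ B, ∑ w ∈ (U ∪ B).filter (G'.Adj v), ‖w - v‖⁻¹ • (w - v) = 0) →
      G' = ⊥ ∨ G' = G) {B' : Finset V} {G' : SimpleGraph V} (hG : G' ≤ G)
    (h' : IsGeodesicNet U B' G') : G' = G := by
  rcases hI G' hG (fun v hv => by
    have e : (U ∪ B).filter (G'.Adj v) = (U ∪ B').filter (G'.Adj v) := by
      ext w
      rw [mem_filter, mem_filter]
      exact ⟨fun k => ⟨(h'.adj_mem v w k.2).2, k.2⟩, fun k => ⟨(h.adj_mem v w (hG k.2)).2, k.2⟩⟩
    rw [e]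
    by_cases hB : v ∈ B'
    · exact h'.balanced v hB
    · refine sum_eq_zero fun w hw => ?_
      rcases mem_union.1 (h'.adj_mem v w (mem_filter.1 hw).2).1 with k | k
      · exact absurd hv (disjoint_left.1 h.disjoint k)
      · exact absurd k hB) with k | k
  · obtain ⟨a, ha, b, hb, hab⟩ := one_lt_card.1 hU
    have := h'.connected a (mem_union_left _ ha) b (mem_union_left _ hb)
    rw [k, SimpleGraph.reachable_bot] at this
    exact absurd this hab
  · exact k

theorem irreducible_of_unbounded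
    (H : ∀ N : ℕ, ∃ (U B : Finset V) (G : SimpleGraph V),
      IsGeodesicNet U B G ∧ U.card = 4 ∧ N ≤ B.card) (N : ℕ) :
    ∃ (U B : Finset V) (G : SimpleGraph V), IsGeodesicNet U B G ∧ U.card = 4 ∧ N ≤ B.card ∧
      ∀ G' ≤ G, (∀ v ∈ B, ∑ w ∈ (U ∪ B).filter (G'.Adj v), ‖w - v‖⁻¹ • (w - v) = 0) →
        G' = ⊥ ∨ G' = G := by
  obtain ⟨U, B, G, h, hU, hB⟩ :=
    H ((2 ^ (N + 1 + 4 + 1).choose 2 * (N + 1 + 4 + 1).choose 2) ^ 2 + 1)
  obtain ⟨E, hE, hEB, hd⟩ := from_net h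
  obtain ⟨P, hP, hPc⟩ : ∃ P, Nice U P ∧ N + 1 < (inner U P).card := by
    by_contra hc
    push Not at hc
    have := bound hc hE hEB B hd
    rw [hU] at this
    omega
  obtain ⟨k1, k2⟩ := touched hP
  have k3 := card_le_card k2
  have k4 : (U.filter fun u => (nbr P u).Nonempty).card ≤ 4 := hU ▸ card_filter_le _ _
  obtain ⟨U', E', a1, a2, a3, a4⟩ := split_all (4 - (U.filter fun u => (nbr P u).Nonempty).card) k1
    (fun u hu => (mem_filter.1 hu).2) (by omega) (by omega)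
  have a5 := card_le_card a4
  obtain ⟨G', b1, b2⟩ := to_net a2 a3 (card_pos.1 (by omega))
  exact ⟨U', _, G', b1, a1, by omega, b2⟩

end Pool.Agent.P.MP_b67b84_gt.Irr
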