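import Pool.Agent.P.MP_b67b84_gt.Defs

namespace Pool.Agent.P.MP_b67b84_gt

open Classical in
/-- `IsIrreducible U B G`: the net with unbalanced vertices `U`, balanced vertices `B` and graph `G`
has no proper subnet. -/
structure IsIrreducible (U B : Finset (EuclideanSpace ℝ (Fin 2)))
    (G : SimpleGraph (EuclideanSpace ℝ (Fin 2))) : Prop where
  /-- no subgraph formed by a proper subset of the edges is a geodesic net with the same
  unbalanced set -/
  no_subnet : ∀ (B' : Finset (EuclideanSpace ℝ (Fin 2)))
    (G' : SimpleGraph (EuclideanSpace ℝ (Fin 2))), G' ≤ G → IsGeodesicNet U B' G' → G' = G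
  /-- a set of edges whose unit vectors sum to zero at every point of `B` is empty or everything -/
  no_balanced_part : ∀ G' : SimpleGraph (EuclideanSpace ℝ (Fin 2)), G' ≤ G →
    (∀ v ∈ B, ∑ w ∈ (U ∪ B).filter (G'.Adj v), ‖w - v‖⁻¹ • (w - v) = 0) → G' = ⊥ ∨ G' = G

end Pool.Agent.P.MP_b67b84_gt
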