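import Pool.Agent.P.MP_b67b84_gt.Good

namespace Pool.Agent.P.MP_b67b84_gt

open Complex

theorem planarise_c {ι : Type*} [Fintype ι] (A B : ι → ℂ) (U : Finset ℂ) (h1 : ∀ i, A i ≠ B i)
    (h2 : ∀ i k, i ≠ k → (segment ℝ (A i) (B i) ∩ segment ℝ (A k) (B k)).Subsingleton)
    (h3 : ∀ ψ : ℂ → ℝ, (∀ u ∈ U, ψ u = 0) → ∑ i, (ψ (A i) - ψ (B i)) • unit (B i - A i) = 0)
    (h4 : ∀ v ∉ U, (∃ i, v = A i ∨ v = B i) → ∃ i j k, i ≠ j ∧ i ≠ k ∧ j ≠ k ∧
      (v = A i ∨ v = B i) ∧ (v = A j ∨ v = B j) ∧ (v = A k ∨ v = B k))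
    (o : ℂ) (h5 : ∀ i, Relation.EqvGen (fun x y => ∃ i, x = A i ∧ y = B i) o (A i))
    (h6 : ∀ u ∈ U, ∃ i, u = A i ∨ u = B i)
    (h7 : ∀ i, ∀ u ∈ U, ∀ u' ∈ U, u ∈ segment ℝ (A i) (B i) → u' ∈ segment ℝ (A i) (B i) →
      u = u') (T : Finset ℂ) (hT : ∀ v ∈ T, v ∉ U ∧ ∃ i, v = A i ∨ v = B i) :
    ∃ (U' B' : Finset (EuclideanSpace ℝ (Fin 2))) (G : SimpleGraph (EuclideanSpace ℝ (Fin 2))),
      IsGeodesicNet U' B' G ∧ U'.card = U.card ∧ T.card ≤ B'.card := by
  let e : ℂ ≃ₗᵢ[ℝ] EuclideanSpace ℝ (Fin 2) := Complex.orthonormalBasisOneI.repr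
  have hseg : ∀ x a b, e x ∈ segment ℝ (e a) (e b) ↔ x ∈ segment ℝ a b := by
    intro x a b
    constructor
    · intro h
      obtain ⟨t, h0, h1, ht⟩ := seg_param h
      rw [← map_sub, ← map_smul, ← map_add] at ht
      rw [e.injective ht]; exact mem_seg h0 h1
    · intro h
      obtain ⟨t, h0, h1, rfl⟩ := seg_param h
      rw [map_add, map_smul, map_sub]; exact mem_seg h0 h1
  have hunit : ∀ z, unit (e z) = e (unit z) := fun z => by rw [unit, unit, map_smul, e.norm_map]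
  have hmem : ∀ x, e x ∈ U.map e.toEquiv.toEmbedding ↔ x ∈ U := fun x =>
    Finset.mem_map' e.toEquiv.toEmbedding
  obtain ⟨B', G, hG, hB⟩ := planarise (fun i => e (A i)) (fun i => e (B i))
    (U.map e.toEquiv.toEmbedding) (fun i h => h1 i (e.injective h))
    (by
      intro i k hik x hx y hy
      obtain ⟨x, rfl⟩ := e.surjective x
      obtain ⟨y, rfl⟩ := e.surjective y
      rw [h2 i k hik ⟨(hseg _ _ _).1 hx.1, (hseg _ _ _).1 hx.2⟩
        ⟨(hseg _ _ _).1 hy.1, (hseg _ _ _).1 hy.2⟩])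
    (by
      intro ψ hψ
      have := congrArg e (h3 (fun z => ψ (e z)) (fun u hu => hψ _ ((hmem u).2 hu)))
      simp only [map_sum, map_smul, map_zero, ← hunit, map_sub] at this
      exact this)
    (by
      intro v hv h
      obtain ⟨v, rfl⟩ := e.surjective v
      simp only [e.injective.eq_iff] at h ⊢
      exact h4 v (fun hc => hv ((hmem v).2 hc)) h)
    (e o)
    (by
      have : ∀ x y, Relation.EqvGen (fun x y => ∃ i, x = A i ∧ y = B i) x y →
          Relation.EqvGen (fun x y => ∃ i, x = e (A i) ∧ y = e (B i)) (e x) (e y) := by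
        intro x y h
        induction h with
        | rel x y h =>
          obtain ⟨i, rfl, rfl⟩ := h
          exact .rel _ _ ⟨i, rfl, rfl⟩
        | refl x => exact .refl _
        | symm x y _ ih => exact .symm _ _ ih
        | trans x y z _ _ ih1 ih2 => exact .trans _ _ _ ih1 ih2
      exact fun i => this _ _ (h5 i))
    (by
      intro v hv
      obtain ⟨v, rfl⟩ := e.surjective v
      simp only [e.injective.eq_iff]
      exact h6 v ((hmem v).1 hv))
    (by
      intro i u hu u' hu' k1 k2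
      obtain ⟨u, rfl⟩ := e.surjective u
      obtain ⟨u', rfl⟩ := e.surjective u'
      rw [h7 i u ((hmem _).1 hu) u' ((hmem _).1 hu') ((hseg _ _ _).1 k1) ((hseg _ _ _).1 k2)])
  refine ⟨_, B', G, hG, Finset.card_map _, ?_⟩
  rw [← Finset.card_map e.toEquiv.toEmbedding]
  refine Finset.card_le_card fun v hv => ?_
  obtain ⟨w, hw, rfl⟩ := Finset.mem_map.1 hv
  obtain ⟨k1, i, k2⟩ := hT w hw
  refine hB _ (fun hc => k1 ((hmem w).1 hc)) ⟨i, ?_⟩
  exact k2.imp (congrArg e) (congrArg e)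

lemma unit_sg (n : ℕ) (z : ℂ) : unit (sg n • z) = sg n • unit z := by
  rcases sg_cases n with h | h <;> simp [h, unit_neg]

lemma unit_leaf {r : ℝ} (hr : r ^ 2 = 3) (d : ℂ) :
    unit (1 * d) + unit (-omb r * d) + unit (-om r * d) = 0 := by
  have n1 : ‖om r‖ = 1 := by
    rw [← sq_eq_sq₀ (norm_nonneg _) zero_le_one, Complex.sq_norm, normSq_apply]
    simp only [om]; linear_combination (1 / 4) * hr
  have n2 : ‖omb r‖ = 1 := by
    rw [← sq_eq_sq₀ (norm_nonneg _) zero_le_one, Complex.sq_norm, normSq_apply]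
    simp only [omb]; linear_combination (1 / 4) * hr
  have o1 : om r + omb r = 1 := by apply Complex.ext <;> simp [om, omb] <;> ring
  simp only [unit, norm_mul, norm_neg, n1, n2, one_mul, real_smul]
  linear_combination -(((‖d‖⁻¹ : ℝ) : ℂ) * d) * o1

lemma seg_lt {x y u : ℂ} (s s' c : ℝ) (hu : u ∈ segment ℝ x y) (hx : s * x.re + s' * x.im < c)
    (hy : s * y.re + s' * y.im < c) : s * u.re + s' * u.im < c := by
  obtain ⟨t, t', h0, h0', h1, rfl⟩ := hu
  simp only [add_re, add_im, smul_re, smul_im, smul_eq_mul]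
  have : t = 1 - t' := by linarith
  subst this
  rcases h0'.lt_or_eq with h | h
  · nlinarith [mul_pos h (sub_pos.2 hy), mul_nonneg h0 (sub_pos.2 hx).le]
  · subst h; linarith

/-- the open box containing the inner vertices -/
def Inn (a : ℝ) (b z : ℂ) : Prop := -a < z.re ∧ z.re < a ∧ -b.im < z.im ∧ z.im < b.im

/-- the four terminals -/
noncomputable def UU (a : ℝ) (b : ℂ) : Finset ℂ := {(a : ℂ), -(a : ℂ), b, -b}

lemma mem_UU {a : ℝ} {b u : ℂ} : u ∈ UU a b ↔ u = a ∨ u = -a ∨ u = b ∨ u = -b := by simp [UU]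

lemma Inn.sg {a : ℝ} {b z : ℂ} (h : Inn a b z) (n : ℕ) : Inn a b (sg n • z) := by
  obtain ⟨h1, h2, h3, h4⟩ := h
  rcases sg_cases n with h | h <;> refine ⟨?_, ?_, ?_, ?_⟩ <;> simp [h] <;> linarith

lemma sg_mem {a : ℝ} {b z : ℂ} (h : z ∈ UU a b) (n : ℕ) : sg n • z ∈ UU a b := by
  rw [mem_UU] at h ⊢
  rcases sg_cases n with h' | h' <;> rcases h with h | h | h | h <;> simp [h, h']

lemma Inn.notMem {a : ℝ} {b z : ℂ} (h : Inn a b z) : z ∉ UU a b := by
  obtain ⟨h1, h2, h3, h4⟩ := h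
  rw [mem_UU]
  rintro (h | h | h | h) <;> simp [h] at h1 h2 h3 h4

lemma term_on_seg {a : ℝ} {b x y u : ℂ} (hb : -a < b.re ∧ b.re < a ∧ 0 < b.im)
    (hx : x ∈ UU a b ∨ Inn a b x) (hy : Inn a b y) (hu : u ∈ UU a b)
    (h : u ∈ segment ℝ x y) : u = x := by
  obtain ⟨b1, b2, b3⟩ := hb
  obtain ⟨y1, y2, y3, y4⟩ := hy
  have ha : 0 < a := by linarith
  by_contra hne
  rw [mem_UU] at hu hx
  unfold Inn at hx
  rcases hu with rfl | rfl | rfl | rfl
  · have := seg_lt 1 0 a h (by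
      rcases hx with (h | h | h | h) | h
      · exact absurd h.symm hne
      all_goals simp [h]
      all_goals linarith) (by simpa using y2)
    simp at this
  · have := seg_lt (-1) 0 a h (by
      rcases hx with (h | h | h | h) | h
      · simp [h, ha]
      · exact absurd h.symm hne
      · simp [h]; linarith
      · simp [h]; linarith
      · linarith [h.1]) (by linarith)
    simp at this
  · have := seg_lt 0 1 u.im h (by
      rcases hx with (h | h | h | h) | h
      · simp [h, b3]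
      · simp [h, b3]
      · exact absurd h.symm hne
      · simp [h, b3]
      · linarith [h.2.2.2]) (by linarith)
    simp at this
  · have := seg_lt 0 (-1) b.im h (by
      rcases hx with (h | h | h | h) | h
      · simp [h, b3]
      · simp [h, b3]
      · simp [h, b3]
      · exact absurd h.symm hne
      · linarith [h.2.2.1]) (by linarith)
    simp at this

lemma card_UU {a : ℝ} {b : ℂ} (hb : -a < b.re ∧ b.re < a ∧ 0 < b.im) : (UU a b).card = 4 := by
  obtain ⟨b1, b2, b3⟩ := hb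
  refine Finset.card_eq_four.2 ⟨a, -a, b, -b, ?_, ?_, ?_, ?_, ?_, ?_, rfl⟩
  · intro h; have := congrArg re h; simp at this; linarith
  · intro h; have := congrArg im h; simp at this; linarith
  · intro h; have := congrArg im h; simp at this; linarith
  · intro h; have := congrArg im h; simp at this; linarith
  · intro h; have := congrArg im h; simp at this; linarith
  · intro h; have := congrArg im h; simp at this; linarith

/-- sources of all edges -/
noncomputable def src (a : ℝ) (b : ℂ) (N : ℕ) (ζ : ℕ → ℂ) : Fin (N + 1) ⊕ Fin N ⊕ Fin N × Fin 8 → ℂ :=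
  Sum.elim (fun i => sg i • ζ i) (Sum.elim (fun j => sg (j + 1) • ζ (j + 1))
    (fun x => sg (x.1 + 1) • AA a b (ζ (x.1 + 1)) x.2))

/-- targets of all edges -/
noncomputable def tgt (a : ℝ) (b : ℂ) (N : ℕ) (ζ wp wm : ℕ → ℂ) :
    Fin (N + 1) ⊕ Fin N ⊕ Fin N × Fin 8 → ℂ :=
  Sum.elim (fun i => sg (i + 1) • ζ (i + 1)) (Sum.elim (fun j => sg (j + 1) • (a : ℂ))
    (fun x => sg (x.1 + 1) • BB b (wp x.1) (wm x.1) x.2))

lemma cross_smul (s t : ℝ) (z w : ℂ) : cross (s • z) (t • w) = s * t * cross z w := by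
  simp only [cross, smul_re, smul_im, smul_eq_mul]; ring

lemma cross_smul_left (s : ℝ) (z w : ℂ) : cross (s • z) w = s * cross z w := by
  simp only [cross, smul_re, smul_im, smul_eq_mul]; ring

theorem net_of_good {r a : ℝ} {b : ℂ} {N : ℕ} {ζ : ℕ → ℂ} (G : Good r a b N ζ) (hN : 0 < N) :
    ∃ (U' B' : Finset (EuclideanSpace ℝ (Fin 2))) (G : SimpleGraph (EuclideanSpace ℝ (Fin 2))),
      IsGeodesicNet U' B' G ∧ U'.card = 4 ∧ N ≤ B'.card := by
  choose! wp wm hw using G.lf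
  choose! tt ht0 ht using hw
  have ha : 0 < a := by linarith [G.bb.1, G.bb.2.1]
  have hre : ∀ n ≤ N + 1, 0 < (ζ n).re := by
    intro n hn
    rcases n with _ | n
    · rw [G.z0]; exact ha
    by_cases h : n = N
    · rw [h, G.zN]; exact ha
    · exact (G.bx n (by omega)).1
  have hIn : ∀ j < N, Inn a b (ζ (j + 1)) := fun j hj =>
    ⟨by linarith [(G.bx j hj).1], (G.bx j hj).2⟩
  have hInp : ∀ j < N, Inn a b (wp j) := by
    intro j hj
    obtain ⟨s1, s2, s3, s4, s5, s6, s7, s8⟩ := G.sgn j hj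
    obtain ⟨i1, i2, i3, i4⟩ := hIn j hj
    have e1 := congrArg re (ht j hj 2)
    have e2 := congrArg re (ht j hj 4)
    have e3 := congrArg im (ht j hj 2)
    have e4 := congrArg im (ht j hj 5)
    simp [AA, BB] at e1 e2 e3 e4
    refine ⟨?_, ?_, ?_, ?_⟩
    · linarith [mul_pos (ht0 j hj 2) s1]
    · linarith [mul_neg_of_pos_of_neg (ht0 j hj 4) s5]
    · linarith [mul_pos (ht0 j hj 2) s2]
    · linarith [mul_neg_of_pos_of_neg (ht0 j hj 5) s6]
  have hInm : ∀ j < N, Inn a b (wm j) := by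
    intro j hj
    obtain ⟨s1, s2, s3, s4, s5, s6, s7, s8⟩ := G.sgn j hj
    obtain ⟨i1, i2, i3, i4⟩ := hIn j hj
    have e1 := congrArg re (ht j hj 3)
    have e2 := congrArg re (ht j hj 6)
    have e3 := congrArg im (ht j hj 7)
    have e4 := congrArg im (ht j hj 3)
    simp [AA, BB] at e1 e2 e3 e4
    refine ⟨?_, ?_, ?_, ?_⟩
    · linarith [mul_pos (ht0 j hj 3) s3]
    · linarith [mul_neg_of_pos_of_neg (ht0 j hj 6) s7]
    · linarith [mul_pos (ht0 j hj 7) s8]
    · linarith [mul_neg_of_pos_of_neg (ht0 j hj 3) s4]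
  have ua : (a : ℂ) ∈ UU a b := mem_UU.2 (Or.inl rfl)
  have ub : b ∈ UU a b := mem_UU.2 (Or.inr (Or.inr (Or.inl rfl)))
  have ub' : -b ∈ UU a b := mem_UU.2 (Or.inr (Or.inr (Or.inr rfl)))
  have dP : ∀ i : ℕ, sg (i + 1) • ζ (i + 1) - sg i • ζ i = (-sg i) • (ζ i + ζ (i + 1)) := by
    intro i; rw [sg_succ]; module
  have dO : ∀ j < N, ∀ k, sg (j + 1) • BB b (wp j) (wm j) k - sg (j + 1) • AA a b (ζ (j + 1)) k =
      (sg (j + 1) * tt j k) • DD r a b (ζ (j + 1)) k := by
    intro j hj k; rw [← smul_sub, ht j hj k, smul_smul]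
  have nO : ∀ j < N, ∀ k, sg (j + 1) * tt j k ≠ 0 := fun j hj k =>
    mul_ne_zero (sg_ne _) (ht0 j hj k).ne'
  have hPA : ∀ i ≤ N, ∀ j < N, (pth ζ i ∩ axs a ζ (j + 1)).Subsingleton := by
    intro i hi j hj
    have k1 := (G.bx j hj).2.1
    have k2 := (G.bx j hj).1
    by_cases c1 : j + 1 = i
    · subst c1
      have k3 := hre (j + 1 + 1) (by omega)
      unfold pth axs
      rw [Set.inter_comm, sg_succ (j + 1)]
      refine sep_share (sg (j + 1)) ?_ ?_ <;>
        rcases sg_cases (j + 1) with h | h <;> simp [h] <;> linarith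
    by_cases c2 : j = i
    · subst c2
      have k3 := hre j (by omega)
      unfold pth axs
      rw [Set.inter_comm, segment_symm ℝ (sg j • ζ j)]
      refine sep_share (sg (j + 1)) ?_ ?_ <;> rw [sg_succ j] <;>
        rcases sg_cases j with h | h <;> simp [h] <;> linarith
    · exact G.s5b i hi j hj c1 c2
  have hAA : ∀ j < N, ∀ j' < N, j ≠ j' → (axs a ζ (j + 1) ∩ axs a ζ (j' + 1)).Subsingleton := by
    intro j hj j' hj' hne
    rcases sg_or (j + 1) (j' + 1) with hs | hs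
    · exact G.s5c j hj j' hj' hne hs
    · have k1 := (G.bx j hj).1
      have k2 := (G.bx j' hj').1
      refine sep_disj (sg (j + 1)) ?_ ?_ ?_ ?_ <;> rw [hs] <;>
        rcases sg_cases (j' + 1) with h | h <;> simp [h, k1, k2, ha]
  have hOP : ∀ j < N, ∀ k, ∀ i ≤ N, (segment ℝ (sg (j + 1) • AA a b (ζ (j + 1)) k)
      (sg (j + 1) • BB b (wp j) (wm j) k) ∩ pth ζ i).Subsingleton := by
    intro j hj k i hi
    refine noncol (Or.inr (Or.inr ?_))
    rw [dO j hj, dP, cross_smul]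
    exact mul_ne_zero (mul_ne_zero (nO j hj k) (neg_ne_zero.2 (sg_ne _))) (G.s4a j hj k i hi)
  have hOA : ∀ j < N, ∀ k, ∀ i < N, (segment ℝ (sg (j + 1) • AA a b (ζ (j + 1)) k)
      (sg (j + 1) • BB b (wp j) (wm j) k) ∩ axs a ζ (i + 1)).Subsingleton := by
    intro j hj k i hi
    refine noncol (Or.inr (Or.inr ?_))
    rw [dO j hj, ← smul_sub, cross_smul]
    exact mul_ne_zero (mul_ne_zero (nO j hj k) (sg_ne _)) (G.s4b j hj k i hi)
  have hcl : ∀ e, (src a b N ζ e ∈ UU a b ∨ Inn a b (src a b N ζ e)) ∧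
      Inn a b (tgt a b N ζ wp wm e) ∨ Inn a b (src a b N ζ e) ∧ tgt a b N ζ wp wm e ∈ UU a b := by
    rintro (i | j | ⟨j, k⟩)
    · by_cases h : (i : ℕ) = N
      · right
        obtain ⟨n, hn⟩ : ∃ n, (i : ℕ) = n + 1 := ⟨N - 1, by omega⟩
        refine ⟨?_, ?_⟩
        · change Inn a b (sg i • ζ i)
          rw [hn]; exact (hIn n (by omega)).sg _
        · change sg (i + 1) • ζ (i + 1) ∈ _
          rw [h, G.zN]; exact sg_mem ua _
      · left
        refine ⟨?_, (hIn i (by omega)).sg _⟩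
        change sg i • ζ i ∈ _ ∨ Inn a b (sg i • ζ i)
        rcases hi : (i : ℕ) with _ | n
        · left; rw [G.z0]; exact sg_mem ua _
        · right; exact (hIn n (by omega)).sg _
    · exact Or.inr ⟨(hIn j j.2).sg _, sg_mem ua _⟩
    · fin_cases k
      · exact Or.inr ⟨(hIn j j.2).sg _, sg_mem ub _⟩
      · exact Or.inr ⟨(hIn j j.2).sg _, sg_mem ub' _⟩
      · exact Or.inl ⟨Or.inr ((hIn j j.2).sg _), (hInp j j.2).sg _⟩
      · exact Or.inl ⟨Or.inr ((hIn j j.2).sg _), (hInm j j.2).sg _⟩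
      · exact Or.inl ⟨Or.inl (sg_mem ua _), (hInp j j.2).sg _⟩
      · exact Or.inl ⟨Or.inl (sg_mem ub _), (hInp j j.2).sg _⟩
      · exact Or.inl ⟨Or.inl (sg_mem ua _), (hInm j j.2).sg _⟩
      · exact Or.inl ⟨Or.inl (sg_mem ub' _), (hInm j j.2).sg _⟩
  have hinj : Function.Injective (fun j : Fin N => sg (j + 1) • ζ (j + 1)) := by
    intro j j' h
    by_contra hne
    have hne' : (j : ℕ) ≠ j' := fun hc => hne (Fin.ext hc)
    have k1 := (G.bx j j.2).1
    have k2 := (G.bx j' j'.2).1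
    simp only at h
    rcases sg_or (j + 1) (j' + 1) with hs | hs
    · rw [hs] at h
      have h' := smul_right_injective ℂ (sg_ne _) h
      have := G.s3 j j.2 j' j'.2 0 0 (Or.inl hne')
      rw [hs, h'] at this
      simp [cross, mul_comm] at this
    · have := congrArg re h
      rw [hs] at this
      rcases sg_cases (j' + 1) with h | h <;> simp [h] at this <;> linarith
  have H1 : ∀ e, src a b N ζ e ≠ tgt a b N ζ wp wm e := by
    rintro (i | j | ⟨j, k⟩) h
    · have h' : sg i • ζ i = sg (i + 1) • ζ (i + 1) := h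
      have := congrArg re h'
      have k1 := hre i (by omega)
      have k2 := hre (i + 1) (by omega)
      rw [sg_succ] at this
      rcases sg_cases i with h | h <;> simp [h] at this <;> linarith
    · exact ((hIn j j.2).sg (j + 1)).notMem (by
        rw [show sg (j + 1) • ζ (j + 1) = sg (j + 1) • (a : ℂ) from h]; exact sg_mem ua _)
    · have h' : sg (j + 1) • AA a b (ζ (j + 1)) k = sg (j + 1) • BB b (wp j) (wm j) k := h
      have := dO j j.2 k
      rw [h', sub_self, eq_comm, smul_eq_zero] at this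
      rcases this with h | h
      · exact nO j j.2 k h
      · have := G.s4b j j.2 k j j.2
        rw [h] at this
        simp [cross] at this
  have H2 : ∀ e e', e ≠ e' → (segment ℝ (src a b N ζ e) (tgt a b N ζ wp wm e) ∩
      segment ℝ (src a b N ζ e') (tgt a b N ζ wp wm e')).Subsingleton := by
    rintro (i | j | ⟨j, k⟩) (i' | j' | ⟨j', k'⟩) hne
    · exact G.s5a i (by omega) i' (by omega) (fun hc => hne (by rw [Fin.ext hc]))
    · exact hPA i (by omega) j' j'.2
    · rw [Set.inter_comm]; exact hOP j' j'.2 k' i (by omega)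
    · rw [Set.inter_comm]; exact hPA i' (by omega) j j.2
    · exact hAA j j.2 j' j'.2 (fun hc => hne (by rw [Fin.ext hc]))
    · rw [Set.inter_comm]; exact hOA j' j'.2 k' j j.2
    · exact hOP j j.2 k i' (by omega)
    · exact hOA j j.2 k j' j'.2
    · have hne' : (j : ℕ) ≠ j' ∨ k ≠ k' := by
        by_contra hc
        push Not at hc
        exact hne (by rw [Fin.ext hc.1, hc.2])
      change (segment ℝ (sg (j + 1) • AA a b (ζ (j + 1)) k) (sg (j + 1) • BB b (wp j) (wm j) k) ∩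
        segment ℝ (sg (j' + 1) • AA a b (ζ (j' + 1)) k')
          (sg (j' + 1) • BB b (wp j') (wm j') k')).Subsingleton
      rcases G.s3 j j.2 j' j'.2 k k' hne' with h | h
      · refine noncol (Or.inr (Or.inr ?_))
        rw [dO j j.2, dO j' j'.2, cross_smul]
        exact mul_ne_zero (mul_ne_zero (nO j j.2 k) (nO j' j'.2 k')) h
      · refine noncol (Or.inl ?_)
        rw [dO j j.2, cross_smul_left]
        exact mul_ne_zero (nO j j.2 k) h
  have H3 : ∀ ψ : ℂ → ℝ, (∀ u ∈ UU a b, ψ u = 0) →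
      ∑ e, (ψ (src a b N ζ e) - ψ (tgt a b N ζ wp wm e)) •
        unit (tgt a b N ζ wp wm e - src a b N ζ e) = 0 := by
    intro ψ hψ
    have p1 : ∑ i : Fin (N + 1), (ψ (sg i • ζ i) - ψ (sg (i + 1) • ζ (i + 1))) •
        unit (sg (i + 1) • ζ (i + 1) - sg i • ζ i) =
        ∑ j : Fin N, (ψ (sg (j + 1) • ζ (j + 1)) * sg (j + 1)) •
          (unit (-ζ j - ζ (j + 1)) + unit (-ζ (j + 2) - ζ (j + 1))) := by
      have e : ∀ i : ℕ, (ψ (sg i • ζ i) - ψ (sg (i + 1) • ζ (i + 1))) •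
          unit (sg (i + 1) • ζ (i + 1) - sg i • ζ i) =
          (ψ (sg i • ζ i) * sg i) • unit (-ζ (i + 1) - ζ i) +
          (ψ (sg (i + 1) • ζ (i + 1)) * sg (i + 1)) • unit (-ζ i - ζ (i + 1)) := by
        intro i
        have e1 : sg (i + 1) • ζ (i + 1) - sg i • ζ i = sg i • (-ζ i - ζ (i + 1)) := by
          rw [sg_succ]; module
        have e2 : -ζ (i + 1) - ζ i = -ζ i - ζ (i + 1) := by ring
        rw [e1, e2, unit_sg]
        generalize ψ (sg (i + 1) • ζ (i + 1)) = y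
        rw [sg_succ]; module
      rw [Fin.sum_univ_eq_sum_range (fun i => (ψ (sg i • ζ i) - ψ (sg (i + 1) • ζ (i + 1))) •
        unit (sg (i + 1) • ζ (i + 1) - sg i • ζ i)) (N + 1),
        Fin.sum_univ_eq_sum_range (fun j => (ψ (sg (j + 1) • ζ (j + 1)) * sg (j + 1)) •
          (unit (-ζ j - ζ (j + 1)) + unit (-ζ (j + 2) - ζ (j + 1)))) N]
      simp only [e, Finset.sum_add_distrib, smul_add]
      rw [Finset.sum_range_succ', Finset.sum_range_succ, G.z0, G.zN, hψ _ (sg_mem ua _),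
        hψ _ (sg_mem ua _)]
      simp only [zero_mul, zero_smul, add_zero]
      exact add_comm _ _
    have p2 : ∀ j < N, (ψ (sg (j + 1) • ζ (j + 1)) - ψ (sg (j + 1) • (a : ℂ))) •
        unit (sg (j + 1) • (a : ℂ) - sg (j + 1) • ζ (j + 1)) =
        (ψ (sg (j + 1) • ζ (j + 1)) * sg (j + 1)) • unit (a - ζ (j + 1)) := by
      intro j _
      rw [hψ _ (sg_mem ua _), ← smul_sub, unit_sg, smul_smul, sub_zero]
    have p3 : ∀ j < N, ∑ k, (ψ (sg (j + 1) • AA a b (ζ (j + 1)) k) -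
        ψ (sg (j + 1) • BB b (wp j) (wm j) k)) • unit (sg (j + 1) • BB b (wp j) (wm j) k -
          sg (j + 1) • AA a b (ζ (j + 1)) k) = (ψ (sg (j + 1) • ζ (j + 1)) * sg (j + 1)) •
        (unit (b - ζ (j + 1)) + unit (-b - ζ (j + 1)) + unit (Ep r a b - ζ (j + 1)) +
          unit (Em r a b - ζ (j + 1))) := by
      intro j hj
      have e : ∀ k, unit (sg (j + 1) • BB b (wp j) (wm j) k - sg (j + 1) • AA a b (ζ (j + 1)) k) =
          sg (j + 1) • unit (DD r a b (ζ (j + 1)) k) := by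
        intro k
        rw [← smul_sub, ht j hj k, unit_sg, unit_smul (ht0 j hj k)]
      have l1 := unit_leaf G.r2 (Ep r a b - ζ (j + 1))
      have l2 := unit_leaf G.r2 (Em r a b - ζ (j + 1))
      simp only [e, Fin.sum_univ_eight]
      simp only [AA, BB, DD, MM, CC, Matrix.cons_val, hψ _ (sg_mem ua _), hψ _ (sg_mem ub _),
        hψ _ (sg_mem ub' _)]
      simp only [one_mul] at l1 l2 ⊢
      linear_combination (norm := module) (-(ψ (sg (j + 1) • wp j) * sg (j + 1))) • l1 +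
        (-(ψ (sg (j + 1) • wm j) * sg (j + 1))) • l2
    rw [Fintype.sum_sum_type, Fintype.sum_sum_type, Fintype.sum_prod_type]
    simp only [src, tgt, Sum.elim_inl, Sum.elim_inr]
    rw [p1, ← Finset.sum_add_distrib, ← Finset.sum_add_distrib]
    refine Finset.sum_eq_zero fun j _ => ?_
    have := G.bal j j.2
    unfold frc at this
    rw [p2 j j.2, p3 j j.2]
    linear_combination (norm := module) (ψ (sg (j + 1) • ζ (j + 1)) * sg (j + 1)) • this
  have H4 : ∀ v ∉ UU a b, (∃ e, v = src a b N ζ e ∨ v = tgt a b N ζ wp wm e) →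
      ∃ i j k, i ≠ j ∧ i ≠ k ∧ j ≠ k ∧ (v = src a b N ζ i ∨ v = tgt a b N ζ wp wm i) ∧
        (v = src a b N ζ j ∨ v = tgt a b N ζ wp wm j) ∧
        (v = src a b N ζ k ∨ v = tgt a b N ζ wp wm k) := by
    intro v hv he
    have : ∃ j : Fin N, v = sg (j + 1) • ζ (j + 1) ∨ v = sg (j + 1) • wp j ∨
        v = sg (j + 1) • wm j := by
      have hz : ∀ n ≤ N + 1, v = sg n • ζ n → ∃ j : Fin N, v = sg (j + 1) • ζ (j + 1) := by
        intro n hn h
        rcases n with _ | n
        · exact absurd (by rw [h, G.z0]; exact sg_mem ua _) hv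
        by_cases h' : n = N
        · exact absurd (by rw [h, h', G.zN]; exact sg_mem ua _) hv
        · exact ⟨⟨n, by omega⟩, h⟩
      have na : ∀ n, v ≠ sg n • (a : ℂ) := fun n h => hv (by rw [h]; exact sg_mem ua _)
      have nb : ∀ n, v ≠ sg n • b := fun n h => hv (by rw [h]; exact sg_mem ub _)
      have nb' : ∀ n, v ≠ sg n • -b := fun n h => hv (by rw [h]; exact sg_mem ub' _)
      obtain ⟨i | j | ⟨j, k⟩, h | h⟩ := he
      · exact (hz i (by omega) h).imp fun _ => Or.inl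
      · exact (hz (i + 1) (by omega) h).imp fun _ => Or.inl
      · exact ⟨j, Or.inl h⟩
      · exact absurd h (na _)
      · fin_cases k
        exacts [⟨j, Or.inl h⟩, ⟨j, Or.inl h⟩, ⟨j, Or.inl h⟩, ⟨j, Or.inl h⟩, absurd h (na _),
          absurd h (nb _), absurd h (na _), absurd h (nb' _)]
      · fin_cases k
        exacts [absurd h (nb _), absurd h (nb' _), ⟨j, Or.inr (Or.inl h)⟩, ⟨j, Or.inr (Or.inr h)⟩,
          ⟨j, Or.inr (Or.inl h)⟩, ⟨j, Or.inr (Or.inl h)⟩, ⟨j, Or.inr (Or.inr h)⟩,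
          ⟨j, Or.inr (Or.inr h)⟩]
    obtain ⟨j, h | h | h⟩ := this
    · exact ⟨.inr (.inr (j, 0)), .inr (.inr (j, 1)), .inr (.inr (j, 2)), by simp, by simp, by simp,
        Or.inl h, Or.inl h, Or.inl h⟩
    · exact ⟨.inr (.inr (j, 2)), .inr (.inr (j, 4)), .inr (.inr (j, 5)), by simp, by simp, by simp,
        Or.inr h, Or.inr h, Or.inr h⟩
    · exact ⟨.inr (.inr (j, 3)), .inr (.inr (j, 6)), .inr (.inr (j, 7)), by simp, by simp, by simp,
        Or.inr h, Or.inr h, Or.inr h⟩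
  have H5 : ∀ e, Relation.EqvGen (fun x y => ∃ i, x = src a b N ζ i ∧ y = tgt a b N ζ wp wm i) b
      (src a b N ζ e) := by
    set R := fun x y => ∃ i, x = src a b N ζ i ∧ y = tgt a b N ζ wp wm i with hR
    have step : ∀ e, Relation.EqvGen R (src a b N ζ e) (tgt a b N ζ wp wm e) :=
      fun e => .rel _ _ ⟨e, rfl, rfl⟩
    have hV : ∀ j : Fin N, Relation.EqvGen R b (sg (j + 1) • ζ (j + 1)) := by
      intro j
      rcases sg_cases (j + 1) with h | h
      · have : Relation.EqvGen R (sg (j + 1) • ζ (j + 1)) (sg (j + 1) • b) :=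
          step (.inr (.inr (j, 0)))
        refine .symm _ _ ?_
        nth_rewrite 2 [h] at this
        rwa [one_smul] at this
      · have : Relation.EqvGen R (sg (j + 1) • ζ (j + 1)) (sg (j + 1) • -b) :=
          step (.inr (.inr (j, 1)))
        refine .symm _ _ ?_
        nth_rewrite 2 [h] at this
        rwa [neg_smul, one_smul, neg_neg] at this
    rintro (i | j | ⟨j, k⟩)
    · refine Fin.cases ?_ (fun i => hV i) i
      exact .trans _ _ _ (hV ⟨0, hN⟩) (.symm _ _ (step (.inl 0)))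
    · exact hV j
    · fin_cases k
      exacts [hV j, hV j, hV j, hV j, .trans _ _ _ (hV j) (step (.inr (.inl j))),
        .trans _ _ _ (hV j) (step (.inr (.inr (j, 0)))), .trans _ _ _ (hV j) (step (.inr (.inl j))),
        .trans _ _ _ (hV j) (step (.inr (.inr (j, 1))))]
  have H6 : ∀ u ∈ UU a b, ∃ e, u = src a b N ζ e ∨ u = tgt a b N ζ wp wm e := by
    intro u hu
    rcases mem_UU.1 hu with rfl | rfl | rfl | rfl
    · exact ⟨.inl 0, Or.inl (by simp [src, sg, G.z0])⟩
    · exact ⟨.inr (.inl ⟨0, hN⟩), Or.inr (by simp [tgt, sg])⟩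
    · exact ⟨.inr (.inr (⟨0, hN⟩, 1)), Or.inr (by simp [tgt, sg, BB])⟩
    · exact ⟨.inr (.inr (⟨0, hN⟩, 0)), Or.inr (by simp [tgt, sg, BB])⟩
  have H7 : ∀ e, ∀ u ∈ UU a b, ∀ u' ∈ UU a b,
      u ∈ segment ℝ (src a b N ζ e) (tgt a b N ζ wp wm e) →
      u' ∈ segment ℝ (src a b N ζ e) (tgt a b N ζ wp wm e) → u = u' := by
    intro e u hu u' hu' h h'
    rcases hcl e with ⟨c1, c2⟩ | ⟨c1, c2⟩
    · rw [term_on_seg G.bb c1 c2 hu h, term_on_seg G.bb c1 c2 hu' h']
    · rw [segment_symm] at h h'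
      rw [term_on_seg G.bb (Or.inl c2) c1 hu h, term_on_seg G.bb (Or.inl c2) c1 hu' h']
  obtain ⟨U', B', G', k1, k2, k3⟩ := planarise_c (src a b N ζ) (tgt a b N ζ wp wm) (UU a b)
    H1 H2 H3 H4 b H5 H6 H7
    (Finset.univ.image fun j : Fin N => sg (j + 1) • ζ (j + 1)) (by
      intro v hv
      obtain ⟨j, -, rfl⟩ := Finset.mem_image.1 hv
      exact ⟨((hIn j j.2).sg _).notMem, .inr (.inl j), Or.inl rfl⟩)
  refine ⟨U', B', G', k1, k2.trans (card_UU G.bb), ?_⟩
  rwa [Finset.card_image_of_injective _ hinj, Finset.card_univ, Fintype.card_fin] at k3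

end Pool.Agent.P.MP_b67b84_gt
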