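import Pool.Agent.P.MP_b67b84_gt.Defs

namespace Pool.Agent.P.MP_b67b84_gt

section Seg
variable {V : Type*} [NormedAddCommGroup V] [NormedSpace ℝ V]

/-- unit vector in the direction of `z` -/
noncomputable def unit (z : V) : V := ‖z‖⁻¹ • z

lemma unit_zero : unit (0 : V) = 0 := by simp [unit]

lemma unit_neg (z : V) : unit (-z) = -unit z := by simp [unit]

lemma unit_smul {t : ℝ} (ht : 0 < t) (z : V) : unit (t • z) = unit z := by
  unfold unit
  rw [norm_smul, Real.norm_of_nonneg ht.le, smul_smul, mul_inv, mul_right_comm,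
    inv_mul_cancel₀ ht.ne', one_mul]

lemma seg_param {a b x : V} (h : x ∈ segment ℝ a b) :
    ∃ t : ℝ, 0 ≤ t ∧ t ≤ 1 ∧ x = a + t • (b - a) := by
  rw [segment_eq_image'] at h
  obtain ⟨t, ht, rfl⟩ := h
  exact ⟨t, ht.1, ht.2, rfl⟩

lemma mem_seg {a b : V} {t : ℝ} (h0 : 0 ≤ t) (h1 : t ≤ 1) : a + t • (b - a) ∈ segment ℝ a b := by
  rw [segment_eq_image']
  exact ⟨t, ⟨h0, h1⟩, rfl⟩

lemma unit_of_mem_seg {v e w : V} (h : w ∈ segment ℝ v e) (hw : w ≠ v) :
    unit (w - v) = unit (e - v) := by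
  obtain ⟨t, h0, -, rfl⟩ := seg_param h
  have : 0 < t := by
    rcases h0.lt_or_eq with h | h
    · exact h
    · subst h; simp at hw
  rw [add_sub_cancel_left, unit_smul this]

lemma seg_total {v e w w' : V} (h : w ∈ segment ℝ v e) (h' : w' ∈ segment ℝ v e) :
    w ∈ segment ℝ v w' ∨ w' ∈ segment ℝ v w := by
  have key : ∀ s t : ℝ, 0 ≤ s → s ≤ t →
      v + s • (e - v) ∈ segment ℝ v (v + t • (e - v)) := by
    intro s t hs hst
    rcases (hs.trans hst).lt_or_eq with ht | ht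
    · have : v + s • (e - v) = v + (s / t) • (v + t • (e - v) - v) := by
        rw [add_sub_cancel_left, smul_smul, div_mul_cancel₀ _ ht.ne']
      rw [this]
      exact mem_seg (div_nonneg hs ht.le) ((div_le_one ht).2 hst)
    · have : s = 0 := by linarith
      subst this
      simpa using left_mem_segment ℝ v _
  obtain ⟨s, hs, -, rfl⟩ := seg_param h
  obtain ⟨t, ht, -, rfl⟩ := seg_param h'
  rcases le_total s t with hst | hst
  · exact Or.inl (key s t hs hst)
  · exact Or.inr (key t s ht hst)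

lemma seg_split {a b v w : V} (hv : v ∈ segment ℝ a b) (hw : w ∈ segment ℝ a b) :
    w ∈ segment ℝ v a ∨ w ∈ segment ℝ v b := by
  rcases seg_total hv hw with h | h
  · right
    have hv' : v ∈ segment ℝ b a := by rwa [segment_symm]
    have hw' : w ∈ segment ℝ b a := by rwa [segment_symm]
    rcases seg_total hv' hw' with h2 | h2
    · have e1 := dist_add_dist_of_mem_segment h
      have e2 := dist_add_dist_of_mem_segment h2
      have e3 := dist_add_dist_of_mem_segment hv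
      have e4 := dist_add_dist_of_mem_segment hw
      rw [dist_comm b v, dist_comm b w] at e2
      have : dist v w = 0 := by linarith
      rw [dist_eq_zero] at this
      subst this
      exact left_mem_segment ℝ _ _
    · rwa [segment_symm]
  · left; rwa [segment_symm]

lemma seg_both {a b v w : V} (hv : v ∈ segment ℝ a b) (h1 : w ∈ segment ℝ v a)
    (h2 : w ∈ segment ℝ v b) : w = v := by
  have e1 := dist_add_dist_of_mem_segment h1
  have e2 := dist_add_dist_of_mem_segment h2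
  have e3 := dist_add_dist_of_mem_segment hv
  have e4 := dist_triangle a w b
  rw [dist_comm w a, dist_comm v a] at e1
  have := dist_nonneg (x := v) (y := w)
  have : dist v w = 0 := by linarith
  exact (dist_eq_zero.1 this).symm

lemma seg_sub {a b x y : V} (hx : x ∈ segment ℝ a b) (hy : y ∈ segment ℝ a b) :
    segment ℝ x y ⊆ segment ℝ a b := (convex_segment a b).segment_subset hx hy

lemma real_case (α β γ δ ξ : ℝ)
    (h1 : (α ≤ γ ∧ γ ≤ β ∨ β ≤ γ ∧ γ ≤ α) → γ = α ∨ γ = β)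
    (h2 : (α ≤ δ ∧ δ ≤ β ∨ β ≤ δ ∧ δ ≤ α) → δ = α ∨ δ = β)
    (h3 : (γ ≤ α ∧ α ≤ δ ∨ δ ≤ α ∧ α ≤ γ) → α = γ ∨ α = δ)
    (h4 : (γ ≤ β ∧ β ≤ δ ∨ δ ≤ β ∧ β ≤ γ) → β = γ ∨ β = δ)
    (h5 : α ≤ ξ ∧ ξ ≤ β ∨ β ≤ ξ ∧ ξ ≤ α) (h6 : γ ≤ ξ ∧ ξ ≤ δ ∨ δ ≤ ξ ∧ ξ ≤ γ) :
    (ξ = α ∨ ξ = β) ∨ (α = γ ∧ β = δ ∨ α = δ ∧ β = γ) := by
  grind

lemma line_seg_iff {a d : V} (hd : d ≠ 0) (s t u : ℝ) :
    a + u • d ∈ segment ℝ (a + s • d) (a + t • d) ↔ (s ≤ u ∧ u ≤ t ∨ t ≤ u ∧ u ≤ s) := by
  rw [← Set.mem_uIcc, ← segment_eq_uIcc]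
  constructor
  · intro h
    obtain ⟨r, h0, h1, hr⟩ := seg_param h
    have : u = s + r • (t - s) := by
      have h2 : (u - (s + r * (t - s))) • d = 0 := by
        have : u • d = s • d + r • (t • d - s • d) := by
          have := congrArg (fun z => z - a) hr
          simp only [add_sub_cancel_left] at this
          rw [this]; module
        rw [sub_smul, this]; module
      rcases smul_eq_zero.1 h2 with h3 | h3
      · rw [smul_eq_mul]; linarith
      · exact absurd h3 hd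
    rw [this]; exact mem_seg h0 h1
  · intro h
    obtain ⟨r, h0, h1, hr⟩ := seg_param h
    have : a + u • d = (a + s • d) + r • ((a + t • d) - (a + s • d)) := by
      rw [hr, smul_eq_mul]; module
    rw [this]; exact mem_seg h0 h1

end Seg

section Plan
variable {V : Type*} [NormedAddCommGroup V] [NormedSpace ℝ V] {ι : Type*}

/-- endpoints and crossing points of a family of segments -/
def vset (A B : ι → V) : Set V :=
  {x | (∃ i, x = A i ∨ x = B i) ∨
    ∃ i k, i ≠ k ∧ x ∈ segment ℝ (A i) (B i) ∧ x ∈ segment ℝ (A k) (B k)}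

lemma vset_finite [Finite ι] {A B : ι → V}
    (h2 : ∀ i k, i ≠ k → (segment ℝ (A i) (B i) ∩ segment ℝ (A k) (B k)).Subsingleton) :
    (vset A B).Finite := by
  have h1 : (Set.range A ∪ Set.range B).Finite := (Set.finite_range A).union (Set.finite_range B)
  have h3 : (⋃ i, ⋃ k, {x | i ≠ k ∧ x ∈ segment ℝ (A i) (B i) ∧
      x ∈ segment ℝ (A k) (B k)}).Finite := by
    refine Set.finite_iUnion fun i => Set.finite_iUnion fun k => ?_
    by_cases h : i = k
    · simp [h]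
    · exact (h2 i k h).finite.subset fun x hx => hx.2
  refine (h1.union h3).subset ?_
  rintro x (⟨i, h | h⟩ | ⟨i, k, h⟩)
  · exact Or.inl (Or.inl ⟨i, h.symm⟩)
  · exact Or.inl (Or.inr ⟨i, h.symm⟩)
  · exact Or.inr (Set.mem_iUnion.2 ⟨i, Set.mem_iUnion.2 ⟨k, h⟩⟩)

/-- the subdivided graph -/
def pgraph (A B : ι → V) : SimpleGraph V where
  Adj x y := x ≠ y ∧ x ∈ vset A B ∧ y ∈ vset A B ∧
    (∃ i, x ∈ segment ℝ (A i) (B i) ∧ y ∈ segment ℝ (A i) (B i)) ∧
    ∀ z ∈ vset A B, z ∈ segment ℝ x y → z = x ∨ z = y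
  symm := ⟨by
    rintro x y ⟨h1, h2, h3, ⟨i, h4, h5⟩, h6⟩
    refine ⟨h1.symm, h3, h2, ⟨i, h5, h4⟩, fun z hz hz' => ?_⟩
    rw [segment_symm] at hz'
    exact (h6 z hz hz').symm⟩
  loopless := ⟨fun x h => h.1 rfl⟩

lemma exists_next {A B : ι → V} (hf : (vset A B).Finite) {i : ι} {x y : V}
    (hx : x ∈ vset A B) (hy : y ∈ vset A B) (hxy : x ≠ y)
    (hxi : x ∈ segment ℝ (A i) (B i)) (hyi : y ∈ segment ℝ (A i) (B i)) :
    ∃ w, (pgraph A B).Adj x w ∧ w ∈ segment ℝ x y := by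
  have hfin : {z | z ∈ vset A B ∧ z ∈ segment ℝ x y ∧ z ≠ x}.Finite :=
    hf.subset fun z hz => hz.1
  obtain ⟨w, ⟨hw1, hw2, hw3⟩, hmin⟩ := Set.exists_min_image _ (fun z => dist x z) hfin
    ⟨y, hy, right_mem_segment ℝ _ _, hxy.symm⟩
  refine ⟨w, ⟨hw3.symm, hx, hw1, ⟨i, hxi, seg_sub hxi hyi hw2⟩, fun z hz hz' => ?_⟩, hw2⟩
  by_cases hzx : z = x
  · exact Or.inl hzx
  · right
    have h1 := hmin z ⟨hz, seg_sub (left_mem_segment ℝ _ _) hw2 hz', hzx⟩
    have h2 := dist_add_dist_of_mem_segment hz'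
    have h3 := dist_nonneg (x := z) (y := w)
    have : dist z w = 0 := by linarith
    exact dist_eq_zero.1 this

lemma reach_seg {A B : ι → V} (hf : (vset A B).Finite) {i : ι} {y : V} (hy : y ∈ vset A B)
    (hyi : y ∈ segment ℝ (A i) (B i)) (n : ℕ) : ∀ x ∈ vset A B, x ∈ segment ℝ (A i) (B i) →
      {z | z ∈ vset A B ∧ z ∈ segment ℝ x y}.ncard ≤ n → (pgraph A B).Reachable x y := by
  induction n with
  | zero =>
    intro x hx _ h
    have hfin : {z | z ∈ vset A B ∧ z ∈ segment ℝ x y}.Finite := hf.subset fun z hz => hz.1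
    have := (Set.ncard_pos hfin).2 ⟨x, hx, left_mem_segment ℝ _ _⟩
    omega
  | succ n ih =>
    intro x hx hxi h
    by_cases hxy : x = y
    · subst hxy; exact SimpleGraph.Reachable.refl _
    obtain ⟨w, hw, hw'⟩ := exists_next hf hx hy hxy hxi hyi
    refine hw.reachable.trans (ih w hw.2.2.1 (seg_sub hxi hyi hw') ?_)
    have hfin : {z | z ∈ vset A B ∧ z ∈ segment ℝ x y}.Finite := hf.subset fun z hz => hz.1
    have hss : {z | z ∈ vset A B ∧ z ∈ segment ℝ w y} ⊂
        {z | z ∈ vset A B ∧ z ∈ segment ℝ x y} := by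
      refine ⟨fun z hz => ⟨hz.1, seg_sub hw' (right_mem_segment ℝ _ _) hz.2⟩, fun hc => ?_⟩
      have hx' := (hc ⟨hx, left_mem_segment ℝ _ _⟩).2
      have e1 := dist_add_dist_of_mem_segment hx'
      have e2 := dist_add_dist_of_mem_segment hw'
      rw [dist_comm w x] at e1
      have : dist x w = 0 := by linarith
      exact hw.1 (dist_eq_zero.1 this)
    have := Set.ncard_lt_ncard hss hfin
    omega

lemma edges_meet_aux {A B : ι → V} (h1 : ∀ i, A i ≠ B i) {a b c d x : V}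
    (hab : (pgraph A B).Adj a b) (hcd : (pgraph A B).Adj c d) (hne : s(a, b) ≠ s(c, d))
    (hx : x ∈ segment ℝ a b) (hx' : x ∈ segment ℝ c d) : x = a ∨ x = b := by
  obtain ⟨-, ha, hb, ⟨i, hai, hbi⟩, h⟩ := hab
  obtain ⟨-, hc, hd, ⟨k, hck, hdk⟩, h'⟩ := hcd
  by_cases hik : i = k
  · subst hik
    have hD : B i - A i ≠ 0 := sub_ne_zero.2 (h1 i).symm
    obtain ⟨ξ, -, -, rfl⟩ := seg_param (seg_sub hai hbi hx)
    obtain ⟨α, -, -, rfl⟩ := seg_param hai
    obtain ⟨β, -, -, rfl⟩ := seg_param hbi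
    obtain ⟨γ, -, -, rfl⟩ := seg_param hck
    obtain ⟨δ, -, -, rfl⟩ := seg_param hdk
    have inj : ∀ s t : ℝ, A i + s • (B i - A i) = A i + t • (B i - A i) → s = t := by
      intro s t hst
      exact smul_left_injective ℝ hD (add_left_cancel hst)
    have := real_case α β γ δ ξ
      (fun hh => (h _ hc ((line_seg_iff hD _ _ _).2 hh)).imp (inj _ _) (inj _ _))
      (fun hh => (h _ hd ((line_seg_iff hD _ _ _).2 hh)).imp (inj _ _) (inj _ _))
      (fun hh => (h' _ ha ((line_seg_iff hD _ _ _).2 hh)).imp (inj _ _) (inj _ _))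
      (fun hh => (h' _ hb ((line_seg_iff hD _ _ _).2 hh)).imp (inj _ _) (inj _ _))
      ((line_seg_iff hD _ _ _).1 hx) ((line_seg_iff hD _ _ _).1 hx')
    rcases this with (h3 | h3) | (⟨h3, h4⟩ | ⟨h3, h4⟩)
    · left; rw [h3]
    · right; rw [h3]
    · exact absurd (by rw [h3, h4]) hne
    · exact absurd (by rw [h3, h4, Sym2.eq_swap]) hne
  · exact h x (Or.inr ⟨i, k, hik, seg_sub hai hbi hx, seg_sub hck hdk hx'⟩) hx

/-- the endpoint selected by a half-edge -/
def ept (A B : ι → V) (h : ι × Bool) : V := if h.2 then B h.1 else A h.1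

lemma ept_mem (A B : ι → V) (h : ι × Bool) : ept A B h ∈ segment ℝ (A h.1) (B h.1) := by
  unfold ept; split_ifs
  · exact right_mem_segment ℝ _ _
  · exact left_mem_segment ℝ _ _

open Classical in
lemma sum_nbr [DecidableEq V] [Fintype ι] {A B : ι → V}
    (h2 : ∀ i k, i ≠ k → (segment ℝ (A i) (B i) ∩ segment ℝ (A k) (B k)).Subsingleton)
    {W : Finset V} (hW : ∀ x, x ∈ W ↔ x ∈ vset A B) {v : V} (hv : v ∈ vset A B)
    {M : Type*} [AddCommMonoid M] (f : V → M)
    (hf : ∀ e w, w ∈ segment ℝ v e → w ≠ v → f w = f e) :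
    ∑ w ∈ W.filter ((pgraph A B).Adj v), f w =
      ∑ h ∈ Finset.univ.filter (fun h : ι × Bool =>
        v ∈ segment ℝ (A h.1) (B h.1) ∧ ept A B h ≠ v), f (ept A B h) := by
  have hfin := vset_finite h2
  have hex : ∀ h : ι × Bool, (v ∈ segment ℝ (A h.1) (B h.1) ∧ ept A B h ≠ v) →
      ∃ w, (pgraph A B).Adj v w ∧ w ∈ segment ℝ v (ept A B h) := by
    intro h hh
    refine exists_next hfin hv ?_ hh.2.symm hh.1 (ept_mem A B h)
    left; refine ⟨h.1, ?_⟩
    unfold ept; split_ifs <;> simp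
  choose! n hn using hex
  symm
  refine Finset.sum_bij (fun h _ => n h) ?_ ?_ ?_ ?_
  · intro h hh
    have := (hn h (Finset.mem_filter.1 hh).2).1
    exact Finset.mem_filter.2 ⟨(hW _).2 this.2.2.1, this⟩
  · intro h hh h' hh' he
    have hh := (Finset.mem_filter.1 hh).2
    have hh' := (Finset.mem_filter.1 hh').2
    obtain ⟨a1, a2⟩ := hn h hh
    obtain ⟨b1, b2⟩ := hn h' hh'
    rw [← he] at b2
    have hi : h.1 = h'.1 := by
      by_contra hc
      exact a1.1 (h2 _ _ hc ⟨hh.1, hh'.1⟩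
        ⟨seg_sub hh.1 (ept_mem A B h) a2, seg_sub hh'.1 (ept_mem A B h') b2⟩)
    obtain ⟨i, c⟩ := h
    obtain ⟨i', c'⟩ := h'
    simp only at hi
    subst hi
    cases c <;> cases c'
    · rfl
    · exact absurd (seg_both hh.1 (by simpa [ept] using a2) (by simpa [ept] using b2)) a1.1.symm
    · exact absurd (seg_both hh.1 (by simpa [ept] using b2) (by simpa [ept] using a2)) a1.1.symm
    · rfl
  · intro w hw
    have hw := (Finset.mem_filter.1 hw).2
    obtain ⟨i, hvi, hwi⟩ := hw.2.2.2.1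
    have : ∃ c, w ∈ segment ℝ v (ept A B (i, c)) := by
      rcases seg_split hvi hwi with h | h
      · exact ⟨false, by simpa [ept] using h⟩
      · exact ⟨true, by simpa [ept] using h⟩
    obtain ⟨c, hc⟩ := this
    have hh : v ∈ segment ℝ (A (i, c).1) (B (i, c).1) ∧ ept A B (i, c) ≠ v := by
      refine ⟨hvi, fun he => ?_⟩
      rw [he, segment_same] at hc
      exact hw.1 hc.symm
    refine ⟨(i, c), Finset.mem_filter.2 ⟨Finset.mem_univ _, hh⟩, ?_⟩
    obtain ⟨a1, a2⟩ := hn _ hh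
    rcases seg_total a2 hc with h | h
    · rcases hw.2.2.2.2 _ a1.2.2.1 h with h | h
      · exact absurd h a1.1.symm
      · exact h
    · rcases a1.2.2.2.2 _ hw.2.2.1 h with h | h
      · exact absurd h hw.1.symm
      · exact h.symm
  · intro h hh
    obtain ⟨a1, a2⟩ := hn h (Finset.mem_filter.1 hh).2
    exact (hf _ _ a2 a1.1.symm).symm

open Classical in
lemma half_sum [DecidableEq V] [Fintype ι] {A B : ι → V} (h1 : ∀ i, A i ≠ B i) (v : V) :
    ∑ h ∈ Finset.univ.filter (fun h : ι × Bool =>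
        v ∈ segment ℝ (A h.1) (B h.1) ∧ ept A B h ≠ v), unit (ept A B h - v) =
      ∑ i, ((if A i = v then (1 : ℝ) else 0) - (if B i = v then 1 else 0)) • unit (B i - A i) := by
  rw [Finset.sum_filter, Fintype.sum_prod_type]
  refine Finset.sum_congr rfl fun i _ => ?_
  rw [Fintype.sum_bool]
  simp only [ept, if_true, Bool.false_eq_true, if_false]
  by_cases hA : A i = v
  · subst hA
    simp [left_mem_segment, (h1 i).symm]
  by_cases hB : B i = v
  · subst hB
    simp only [right_mem_segment, ne_eq, not_true_eq_false, and_false, if_false, hA,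
      not_false_eq_true, and_self, if_true, zero_add, zero_sub, neg_smul, one_smul]
    rw [← unit_neg, neg_sub]
  by_cases hv : v ∈ segment ℝ (A i) (B i)
  · have e1 := unit_of_mem_seg hv (Ne.symm hA)
    have e2 := unit_of_mem_seg (by rwa [segment_symm] at hv : v ∈ segment ℝ (B i) (A i))
      (Ne.symm hB)
    simp only [hv, ne_eq, hA, hB, not_false_eq_true, and_self, if_true, if_false, sub_self,
      zero_smul]
    rw [← neg_sub v (B i), ← neg_sub v (A i), unit_neg, unit_neg, e1, e2, ← neg_sub (B i) (A i),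
      unit_neg]
    simp
  · simp [hv, hA, hB]

end Plan

open Classical in
/-- A finite family of pairwise non-overlapping segments, balanced away from `U`, gives a geodesic
net after its crossing points are added as vertices. -/
theorem planarise {ι : Type*} [Fintype ι] (A B : ι → EuclideanSpace ℝ (Fin 2))
    (U : Finset (EuclideanSpace ℝ (Fin 2))) (h1 : ∀ i, A i ≠ B i)
    (h2 : ∀ i k, i ≠ k → (segment ℝ (A i) (B i) ∩ segment ℝ (A k) (B k)).Subsingleton)
    (h3 : ∀ ψ : EuclideanSpace ℝ (Fin 2) → ℝ, (∀ u ∈ U, ψ u = 0) →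
      ∑ i, (ψ (A i) - ψ (B i)) • unit (B i - A i) = 0)
    (h4 : ∀ v ∉ U, (∃ i, v = A i ∨ v = B i) → ∃ i j k, i ≠ j ∧ i ≠ k ∧ j ≠ k ∧
      (v = A i ∨ v = B i) ∧ (v = A j ∨ v = B j) ∧ (v = A k ∨ v = B k))
    (o : EuclideanSpace ℝ (Fin 2))
    (h5 : ∀ i, Relation.EqvGen (fun x y => ∃ i, x = A i ∧ y = B i) o (A i))
    (h6 : ∀ u ∈ U, ∃ i, u = A i ∨ u = B i)
    (h7 : ∀ i, ∀ u ∈ U, ∀ u' ∈ U, u ∈ segment ℝ (A i) (B i) → u' ∈ segment ℝ (A i) (B i) →
      u = u') :
    ∃ (B' : Finset (EuclideanSpace ℝ (Fin 2))) (G : SimpleGraph (EuclideanSpace ℝ (Fin 2))),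
      IsGeodesicNet U B' G ∧ ∀ v ∉ U, (∃ i, v = A i ∨ v = B i) → v ∈ B' := by
  have hfin := vset_finite h2
  set W := hfin.toFinset with hWdef
  have hW : ∀ x, x ∈ W ↔ x ∈ vset A B := fun x => hfin.mem_toFinset
  have hUW : U ⊆ W := fun u hu => (hW u).2 (Or.inl (h6 u hu))
  have hUB : U ∪ (W \ U) = W := Finset.union_sdiff_of_subset hUW
  have hA : ∀ i, A i ∈ vset A B := fun i => Or.inl ⟨i, Or.inl rfl⟩
  have hB : ∀ i, B i ∈ vset A B := fun i => Or.inl ⟨i, Or.inr rfl⟩
  have hseg : ∀ i, ∀ x ∈ vset A B, x ∈ segment ℝ (A i) (B i) →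
      (pgraph A B).Reachable x (A i) := fun i x hx hxi =>
    reach_seg hfin (hA i) (left_mem_segment ℝ _ _) _ x hx hxi le_rfl
  have hgen : ∀ x y, Relation.EqvGen (fun x y => ∃ i, x = A i ∧ y = B i) x y →
      (pgraph A B).Reachable x y := by
    intro x y h
    induction h with
    | rel x y h =>
      obtain ⟨i, rfl, rfl⟩ := h
      exact (hseg i _ (hB i) (right_mem_segment ℝ _ _)).symm
    | refl x => exact SimpleGraph.Reachable.refl _
    | symm x y _ ih => exact ih.symm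
    | trans x y z _ _ ih1 ih2 => exact ih1.trans ih2
  have hroot : ∀ x ∈ vset A B, (pgraph A B).Reachable x o := by
    intro x hx
    have : ∃ i, x ∈ segment ℝ (A i) (B i) := by
      rcases hx with ⟨i, rfl | rfl⟩ | ⟨i, _, _, h, _⟩
      · exact ⟨i, left_mem_segment ℝ _ _⟩
      · exact ⟨i, right_mem_segment ℝ _ _⟩
      · exact ⟨i, h⟩
    obtain ⟨i, hi⟩ := this
    exact (hseg i x hx hi).trans (hgen _ _ (h5 i)).symm
  refine ⟨W \ U, pgraph A B, ⟨Finset.disjoint_sdiff, ?_, ?_, ?_, ?_, ?_, ?_, ?_⟩, ?_⟩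
  · intro v w h
    rw [hUB]
    exact ⟨(hW _).2 h.2.1, (hW _).2 h.2.2.1⟩
  · intro v hv w hw
    rw [hUB, hW] at hv hw
    exact (hroot v hv).trans (hroot w hw).symm
  · intro a b h v hv hv'
    rw [hUB, hW] at hv
    exact h.2.2.2.2 v hv hv'
  · intro a b c d hab hcd hne x hx
    exact ⟨edges_meet_aux h1 hab hcd hne hx.1 hx.2,
      edges_meet_aux h1 hcd hab hne.symm hx.2 hx.1⟩
  · intro v hv
    obtain ⟨hv, hvU⟩ := Finset.mem_sdiff.1 hv
    rw [hW] at hv
    rw [hUB, Finset.card_eq_sum_ones, sum_nbr h2 hW hv (fun _ => 1) (fun _ _ _ _ => rfl),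
      ← Finset.card_eq_sum_ones]
    have hend : ∀ i, (v = A i ∨ v = B i) → ∃ c, v ∈ segment ℝ (A (i, c).1) (B (i, c).1) ∧
        ept A B (i, c) ≠ v := by
      rintro i (rfl | rfl)
      · exact ⟨true, left_mem_segment ℝ _ _, by simpa [ept] using (h1 i).symm⟩
      · exact ⟨false, right_mem_segment ℝ _ _, by simpa [ept] using h1 i⟩
    rw [Nat.succ_le_iff, Finset.two_lt_card_iff]
    by_cases he : ∃ i, v = A i ∨ v = B i
    · obtain ⟨i, j, k, hij, hik, hjk, hi, hj, hk⟩ := h4 v hvU he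
      obtain ⟨ci, hi⟩ := hend i hi
      obtain ⟨cj, hj⟩ := hend j hj
      obtain ⟨ck, hk⟩ := hend k hk
      exact ⟨(i, ci), (j, cj), (k, ck), Finset.mem_filter.2 ⟨Finset.mem_univ _, hi⟩,
        Finset.mem_filter.2 ⟨Finset.mem_univ _, hj⟩, Finset.mem_filter.2 ⟨Finset.mem_univ _, hk⟩,
        by simp [hij], by simp [hik], by simp [hjk]⟩
    · rcases hv with hv | ⟨i, k, hik, hi, hk⟩
      · exact absurd hv he
      push Not at he
      refine ⟨(i, true), (i, false), (k, true), ?_, ?_, ?_, by simp, by simp [hik], by simp⟩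
      · exact Finset.mem_filter.2 ⟨Finset.mem_univ _, hi, by simpa [ept] using (he i).2.symm⟩
      · exact Finset.mem_filter.2 ⟨Finset.mem_univ _, hi, by simpa [ept] using (he i).1.symm⟩
      · exact Finset.mem_filter.2 ⟨Finset.mem_univ _, hk, by simpa [ept] using (he k).2.symm⟩
  · intro v hv
    obtain ⟨hv, hvU⟩ := Finset.mem_sdiff.1 hv
    rw [hW] at hv
    rw [hUB]
    have := sum_nbr h2 hW hv (fun w => unit (w - v)) (fun _ _ h h' => unit_of_mem_seg h h')
    rw [half_sum h1, h3 (fun x => if x = v then 1 else 0)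
      (fun u hu => if_neg (fun h : u = v => hvU (h ▸ hu)))] at this
    exact this
  · intro u hu u' hu' h
    obtain ⟨i, hi, hi'⟩ := h.2.2.2.1
    exact h.1 (h7 i u hu u' hu' hi hi')
  · intro v hv h
    exact Finset.mem_sdiff.2 ⟨(hW _).2 (Or.inl h), hv⟩

end Pool.Agent.P.MP_b67b84_gt
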